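import Pool.Agent.Run7.h195.LB.SmFin
import Pool.Agent.H382L.GapUnif

/-! From indices `n ≤ N` to ordinates up to `T`. -/

open Complex Filter Topology Set MeasureTheory

namespace Pool.Agent.Run7.h195.LB

open SG (ord NZ)
open LG (dlt)

/-- from indices to ordinates: small gaps -/
theorem T_of_idx {c a : ℝ} (hc : 0 < c) (hca : c < a) : ∃ c0 : ℝ, 0 < c0 ∧
    ∀ (P : ℕ → Prop) (ε : ℝ), 0 < ε →
    (∃ N0 : ℕ, ∀ N : ℕ, N0 ≤ N →
      ε * N ≤ ({n : ℕ | 1 ≤ n ∧ n ≤ N ∧ dlt n ≤ c ∧ P n}.ncard : ℝ)) →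
    ∃ T0 : ℝ, 10 ≤ T0 ∧ ∀ T : ℝ, T0 ≤ T → c0 * ε * (T * Real.log T) ≤
      ({n : ℕ | 1 ≤ n ∧ ord (n + 1) ≤ T ∧ ord (n + 1) - ord n ≤ 2 * Real.pi * a / Real.log T ∧
        P n}.ncard : ℝ) := by
  classical
  have hpi := Real.pi_pos
  obtain ⟨b, Tb, hb, hTb, hlow⟩ := LG.GapAux.NZ_low
  obtain ⟨C, TC, hC, hTC, hup⟩ := LG.GapAux.NZ_up
  have ha : 0 < a := hc.trans hca
  set θ : ℝ := c / a with hθ
  have hθ0 : 0 < θ := div_pos hc ha
  have hθ1 : θ < 1 := (div_lt_one ha).2 hca
  refine ⟨b / 16, by positivity, fun P ε hε ⟨N0, hN⟩ => ?_⟩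
  have hlim1 : Tendsto (fun T : ℝ => T ^ (1 - θ)) atTop atTop := tendsto_rpow_atTop (by linarith)
  obtain ⟨T1, hT1⟩ := (tendsto_atTop.mp hlim1 (16 * C / (ε * b))).exists_forall_of_atTop
  have hlim2 : Tendsto (fun T : ℝ => T ^ θ) atTop atTop := tendsto_rpow_atTop hθ0
  obtain ⟨T2, hT2⟩ := (tendsto_atTop.mp hlim2 (2 * TC)).exists_forall_of_atTop
  have hlim3 : Tendsto (fun T : ℝ => b / 8 * T) atTop atTop :=
    tendsto_id.const_mul_atTop (by positivity)
  obtain ⟨T3, hT3⟩ := (tendsto_atTop.mp hlim3 (N0 + 1)).exists_forall_of_atTop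
  refine ⟨max (max T1 T2) (max (max T3 (2 * Tb)) 10),
    (le_max_right _ _).trans (le_max_right _ _), fun T hT => ?_⟩
  have g1 : T1 ≤ T := ((le_max_left _ _).trans (le_max_left _ _)).trans hT
  have g2 : T2 ≤ T := ((le_max_right _ _).trans (le_max_left _ _)).trans hT
  have g3 : T3 ≤ T :=
    (((le_max_left _ _).trans (le_max_left _ _)).trans (le_max_right _ _)).trans hT
  have g4 : 2 * Tb ≤ T :=
    (((le_max_right _ _).trans (le_max_left _ _)).trans (le_max_right _ _)).trans hT
  have g5 : 10 ≤ T := ((le_max_right _ _).trans (le_max_right _ _)).trans hT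
  have hTpos : 0 < T := by linarith
  have hL0 : 0 < Real.log T := Real.log_pos (by linarith)
  have hL2 : Real.log 2 < 1 := by have := Real.log_two_lt_d9; linarith
  have hL1 : 2 ≤ Real.log T := by
    rw [Real.le_log_iff_exp_le hTpos]
    have h1 := Real.exp_one_lt_d9
    have h2 : Real.exp 2 = Real.exp 1 * Real.exp 1 := by rw [← Real.exp_add]; norm_num
    rw [h2]
    nlinarith [Real.exp_pos 1]
  -- the number of zeros
  have h1 := hlow (T / 2) (by linarith)
  have e2 : 2 * (T / 2) = T := by ring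
  rw [e2, Real.log_div hTpos.ne' two_ne_zero] at h1
  have h2 : b / 4 * (T * Real.log T) ≤ NZ T := by
    refine le_trans ?_ h1
    have : T / 2 * (Real.log T / 2) ≤ T / 2 * (Real.log T - Real.log 2) := by
      apply mul_le_mul_of_nonneg_left _ (by positivity)
      linarith
    calc b / 4 * (T * Real.log T) = b * (T / 2 * (Real.log T / 2)) := by ring
      _ ≤ _ := mul_le_mul_of_nonneg_left this hb.le
  have h3 := hT3 T g3
  have h4 : b / 8 * T ≤ b / 8 * (T * Real.log T) := by
    apply mul_le_mul_of_nonneg_left _ (by positivity)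
    nlinarith
  have hNZ1 : 1 ≤ NZ T := by
    have : (0 : ℝ) < NZ T := lt_of_lt_of_le (by positivity) h2
    exact_mod_cast this
  set N : ℕ := NZ T - 1 with hNd
  have hNr : (N : ℝ) = NZ T - 1 := by
    rw [hNd, Nat.cast_sub hNZ1, Nat.cast_one]
  have hN1 : b / 8 * (T * Real.log T) ≤ N := by
    rw [hNr]
    have h5 : (0 : ℝ) ≤ N0 := Nat.cast_nonneg _
    linarith
  have hNN0 : N0 ≤ N := by
    have : (N0 : ℝ) ≤ N := by
      rw [hNr]
      linarith
    exact_mod_cast this
  have hcount := hN N hNN0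
  -- the few zeros below `T ^ θ`
  set Y : ℝ := T ^ θ with hY
  have hY0 : 0 < Y := by positivity
  have hY2 : 2 * TC ≤ Y := hT2 T g2
  have hlogY : Real.log Y = θ * Real.log T := by rw [hY, Real.log_rpow hTpos]
  have h5 : (NZ Y : ℝ) ≤ ε * b / 16 * (T * Real.log T) := by
    have h6 := hup (Y / 2) (by linarith)
    have e3 : 2 * (Y / 2) = Y := by ring
    rw [e3] at h6
    have h7 : Real.log (Y / 2) ≤ Real.log T := by
      have : Real.log (Y / 2) ≤ Real.log Y := Real.log_le_log (by positivity) (by linarith)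
      rw [hlogY] at this
      nlinarith
    have h8 : 16 * C / (ε * b) * Y ≤ T := by
      have h9 := hT1 T g1
      have h10 : T ^ (1 - θ) * Y = T := by
        rw [hY, ← Real.rpow_add hTpos]
        have : 1 - θ + θ = 1 := by ring
        rw [this, Real.rpow_one]
      calc 16 * C / (ε * b) * Y ≤ T ^ (1 - θ) * Y := mul_le_mul_of_nonneg_right h9 hY0.le
        _ = T := h10
    have h11 : C * Y ≤ ε * b / 16 * T := by
      have h12 : C * Y = ε * b / 16 * (16 * C / (ε * b) * Y) := by field_simp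
      rw [h12]
      exact mul_le_mul_of_nonneg_left h8 (by positivity)
    calc (NZ Y : ℝ) ≤ C * (Y / 2 * Real.log (Y / 2)) := h6
      _ ≤ C * (Y * Real.log T) := by
          apply mul_le_mul_of_nonneg_left _ hC.le
          rcases le_or_gt 0 (Real.log (Y / 2)) with h | h
          · nlinarith
          · nlinarith
      _ = (C * Y) * Real.log T := by ring
      _ ≤ (ε * b / 16 * T) * Real.log T := mul_le_mul_of_nonneg_right h11 hL0.le
      _ = _ := by ring
  -- splitting
  have hfinA : {n : ℕ | 1 ≤ n ∧ n ≤ N ∧ dlt n ≤ c ∧ P n}.Finite :=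
    (Set.finite_Icc 1 N).subset fun n hn => ⟨hn.1, hn.2.1⟩
  have hfinB : {n : ℕ | 1 ≤ n ∧ ord (n + 1) ≤ T ∧
      ord (n + 1) - ord n ≤ 2 * Real.pi * a / Real.log T ∧ P n}.Finite := by
    refine (Set.finite_Icc 1 (NZ T)).subset fun n hn => ⟨hn.1, ?_⟩
    have := (SG.ord_le_iff (by omega : 1 ≤ n + 1) T).mp hn.2.1
    omega
  have hsub : hfinA.toFinset ⊆ Finset.Icc 1 (NZ Y) ∪ hfinB.toFinset := by
    intro n hn
    rw [Set.Finite.mem_toFinset] at hn
    obtain ⟨a1, a2, a3, a4⟩ := hn
    rw [Finset.mem_union, Finset.mem_Icc, Set.Finite.mem_toFinset]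
    rcases le_or_gt (ord n) Y with h | h
    · exact Or.inl ⟨a1, (SG.ord_le_iff a1 Y).mp h⟩
    · right
      have hp : 0 < ord n := SG.ord_pos a1
      have hm : ord n ≤ ord (n + 1) := SG.ord_mono a1 (by omega)
      have hlo : θ * Real.log T ≤ Real.log (ord n) := by
        rw [← hlogY]
        exact Real.log_le_log hY0 h.le
      have hpos : 0 < θ * Real.log T := by positivity
      have h9 : Real.log (ord n) ≤ Real.log (ord (n + 1)) := Real.log_le_log hp hm
      have h10 : (ord (n + 1) - ord n) * (θ * Real.log T) ≤ 2 * Real.pi * c := by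
        have h12 : (ord (n + 1) - ord n) * Real.log (ord n) ≤ 2 * Real.pi * c := by
          have h13 : dlt n ≤ c := a3
          unfold LG.dlt at h13
          rw [div_le_iff₀ (by positivity)] at h13
          have h14 : ord (n + 1) * Real.log (ord n) ≤ ord (n + 1) * Real.log (ord (n + 1)) :=
            mul_le_mul_of_nonneg_left h9 (SG.ord_pos (by omega)).le
          linarith
        refine le_trans ?_ h12
        exact mul_le_mul_of_nonneg_left hlo (by linarith)
      refine ⟨a1, (SG.ord_le_iff (by omega : 1 ≤ n + 1) T).mpr (by omega), ?_, a4⟩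
      rw [le_div_iff₀ hL0]
      have h15 : 2 * Real.pi * c = θ * (2 * Real.pi * a) := by rw [hθ]; field_simp
      rw [h15] at h10
      have h16 : θ * ((ord (n + 1) - ord n) * Real.log T) ≤ θ * (2 * Real.pi * a) := by
        linarith
      exact le_of_mul_le_mul_left h16 hθ0
  rw [Set.ncard_eq_toFinset_card _ hfinA] at hcount
  rw [Set.ncard_eq_toFinset_card _ hfinB]
  have h17 : (hfinA.toFinset.card : ℝ) ≤ NZ Y + hfinB.toFinset.card := by
    have h18 := (Finset.card_le_card hsub).trans (Finset.card_union_le _ _)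
    rw [Nat.card_Icc, Nat.add_sub_cancel] at h18
    exact_mod_cast h18
  have h19 : ε * (b / 8 * (T * Real.log T)) ≤ ε * N := mul_le_mul_of_nonneg_left hN1 hε.le
  have h20 : b / 16 * ε * (T * Real.log T) = ε * (b / 8 * (T * Real.log T)) -
      ε * b / 16 * (T * Real.log T) := by ring
  linarith

end Pool.Agent.Run7.h195.LB
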