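import Pool.Agent.H629R2.LGGmv

/-! Gaussian mean value of `|E|²` at an arbitrary frequency. -/

open Complex Filter Topology Set MeasureTheory

namespace Pool.Agent.Run7.h195.LB

open SP (wt)

theorem gauss_bd {ι : Type*} (S : Finset ι) (e l : ι → ℝ) (D t0 lg : ℝ) (hD : 0 < D) :
    ‖∫ t : ℝ, (wt t0 D t : ℂ) * ((‖∑ i ∈ S, (e i : ℂ) *
        cexp (I * ((t * l i : ℝ) : ℂ))‖ ^ 2 : ℝ) : ℂ) * cexp (-(I * ((t * lg : ℝ) : ℂ)))‖ ≤
      Real.sqrt (2 * Real.pi) * D * ∑ i ∈ S, ∑ j ∈ S, |e i| * |e j| *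
        Real.exp (-(D ^ 2 * (l i - l j - lg) ^ 2 / 2)) := by
  have h0 : ∀ t : ℝ, (wt t0 D t : ℂ) * ((‖∑ i ∈ S, (e i : ℂ) *
        cexp (I * ((t * l i : ℝ) : ℂ))‖ ^ 2 : ℝ) : ℂ) * cexp (-(I * ((t * lg : ℝ) : ℂ))) =
      ∑ i ∈ S, ∑ j ∈ S, ((e i * e j : ℝ) : ℂ) *
        ((Real.exp (-(t - t0) ^ 2 / (2 * D ^ 2)) : ℂ) *
          cexp (I * ((l i - l j - lg : ℝ) : ℂ) * t)) := by
    intro t
    have h := LG.GMVaux.expand S e l lg t
    rw [mul_assoc, h, Finset.mul_sum]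
    refine Finset.sum_congr rfl fun i _ => ?_
    rw [Finset.mul_sum]
    refine Finset.sum_congr rfl fun j _ => ?_
    rw [wt]
    ring
  simp_rw [h0]
  rw [integral_finsetSum _ fun i _ => integrable_finsetSum _ fun j _ =>
    (SG.MVaux.ek_int D t0 _ hD).const_mul _]
  have hDs : 0 ≤ D * Real.sqrt (2 * Real.pi) := by positivity
  refine (norm_sum_le _ _).trans ?_
  rw [Finset.mul_sum]
  refine Finset.sum_le_sum fun i _ => ?_
  rw [integral_finsetSum _ fun j _ => (SG.MVaux.ek_int D t0 _ hD).const_mul _]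
  refine (norm_sum_le _ _).trans ?_
  rw [Finset.mul_sum]
  refine Finset.sum_le_sum fun j _ => ?_
  rw [integral_const_mul, SG.MVaux.ek_val D t0 _ hD]
  have e1 : ‖cexp (I * ((l i - l j - lg : ℝ) : ℂ) * t0)‖ = 1 := by
    rw [Complex.norm_exp]
    have : (I * ((l i - l j - lg : ℝ) : ℂ) * t0).re = 0 := by
      rw [mul_assoc, ← Complex.ofReal_mul, Complex.I_mul_re, Complex.ofReal_im, neg_zero]
    rw [this, Real.exp_zero]
  rw [norm_mul, norm_mul, norm_mul, Complex.norm_real, Complex.norm_real,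
        Complex.norm_real, e1, one_mul,
        Real.norm_of_nonneg hDs, Real.norm_of_nonneg (Real.exp_pos _).le, Real.norm_eq_abs, abs_mul]
  apply le_of_eq
  ring

end Pool.Agent.Run7.h195.LB
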