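import Pool.Agent.Run7.h195.LB.Local

/-! Large gaps with an almost periodic weight: from windows to all indices. -/

open Complex Filter Topology Set MeasureTheory

namespace Pool.Agent.Run7.h195.LB

open SG (hh nn dd dl ord NZ)
open SP (RHs ZZ mu wt Mk Par Eb PS chi qq tt)
open LG TH803TW

lemma GS_fin (c' T : ℝ) : {n : ℕ | 1 ≤ n ∧ T ≤ ord n ∧ ord n ≤ 2 * T ∧
    2 * Real.pi * c' / Real.log T < ord (n + 1) - ord n}.Finite :=
  PosA.fin_ord (2 * T) _ fun _ hn => ⟨hn.1, hn.2.2.1⟩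

/-- indices of the large gaps in `[T, 2T]` -/
noncomputable def GS (c' T : ℝ) : Finset ℕ := (GS_fin c' T).toFinset

lemma mem_GS {c' T : ℝ} {n : ℕ} : n ∈ GS c' T ↔ 1 ≤ n ∧ T ≤ ord n ∧ ord n ≤ 2 * T ∧
    2 * Real.pi * c' / Real.log T < ord (n + 1) - ord n := by
  unfold GS
  rw [Set.Finite.mem_toFinset]
  rfl

theorem dyadic_of_local {κ c' ε K : ℝ} (hκ : 0 < κ) (hε : 0 < ε) (hK : 1 ≤ K) {φ : ℝ → ℝ}
    (hφ0 : ∀ t, 0 ≤ φ t) {T0 : ℝ} (hT0 : 10 ≤ T0)
    (hloc : ∀ T : ℝ, T0 ≤ T → ∀ t0 : ℝ, 11 / 10 * T ≤ t0 → t0 ≤ 19 / 10 * T →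
      ε * dd κ T * Real.log T ≤ ∑ n ∈ LS κ c' K T t0, φ (ord n)) :
    ∃ T1 : ℝ, 10 ≤ T1 ∧ ∀ T : ℝ, T1 ≤ T →
      ε / (10 * K) * (T * Real.log T) ≤ ∑ n ∈ GS c' T, φ (ord n) := by
  classical
  have hlim : Tendsto (fun T : ℝ => T ^ (κ / 2)) atTop atTop := tendsto_rpow_atTop (by linarith)
  obtain ⟨T1, hT1⟩ := (tendsto_atTop.mp hlim (100 * K)).exists_forall_of_atTop
  refine ⟨max (max T0 T1) 1000, le_trans (by norm_num) (le_max_right _ _), fun T hT => ?_⟩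
  have hTT0 : T0 ≤ T := ((le_max_left _ _).trans (le_max_left _ _)).trans hT
  have hTT1 : T1 ≤ T := ((le_max_right _ _).trans (le_max_left _ _)).trans hT
  have hT1000 : 1000 ≤ T := (le_max_right _ _).trans hT
  have hTpos : 0 < T := by linarith
  have hlog0 : 0 < Real.log T := Real.log_pos (by linarith)
  set Δ : ℝ := dd κ T with hΔ
  have hΔ0 : 0 < Δ := by
    rw [hΔ]
    unfold dd
    positivity
  have hKΔ : 100 * (K * Δ) ≤ T := by
    have h1 := hT1 T hTT1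
    have h2 : T ^ (κ / 2) * Δ = T := by
      rw [hΔ]
      unfold dd
      rw [← Real.rpow_add hTpos]
      have : κ / 2 + (1 - κ / 2) = 1 := by ring
      rw [this, Real.rpow_one]
    calc 100 * (K * Δ) = (100 * K) * Δ := by ring
      _ ≤ T ^ (κ / 2) * Δ := mul_le_mul_of_nonneg_right h1 hΔ0.le
      _ = T := h2
  have hKΔ0 : 0 < K * Δ := by positivity
  set M : ℕ := ⌊(8 / 10 * T) / (3 * (K * Δ))⌋₊ with hM
  have hM1 : (M : ℝ) ≤ (8 / 10 * T) / (3 * (K * Δ)) := Nat.floor_le (by positivity)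
  have hM2 : (8 / 10 * T) / (3 * (K * Δ)) < M + 1 := Nat.lt_floor_add_one _
  have hM3 : T / (10 * (K * Δ)) ≤ M := by
    have h1 : (8 / 10 * T) / (3 * (K * Δ)) = 8 / 30 * (T / (K * Δ)) := by field_simp; norm_num
    have h2 : T / (10 * (K * Δ)) = 1 / 10 * (T / (K * Δ)) := by field_simp
    have h3 : 100 ≤ T / (K * Δ) := by
      rw [le_div_iff₀ hKΔ0]
      exact hKΔ
    rw [h1] at hM2
    rw [h2]
    linarith
  set t : ℕ → ℝ := fun i => 11 / 10 * T + 3 * (K * Δ) * i with ht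
  have hti : ∀ i < M, 11 / 10 * T ≤ t i ∧ t i ≤ 19 / 10 * T := by
    intro i hi
    have hiM : (i : ℝ) ≤ M := by exact_mod_cast hi.le
    have h1 : 3 * (K * Δ) * i ≤ 8 / 10 * T := by
      have h2 : (i : ℝ) ≤ (8 / 10 * T) / (3 * (K * Δ)) := hiM.trans hM1
      rw [le_div_iff₀ (by positivity)] at h2
      linarith
    have h3 : 0 ≤ 3 * (K * Δ) * (i : ℝ) := by positivity
    constructor
    · simp only [ht]; linarith
    · simp only [ht]; linarith
  have hdisj : (↑(Finset.range M) : Set ℕ).PairwiseDisjoint (fun i => LS κ c' K T (t i)) := by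
    intro i _ j _ hij
    show Disjoint (LS κ c' K T (t i)) (LS κ c' K T (t j))
    rw [Finset.disjoint_left]
    intro n hn hn'
    have h1 := abs_le.mp (mem_LS.1 hn).2.1
    have h2 := abs_le.mp (mem_LS.1 hn').2.1
    rw [← hΔ] at h1 h2
    simp only [ht] at h1 h2
    rcases Nat.lt_or_gt_of_ne hij with h | h
    · have h3 : (i : ℝ) + 1 ≤ j := by exact_mod_cast h
      have h4 : 3 * (K * Δ) * ((i : ℝ) + 1) ≤ 3 * (K * Δ) * j :=
        mul_le_mul_of_nonneg_left h3 (by positivity)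
      nlinarith
    · have h3 : (j : ℝ) + 1 ≤ i := by exact_mod_cast h
      have h4 : 3 * (K * Δ) * ((j : ℝ) + 1) ≤ 3 * (K * Δ) * i :=
        mul_le_mul_of_nonneg_left h3 (by positivity)
      nlinarith
  have hsub : (Finset.range M).biUnion (fun i => LS κ c' K T (t i)) ⊆ GS c' T := by
    intro n hn
    obtain ⟨i, hi, hn⟩ := Finset.mem_biUnion.1 hn
    rw [Finset.mem_range] at hi
    obtain ⟨h1, h2, h3⟩ := mem_LS.1 hn
    obtain ⟨h4, h5⟩ := hti i hi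
    rw [abs_le] at h2
    rw [← hΔ] at h2
    exact mem_GS.2 ⟨h1, by linarith, by linarith, h3⟩
  have h5 : 0 ≤ ε * Δ * Real.log T := by positivity
  calc ε / (10 * K) * (T * Real.log T) = T / (10 * (K * Δ)) * (ε * Δ * Real.log T) := by
        field_simp
    _ ≤ M * (ε * Δ * Real.log T) := mul_le_mul_of_nonneg_right hM3 h5
    _ = ∑ i ∈ Finset.range M, ε * Δ * Real.log T := by
        rw [Finset.sum_const, Finset.card_range, nsmul_eq_mul]
    _ ≤ ∑ i ∈ Finset.range M, ∑ n ∈ LS κ c' K T (t i), φ (ord n) := by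
        refine Finset.sum_le_sum fun i hi => ?_
        rw [Finset.mem_range] at hi
        exact hloc T hTT0 (t i) (hti i hi).1 (hti i hi).2
    _ = ∑ n ∈ (Finset.range M).biUnion (fun i => LS κ c' K T (t i)), φ (ord n) := by
        rw [Finset.sum_biUnion hdisj]
    _ ≤ _ := Finset.sum_le_sum_of_subset_of_nonneg hsub fun n _ _ => hφ0 _

lemma dlt_gt {T c c' : ℝ} (hT : 10 ≤ T) (hc : 0 < c) (hcc : c < c') {n : ℕ} (hn : n ∈ GS c' T) :
    c < dlt n := by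
  obtain ⟨h1, h2, h3, h4⟩ := mem_GS.1 hn
  have hpi := Real.pi_pos
  have hL : 0 < Real.log T := Real.log_pos (by linarith)
  have hp : 0 < ord n := SG.ord_pos h1
  have h7 : ord n ≤ ord (n + 1) := SG.ord_mono h1 (by omega)
  have h8 : Real.log T ≤ Real.log (ord n) := Real.log_le_log (by linarith) h2
  have h9 : Real.log (ord n) ≤ Real.log (ord (n + 1)) := Real.log_le_log hp h7
  unfold dlt
  rw [lt_div_iff₀ (by positivity)]
  have h10 : 2 * Real.pi * c' < (ord (n + 1) - ord n) * Real.log T := by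
    rw [div_lt_iff₀ hL] at h4
    exact h4
  have h11 : (ord (n + 1) - ord n) * Real.log T ≤ (ord (n + 1) - ord n) * Real.log (ord n) :=
    mul_le_mul_of_nonneg_left h8 (by linarith)
  have h12 : ord (n + 1) * Real.log (ord n) ≤ ord (n + 1) * Real.log (ord (n + 1)) :=
    mul_le_mul_of_nonneg_left h9 (SG.ord_pos (by omega)).le
  have h13 : 2 * Real.pi * c < 2 * Real.pi * c' := mul_lt_mul_of_pos_left hcc (by positivity)
  linarith

/-- from dyadic blocks to all indices -/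
theorem idx_of_dyadic : ∃ C : ℝ, 0 < C ∧ ∀ {c c' e : ℝ}, 0 < c → c < c' → 0 < e →
    ∀ {φ : ℝ → ℝ}, (∀ t, 0 ≤ φ t) → ∀ {T1 : ℝ}, 10 ≤ T1 →
    (∀ T : ℝ, T1 ≤ T → e * (T * Real.log T) ≤ ∑ n ∈ GS c' T, φ (ord n)) →
    ∃ N0 : ℕ, ∀ N : ℕ, N0 ≤ N →
      e / C * N ≤ ∑ n ∈ (Finset.Icc 1 N).filter (fun n => c < dlt n), φ (ord n) := by
  classical
  obtain ⟨C, T2, hC, hT2, hup⟩ := PosA.NZ_up
  refine ⟨C, hC, fun {c c' e} hc hcc he {φ} hφ0 {T1} hT1 hb => ?_⟩
  set X0 : ℝ := max T1 T2 with hX0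
  have hX03 : 10 ≤ X0 := hT1.trans (le_max_left _ _)
  have hlim : Tendsto (fun N : ℕ => (N : ℝ) / C) atTop atTop :=
    tendsto_natCast_atTop_atTop.atTop_div_const hC
  obtain ⟨N0, hN0⟩ := (hlim.eventually_gt_atTop (X0 * Real.log X0)).exists_forall_of_atTop
  refine ⟨N0, fun N hNN => ?_⟩
  have hN := hN0 N hNN
  have hX0l : 1 ≤ Real.log X0 := by
    rw [Real.le_log_iff_exp_le (by linarith)]
    have := Real.exp_one_lt_d9
    linarith
  set y : ℝ := (N : ℝ) / C with hy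
  have hyX : X0 ≤ y := by nlinarith
  have hlogy : 1 ≤ Real.log y := hX0l.trans (Real.log_le_log (by linarith) hyX)
  have hcont : ContinuousOn (fun T : ℝ => T * Real.log T) (Set.Icc X0 y) := by
    apply ContinuousOn.mul continuousOn_id
    apply Real.continuousOn_log.mono
    intro x hx
    simp only [Set.mem_compl_iff, Set.mem_singleton_iff]
    have := hx.1
    linarith
  have hiv := intermediate_value_Icc hyX hcont
  have hmem : y ∈ Set.Icc (X0 * Real.log X0) (y * Real.log y) := ⟨hN.le, by nlinarith⟩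
  obtain ⟨T, hTm, hTe⟩ := hiv hmem
  simp only at hTe
  have hXT : X0 ≤ T := hTm.1
  have hTT1 : T1 ≤ T := (le_max_left _ _).trans hXT
  have hTT2 : T2 ≤ T := (le_max_right _ _).trans hXT
  have hT10 : 10 ≤ T := hT1.trans hTT1
  have h1 := hb T hTT1
  have h2 := hup T hTT2
  rw [hTe] at h1 h2
  have h3 : C * y = N := by rw [hy]; field_simp
  rw [h3] at h2
  have h2' : NZ (2 * T) ≤ N := by exact_mod_cast h2
  have h4 : e / C * N = e * y := by rw [hy]; field_simp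
  rw [h4]
  refine h1.trans ?_
  apply Finset.sum_le_sum_of_subset_of_nonneg
  · intro n hn
    have hn' := mem_GS.1 hn
    rw [Finset.mem_filter, Finset.mem_Icc]
    exact ⟨⟨hn'.1, ((SG.ord_le_iff hn'.1 (2 * T)).mp hn'.2.2.1).trans h2'⟩,
      dlt_gt hT10 hc hcc hn⟩
  · intro n _ _
    exact hφ0 _

/-- **large gaps with an almost periodic weight** -/
theorem large_idx (hRH : RiemannHypothesis) (M0 : ℝ) (hM0 : 0 < M0) : ∃ ε : ℝ, 0 < ε ∧
    ∀ (φ : ℝ → ℝ) (Mφ : ℝ), APm φ Mφ → (∀ t, 0 ≤ φ t) → (∀ t, φ t ≤ 1) → M0 ≤ Mφ →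
    ∃ N0 : ℕ, ∀ N : ℕ, N0 ≤ N →
      ε * N ≤ ∑ n ∈ (Finset.Icc 1 N).filter (fun n => 357 / 100 < dlt n), φ (ord n) := by
  obtain ⟨P, B0, r, F, q, h1, h2, h3, h4, h5⟩ := PAR
  obtain ⟨η, ε, K, hη, hε, hK, hloc⟩ := LOCALphi (Pool.Agent.R482.GB.RHs_of hRH) P B0 h1 r h2 F q
    h3 (357 / 100) (by norm_num) h4 h5 M0 hM0
  obtain ⟨C, hC, hidx⟩ := idx_of_dyadic
  refine ⟨ε / (10 * K) / C, by positivity, fun φ Mφ hφ hφ0 hφ1 hM => ?_⟩
  obtain ⟨T0, hT0, hl⟩ := hloc φ Mφ hφ hφ0 hφ1 hM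
  obtain ⟨T1, hT1, hd⟩ := dyadic_of_local P.hκ hε hK hφ0 hT0 hl
  exact hidx (by norm_num) (by linarith) (by positivity) hφ0 hT1 hd

end Pool.Agent.Run7.h195.LB
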