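import Pool.Agent.Run7.h195.LB.Near
import Pool.Agent.H851R2.LG.Sets
import Pool.Agent.H619R2.LG.Cls

/-! The family of the pairs of disjoint sets of primes. -/

open Complex Filter Topology Set MeasureTheory

namespace Pool.Agent.Run7.h195.LB

open SG (hh nn dd dl ord NZ)
open SP (RHs ZZ mu wt Mk Par Eb PS chi qq tt)
open LG LG.Cls

abbrev Quad := (Finset ℕ × Finset ℕ) × (Finset ℕ × Finset ℕ)

def M1 (z : Quad) : ℕ := nA z.1.2 * nA z.2.1
def M2 (z : Quad) : ℕ := nA z.1.1 * nA z.2.2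

noncomputable def gz (P : Par) (r : ℝ) (F : ℕ → ℝ) (T : ℝ) (z : Quad) : ℝ :=
  |ae P r F T z.1.1 * ae P r F T z.1.2| * |ae P r F T z.2.1 * ae P r F T z.2.2|

noncomputable def QQd (P : Par) (B0 : ℕ) (T : ℝ) : Finset Quad := prs P B0 T ×ˢ prs P B0 T

lemma mem_QQd {P : Par} {B0 : ℕ} {T : ℝ} {z : Quad} : z ∈ QQd P B0 T ↔
    (z.1.1 ∈ fam P B0 T ∧ z.1.2 ∈ fam P B0 T ∧ Disjoint z.1.1 z.1.2) ∧
    (z.2.1 ∈ fam P B0 T ∧ z.2.2 ∈ fam P B0 T ∧ Disjoint z.2.1 z.2.2) := by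
  unfold QQd
  rw [Finset.mem_product, mem_prs, mem_prs]
  tauto

/-- size of a coefficient -/
lemma ae_size {P : Par} {B0 : ℕ} {r : ℝ} {F : ℕ → ℝ} {T C CF : ℝ} (hC : 1 ≤ C) (hCF : 0 ≤ CF)
    (hF : ∀ n ≤ B0, |F n| ≤ CF)
    (hy : ∀ p ∈ PS P T, yp P r T p ^ 2 ≤ C / p) {A : Finset ℕ} (hA : A ∈ fam P B0 T)
    (hcard : A.card ≤ B0) :
    |ae P r F T A| ≤ CF * Real.sqrt (C ^ B0) / Real.sqrt (nA A) := by
  have hA' := mem_fam.1 hA
  have h0 : (0 : ℝ) < nA A := by exact_mod_cast nA_pos P B0 T A hA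
  unfold LG.ae
  rw [abs_mul]
  have h1 : |∏ p ∈ A, yp P r T p| ≤ Real.sqrt (C ^ B0) / Real.sqrt (nA A) := by
    rw [← Real.sqrt_div (by positivity)]
    apply Real.abs_le_sqrt
    rw [← Finset.prod_pow]
    calc ∏ p ∈ A, yp P r T p ^ 2 ≤ ∏ p ∈ A, (C / (p : ℝ)) :=
          Finset.prod_le_prod (fun _ _ => sq_nonneg _) fun p hp => hy p (hA'.1 hp)
      _ = C ^ A.card / (nA A : ℝ) := by
          rw [Finset.prod_div_distrib, Finset.prod_const]
          unfold nA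
          push_cast
          rfl
      _ ≤ C ^ B0 / (nA A : ℝ) := by
          apply div_le_div_of_nonneg_right _ h0.le
          exact pow_le_pow_right₀ hC hcard
  rw [mul_div_assoc]
  exact mul_le_mul (hF _ hA'.2) h1 (abs_nonneg _) hCF

lemma nA_inj' {P : Par} {B0 : ℕ} {T : ℝ} {A A' : Finset ℕ} (hA : A ∈ fam P B0 T)
    (hA' : A' ∈ fam P B0 T) (h : nA A = nA A') : A = A' :=
  nA_inj P B0 T hA hA' h

lemma pf_nA {P : Par} {B0 : ℕ} {T : ℝ} {A B : Finset ℕ} (hA : A ∈ fam P B0 T)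
    (hB : B ∈ fam P B0 T) : (nA A * nA B).primeFactors = A ∪ B := by
  have h1 := nA_pos P B0 T A hA
  have h2 := nA_pos P B0 T B hB
  ext p
  rw [Nat.mem_primeFactors, Finset.mem_union]
  constructor
  · rintro ⟨hp, hd, -⟩
    rcases (Nat.Prime.dvd_mul hp).1 hd with h | h
    · exact Or.inl ((mem_iff_dvd_nA A (fam_prime hA) p hp).1 h)
    · exact Or.inr ((mem_iff_dvd_nA B (fam_prime hB) p hp).1 h)
  · rintro (h | h)
    · have hp := fam_prime hA p h
      exact ⟨hp, ((mem_iff_dvd_nA A (fam_prime hA) p hp).2 h).mul_right _,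
        Nat.mul_ne_zero (by omega) (by omega)⟩
    · have hp := fam_prime hB p h
      exact ⟨hp, ((mem_iff_dvd_nA B (fam_prime hB) p hp).2 h).mul_left _,
        Nat.mul_ne_zero (by omega) (by omega)⟩

lemma fib_card {P : Par} {B0 : ℕ} {T : ℝ} (hcard : ∀ A ∈ fam P B0 T, A.card ≤ B0) (u v : ℕ) :
    (((QQd P B0 T).filter (fun z => M1 z = u ∧ M2 z = v)).card : ℝ) ≤ 16 ^ B0 := by
  classical
  set S := (QQd P B0 T).filter (fun z => M1 z = u ∧ M2 z = v) with hS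
  rcases S.eq_empty_or_nonempty with he | ⟨z0, hz0⟩
  · rw [he]; simp
  have hmem : ∀ z ∈ S, z.1.1 ∈ fam P B0 T ∧ z.1.2 ∈ fam P B0 T ∧ z.2.1 ∈ fam P B0 T ∧
      z.2.2 ∈ fam P B0 T ∧ nA z.1.2 * nA z.2.1 = u ∧ nA z.1.1 * nA z.2.2 = v := by
    intro z hz
    rw [hS, Finset.mem_filter, mem_QQd] at hz
    exact ⟨hz.1.1.1, hz.1.1.2.1, hz.1.2.1, hz.1.2.2.1, hz.2.1, hz.2.2⟩
  obtain ⟨a1, a2, a3, a4, a5, a6⟩ := hmem z0 hz0
  have hu : u.primeFactors.card ≤ 2 * B0 := by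
    rw [← a5, pf_nA a2 a3]
    have h1 := hcard _ a2
    have h2 := hcard _ a3
    have h3 := Finset.card_union_le z0.1.2 z0.2.1
    omega
  have hv : v.primeFactors.card ≤ 2 * B0 := by
    rw [← a6, pf_nA a1 a4]
    have h1 := hcard _ a1
    have h2 := hcard _ a4
    have h3 := Finset.card_union_le z0.1.1 z0.2.2
    omega
  have hle : S.card ≤ (u.primeFactors.powerset ×ˢ v.primeFactors.powerset).card := by
    apply Finset.card_le_card_of_injOn (fun z => (z.1.2, z.1.1))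
    · intro z hz
      obtain ⟨b1, b2, b3, b4, b5, b6⟩ := hmem z hz
      simp only [Finset.coe_product, Set.mem_prod, Finset.mem_coe, Finset.mem_powerset]
      constructor
      · rw [← b5, pf_nA b2 b3]; exact Finset.subset_union_left
      · rw [← b6, pf_nA b1 b4]; exact Finset.subset_union_left
    · intro z hz z' hz' h
      obtain ⟨b1, b2, b3, b4, b5, b6⟩ := hmem z hz
      obtain ⟨c1, c2, c3, c4, c5, c6⟩ := hmem z' hz'
      have e1 : z.1.2 = z'.1.2 := congrArg Prod.fst h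
      have e2 : z.1.1 = z'.1.1 := congrArg Prod.snd h
      have p1 := nA_pos P B0 T _ b2
      have p2 := nA_pos P B0 T _ b1
      have e3 : z.2.1 = z'.2.1 := by
        apply nA_inj' b3 c3
        rw [← e1, ← b5] at c5
        exact (Nat.eq_of_mul_eq_mul_left (by omega) c5).symm
      have e4 : z.2.2 = z'.2.2 := by
        apply nA_inj' b4 c4
        rw [← e2, ← b6] at c6
        exact (Nat.eq_of_mul_eq_mul_left (by omega) c6).symm
      exact Prod.ext (Prod.ext e2 e1) (Prod.ext e3 e4)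
  rw [Finset.card_product, Finset.card_powerset, Finset.card_powerset] at hle
  have h16 : 2 ^ u.primeFactors.card * 2 ^ v.primeFactors.card ≤ 16 ^ B0 := by
    calc 2 ^ u.primeFactors.card * 2 ^ v.primeFactors.card ≤ 2 ^ (2 * B0) * 2 ^ (2 * B0) :=
          Nat.mul_le_mul (Nat.pow_le_pow_right (by norm_num) hu)
            (Nat.pow_le_pow_right (by norm_num) hv)
      _ = 16 ^ B0 := by
          rw [← pow_add, show 2 * B0 + 2 * B0 = 4 * B0 by ring, pow_mul]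
          norm_num
  exact_mod_cast hle.trans h16

/-- the diagonal consists of the pairs of equal elements -/
lemma diag_eq {P : Par} {B0 : ℕ} {T : ℝ} {z : Quad} (hz : z ∈ QQd P B0 T) (h : M1 z = M2 z) :
    z.2 = z.1 := by
  rw [mem_QQd] at hz
  obtain ⟨⟨a1, a2, a3⟩, b1, b2, b3⟩ := hz
  have h' : nA z.1.2 * nA z.2.1 = 2 ^ 0 * (nA z.1.1 * nA z.2.2) := by
    rw [pow_zero, one_mul]; exact h
  have h3 := (eq_iff z.1.1 z.1.2 z.2.1 z.2.2 (fam_prime a1) (fam_prime a2) (fam_prime b1)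
    (fam_prime b2) 2 0 Nat.prime_two).1 h'
  have e1 : ∀ x, ic z.2.1 x = ic z.1.1 x ∧ ic z.2.2 x = ic z.1.2 x := by
    intro x
    have c1 := disj_ic a3 x
    have c2 := disj_ic b3 x
    have c3 := h3 x
    have : (if x = 2 then 0 else 0) = 0 := by split_ifs <;> rfl
    rw [this] at c3
    omega
  exact Prod.ext (ext_ic fun x => (e1 x).1) (ext_ic fun x => (e1 x).2)

theorem fam_inst (P : Par) (B0 : ℕ) (hB : P.B = 2 * B0) (r : ℝ) (F : ℕ → ℝ) :
    ∃ K T0 : ℝ, 0 < K ∧ 10 ≤ T0 ∧ ∀ T : ℝ, T0 ≤ T →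
      Fam (QQd P B0 T) M1 M2 (gz P r F T) K (16 ^ B0) (T ^ (1 / (4 * (B0 : ℝ)))) ∧
      (∀ z ∈ QQd P B0 T, (M1 z : ℝ) ≤ T ^ (1 - P.κ) ∧ (M2 z : ℝ) ≤ T ^ (1 - P.κ)) ∧
      ∑ z ∈ (QQd P B0 T).filter (fun z => M1 z = M2 z), gz P r F T z ≤ K := by
  classical
  obtain ⟨C0, T0, hC0, hT0, hfam⟩ := fam_facts P B0 hB r F
  have hκ := P.hκ
  have hκ1 := P.hκ1
  have hB2 := P.hB
  have hB0 : 0 < B0 := by omega
  have hB0' : (0 : ℝ) < B0 := by exact_mod_cast hB0
  obtain ⟨CF, hCF, hF⟩ : ∃ CF : ℝ, 0 < CF ∧ ∀ n ≤ B0, |F n| ≤ CF := by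
    refine ⟨1 + ∑ n ∈ Finset.range (B0 + 1), |F n|, by positivity, fun n hn => ?_⟩
    have := Finset.single_le_sum (f := fun n => |F n|) (fun i _ => abs_nonneg _)
      (Finset.mem_range.mpr (Nat.lt_succ_of_le hn))
    linarith
  set C : ℝ := max C0 1 with hC
  have hC1 : 1 ≤ C := le_max_right _ _
  set k0 : ℝ := CF * Real.sqrt (C ^ B0) with hk0
  have hk00 : 0 ≤ k0 := by positivity
  refine ⟨k0 ^ 4 + (CF ^ 2 * C0) ^ 2, T0, by positivity, hT0, fun T hT => ?_⟩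
  have hT10 : 10 ≤ T := hT0.trans hT
  have hTp : 0 < T := by linarith
  obtain ⟨f1, f2, f3, f4⟩ := hfam T hT
  have hcard : ∀ A ∈ fam P B0 T, A.card ≤ B0 := fun A hA => (f1 A hA).2.2.2
  have hsz : ∀ A ∈ fam P B0 T, |ae P r F T A| ≤ k0 / Real.sqrt (nA A) := fun A hA =>
    ae_size hC1 hCF.le hF (fun p hp => ((f2 p hp).2.1).trans (by
      gcongr
      exact le_max_left _ _)) hA (hcard A hA)
  refine ⟨⟨?_, ?_, ?_, ?_, ?_, ?_⟩, ?_, ?_⟩
  · intro z _
    unfold gz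
    positivity
  · intro z hz
    rw [mem_QQd] at hz
    obtain ⟨⟨a1, a2, a3⟩, b1, b2, b3⟩ := hz
    have n1 : (0 : ℝ) < nA z.1.1 := by exact_mod_cast nA_pos P B0 T _ a1
    have n2 : (0 : ℝ) < nA z.1.2 := by exact_mod_cast nA_pos P B0 T _ a2
    have n3 : (0 : ℝ) < nA z.2.1 := by exact_mod_cast nA_pos P B0 T _ b1
    have n4 : (0 : ℝ) < nA z.2.2 := by exact_mod_cast nA_pos P B0 T _ b2
    have s1 := hsz _ a1
    have s2 := hsz _ a2
    have s3 := hsz _ b1
    have s4 := hsz _ b2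
    unfold gz
    rw [abs_mul, abs_mul]
    calc |ae P r F T z.1.1| * |ae P r F T z.1.2| * (|ae P r F T z.2.1| * |ae P r F T z.2.2|) ≤
        k0 / Real.sqrt (nA z.1.1) * (k0 / Real.sqrt (nA z.1.2)) *
          (k0 / Real.sqrt (nA z.2.1) * (k0 / Real.sqrt (nA z.2.2))) := by gcongr
      _ = k0 ^ 4 / Real.sqrt (M1 z * M2 z) := by
          unfold M1 M2
          push_cast
          rw [Real.sqrt_mul (by positivity), Real.sqrt_mul n2.le, Real.sqrt_mul n1.le]
          have q1 := Real.sqrt_pos.2 n1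
          have q2 := Real.sqrt_pos.2 n2
          have q3 := Real.sqrt_pos.2 n3
          have q4 := Real.sqrt_pos.2 n4
          field_simp
      _ ≤ _ := by
          apply div_le_div_of_nonneg_right _ (Real.sqrt_nonneg _)
          have : 0 ≤ (CF ^ 2 * C0) ^ 2 := by positivity
          linarith
  · intro z hz
    rw [mem_QQd] at hz
    exact Nat.mul_pos (nA_pos P B0 T _ hz.1.2.1) (nA_pos P B0 T _ hz.2.1)
  · intro z hz
    rw [mem_QQd] at hz
    exact Nat.mul_pos (nA_pos P B0 T _ hz.1.1) (nA_pos P B0 T _ hz.2.2.1)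
  · exact fib_card hcard
  · intro z hz p hp hd
    rw [mem_QQd] at hz
    obtain ⟨⟨a1, a2, a3⟩, b1, b2, b3⟩ := hz
    have hpP : p ∈ PS P T := by
      rcases hd with hd | hd
      · rcases (Nat.Prime.dvd_mul hp).1 hd with h | h
        · exact (mem_fam.1 a2).1 ((mem_iff_dvd_nA _ (fam_prime a2) p hp).1 h)
        · exact (mem_fam.1 b1).1 ((mem_iff_dvd_nA _ (fam_prime b1) p hp).1 h)
      · rcases (Nat.Prime.dvd_mul hp).1 hd with h | h
        · exact (mem_fam.1 a1).1 ((mem_iff_dvd_nA _ (fam_prime a1) p hp).1 h)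
        · exact (mem_fam.1 b2).1 ((mem_iff_dvd_nA _ (fam_prime b2) p hp).1 h)
    refine le_trans ?_ (SP.TTAux.lower P T hT10 p hpP)
    apply Real.rpow_le_rpow_of_exponent_le (by linarith)
    rw [hB]
    push_cast
    rw [div_le_div_iff₀ (by positivity) (by positivity)]
    nlinarith
  · intro z hz
    rw [mem_QQd] at hz
    obtain ⟨⟨a1, a2, a3⟩, b1, b2, b3⟩ := hz
    have e : T ^ (1 - P.κ) = T ^ ((1 - P.κ) / 2) * T ^ ((1 - P.κ) / 2) := by
      rw [← Real.rpow_add hTp]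
      congr 1
      ring
    rw [e]
    unfold M1 M2
    push_cast
    constructor
    · have h1 := (f1 _ a2).2.1
      have h2 := (f1 _ b1).2.1
      gcongr
    · have h1 := (f1 _ a1).2.1
      have h2 := (f1 _ b2).2.1
      gcongr
  · have haesq : ∀ A ∈ fam P B0 T, ae P r F T A ^ 2 ≤ CF ^ 2 * ∏ p ∈ A, yp P r T p ^ 2 := by
      intro A hA
      unfold LG.ae
      rw [mul_pow, ← Finset.prod_pow]
      apply mul_le_mul_of_nonneg_right _ (Finset.prod_nonneg fun _ _ => sq_nonneg _)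
      rw [← sq_abs]
      exact pow_le_pow_left₀ (abs_nonneg _) (hF _ (mem_fam.1 hA).2) 2
    have hsumae : ∑ A ∈ fam P B0 T, ae P r F T A ^ 2 ≤ CF ^ 2 * C0 := by
      calc ∑ A ∈ fam P B0 T, ae P r F T A ^ 2 ≤
          ∑ A ∈ fam P B0 T, CF ^ 2 * ∏ p ∈ A, yp P r T p ^ 2 := Finset.sum_le_sum haesq
        _ = CF ^ 2 * ∑ A ∈ fam P B0 T, ∏ p ∈ A, yp P r T p ^ 2 := by rw [Finset.mul_sum]
        _ ≤ _ := by gcongr
    have h0 : 0 ≤ ∑ A ∈ fam P B0 T, ae P r F T A ^ 2 := Finset.sum_nonneg fun _ _ => sq_nonneg _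
    calc ∑ z ∈ (QQd P B0 T).filter (fun z => M1 z = M2 z), gz P r F T z ≤
        ∑ z ∈ (fam P B0 T ×ˢ fam P B0 T).image (fun q => (q, q)), gz P r F T z := by
          apply Finset.sum_le_sum_of_subset_of_nonneg
          · intro z hz
            rw [Finset.mem_filter] at hz
            have h1 := diag_eq hz.1 hz.2
            have h2 := mem_QQd.1 hz.1
            rw [Finset.mem_image]
            refine ⟨z.1, ?_, Prod.ext rfl h1.symm⟩
            rw [Finset.mem_product]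
            exact ⟨h2.1.1, h2.1.2.1⟩
          · intro z _ _
            unfold gz
            positivity
      _ = ∑ q ∈ fam P B0 T ×ˢ fam P B0 T, (ae P r F T q.1) ^ 2 * (ae P r F T q.2) ^ 2 := by
          rw [Finset.sum_image (fun a _ b _ h => congrArg Prod.fst h)]
          refine Finset.sum_congr rfl fun q _ => ?_
          unfold gz
          rw [← abs_mul, abs_of_nonneg (mul_self_nonneg _)]
          ring
      _ = (∑ A ∈ fam P B0 T, ae P r F T A ^ 2) ^ 2 := by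
          rw [Finset.sum_product, sq, Finset.sum_mul_sum]
      _ ≤ (CF ^ 2 * C0) ^ 2 := by gcongr
      _ ≤ _ := by
          have : 0 ≤ k0 ^ 4 := by positivity
          linarith

end Pool.Agent.Run7.h195.LB
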