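import Pool.Agent.Run7.h195.LB.MeanPhi
import Pool.Agent.H297R2.LG.Final
import Pool.Agent.R482.GB.Sm

/-! Many large gaps near every `t0`, with an almost periodic weight. -/

open Complex Filter Topology Set MeasureTheory

namespace Pool.Agent.Run7.h195.LB

open SG (hh nn dd dl ord NZ)
open SP (RHs ZZ mu wt Mk Par Eb PS chi qq tt)
open LG TH803TW

lemma LS_fin (κ c' K T t0 : ℝ) : {n : ℕ | 1 ≤ n ∧ |ord n - t0| ≤ K * dd κ T ∧
    2 * Real.pi * c' / Real.log T < ord (n + 1) - ord n}.Finite :=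
  (SP.ManyAux.idx_finite t0 (K * dd κ T)).subset (fun _ hn => ⟨hn.1, hn.2.1⟩)

/-- the indices of the large gaps near `t0` -/
noncomputable def LS (κ c' K T t0 : ℝ) : Finset ℕ := (LS_fin κ c' K T t0).toFinset

lemma mem_LS {κ c' K T t0 : ℝ} {n : ℕ} : n ∈ LS κ c' K T t0 ↔ 1 ≤ n ∧
    |ord n - t0| ≤ K * dd κ T ∧ 2 * Real.pi * c' / Real.log T < ord (n + 1) - ord n := by
  unfold LS
  rw [Set.Finite.mem_toFinset]
  rfl

lemma tele (f : ℕ → ℝ) {a b : ℕ} (hab : a ≤ b) :
    ∑ n ∈ Finset.Ico a b, (f (n + 1) - f n) = f b - f a := by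
  induction b, hab using Nat.le_induction with
  | base => simp
  | succ b hb ih => rw [Finset.sum_Ico_succ_top hb, ih]; ring

lemma card_gap {N : Finset ℕ} {t0 H d c' : ℝ} (h : ∀ n ∈ N, 1 ≤ n ∧ |ord n - t0| ≤ H ∧
    c' < ord (n + 1) - ord n ∧ ord (n + 1) - ord n ≤ d) (hd : 0 ≤ d) (hH : 0 ≤ H) :
    N.card * c' ≤ 2 * H + d := by
  rcases N.eq_empty_or_nonempty with he | hne
  · rw [he]; simp; positivity
  set a := N.min' hne with ha
  set b := N.max' hne with hb
  have haN := N.min'_mem hne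
  have hbN := N.max'_mem hne
  rw [← ha] at haN
  rw [← hb] at hbN
  have hab : a ≤ b + 1 := (N.min'_le b hbN).trans (by omega)
  have hsub : N ⊆ Finset.Ico a (b + 1) := by
    intro n hn
    rw [Finset.mem_Ico]
    exact ⟨N.min'_le n hn, Nat.lt_succ_of_le (N.le_max' n hn)⟩
  have h1 : ∑ n ∈ N, (ord (n + 1) - ord n) ≤ ∑ n ∈ Finset.Ico a (b + 1),
      (ord (n + 1) - ord n) := by
    apply Finset.sum_le_sum_of_subset_of_nonneg hsub
    intro n hn _
    rw [Finset.mem_Ico] at hn
    have : 1 ≤ n := (h a haN).1.trans hn.1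
    exact sub_nonneg.2 (SG.ord_mono this (by omega))
  rw [tele ord hab] at h1
  have h2 : (N.card : ℝ) * c' ≤ ∑ n ∈ N, (ord (n + 1) - ord n) := by
    calc (N.card : ℝ) * c' = ∑ n ∈ N, c' := by rw [Finset.sum_const, nsmul_eq_mul]
      _ ≤ _ := Finset.sum_le_sum fun n hn => (h n hn).2.2.1.le
  have h3 := (h b hbN).2.2.2
  have h4 := (abs_le.1 (h b hbN).2.1).2
  have h5 := (abs_le.1 (h a haN).2.1).1
  linarith

open SP.ManyAux LG.LocAux in
/-- **many large gaps near every `t0`, weighted** -/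
theorem LOCALphi (hRH : RHs) (P : Par) (B0 : ℕ) (hB : P.B = 2 * B0) (r : ℝ) (hr : 0 < r)
    (F q : ℕ → ℝ) (hq : IsQ B0 (tm P r) q) (c : ℝ) (hc : 0 < c) (hSF : 0 < SF B0 F q)
    (hstrict : c * SF B0 F q < SF B0 F q +
      4 * r / Real.pi * ∑ m ∈ Finset.Icc 2 B0, sm0 P c m * SM B0 F q m) (M0 : ℝ) (hM0 : 0 < M0) :
    ∃ η ε K : ℝ, 0 < η ∧ 0 < ε ∧ 1 ≤ K ∧ ∀ (φ : ℝ → ℝ) (Mφ : ℝ), APm φ Mφ → (∀ t, 0 ≤ φ t) →
      (∀ t, φ t ≤ 1) → M0 ≤ Mφ → ∃ T0 : ℝ, 10 ≤ T0 ∧ ∀ T : ℝ, T0 ≤ T →
      ∀ t0 : ℝ, 11 / 10 * T ≤ t0 → t0 ≤ 19 / 10 * T →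
      ε * dd P.κ T * Real.log T ≤ ∑ n ∈ LS P.κ (c + η) K T t0, φ (ord n) := by
  classical
  have hpi := Real.pi_pos
  obtain ⟨η, δ, A1, hη, hδ, hA1, hpar⟩ := choose_params P B0 r F q c hstrict
  set S0 := SF B0 F q with hS0
  -- the smoothing parameters
  set e1 := min (1 / 4) (δ / (2 * S0)) with he1
  have he10 : 0 < e1 := by rw [he1]; exact lt_min (by norm_num) (by positivity)
  have he14 : e1 ≤ 1 / 4 := min_le_left _ _
  have he1S : 2 * e1 * S0 ≤ δ := by
    have : e1 ≤ δ / (2 * S0) := min_le_right _ _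
    rw [le_div_iff₀ (by positivity)] at this
    linarith
  have hc1 : 0 < c + 2 * η := by linarith
  obtain ⟨A0, hA0, hge⟩ := gK_ge (c + η) (c + 2 * η) e1 (by linarith) (by linarith) he10
  set A := max A0 A1 with hA
  have hApos : 0 < A := lt_of_lt_of_le hA0 (le_max_left _ _)
  have hst := hpar A (le_max_right _ _)
  have hge' := hge A (le_max_left _ _)
  have hg0 : ∀ x, 0 ≤ gK A (c + 2 * η) x := fun x => (gK_bounds A (c + 2 * η) x hApos hc1).1
  have hgc : Continuous (gK A (c + 2 * η)) := gK_continuous A (c + 2 * η)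
  have hCOMB1 := COMB1 P B0 hB r hr F q hq
  have hCOMB2 := COMB2_of P B0 hB r hr F q hq A (c + 2 * η) (PSUM P A (c + 2 * η) hApos hc1)
      (PSUM_abs P A (c + 2 * η) hApos hc1)
  obtain ⟨TA, hTA, hlow⟩ := mean_lower P B0 r F q A (c + 2 * η) δ e1
    (MEAN hRH P B0 hB r F A (c + 2 * η) hApos hc1) hCOMB1 hCOMB2 hSF hδ
    he10 he14 he1S hst
  set ρ0 := S0 * δ with hρ0d
  have hρ00 : 0 < ρ0 := by positivity
  set ρ := M0 * ρ0 / 2 with hρ
  have hρ0 : 0 < ρ := by positivity
  obtain ⟨C4, TF, hC4, hTF, hmom⟩ := MOM hRH P B0 hB r hr F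
  set e := ρ / (4 * C4) with he
  have he0 : 0 < e := by positivity
  have heC : e * C4 = ρ / 4 := by rw [he]; field_simp
  obtain ⟨X, TG, hX, hTG, hG⟩ := GAPTAIL hRH P.κ P.hκ P.hκ1 (ρ * e / 2) (by positivity)
  have hX0 : 0 < X := by linarith
  obtain ⟨M, hMn, hMe⟩ := exists_M (ρ * e / 6) (by positivity)
  obtain ⟨TN, hTN⟩ := NZ_pos_large
  set g := 1 / (1 - 2 * e1) with hgdef
  have hg1 : 0 < 1 - 2 * e1 := by linarith
  have hgpos : 0 < g := by positivity
  -- largeness of `T`
  set R := Real.pi * (c + η) with hR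
  have hR0 : 0 < R := by positivity
  obtain ⟨T1, hT1⟩ := (Real.tendsto_log_atTop.eventually_ge_atTop
    (max (max 1 (R ^ 2 / (2 * e1))) (max (4 * X) R))).exists_forall_of_atTop
  obtain ⟨T2, hT2⟩ := (Real.isLittleO_log_id_atTop.bound
    (by norm_num : (0 : ℝ) < 1 / 4)).exists_forall_of_atTop
  set C7 : ℝ := (2 * (M + 1) + 1) / (2 * R) with hC7
  have hC70 : 0 < C7 := by positivity
  refine ⟨η, ρ * e / (8 * X), M + 1, hη, by positivity, by linarith, ?_⟩
  intro φ Mφ hφ hφ0 hφ1 hMφ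
  set ω : ℝ := ρ * e / (8 * X * C7) with hω
  have hω0 : 0 < ω := by positivity
  obtain ⟨δ0, hδ0, hunif⟩ := Pool.Agent.R482.GB.unif_tp hφ hω0
  obtain ⟨TP, hTP, hmeanφ⟩ := mean_phi hRH P B0 hB r F A (c + 2 * η) hApos hc1 hCOMB1 hCOMB2 hφ
    (M0 * ρ0 / (2 * (1 + g))) (by positivity)
  have hφc := APm.cont' hφ
  obtain ⟨T3, hT3⟩ := (Real.tendsto_log_atTop.eventually_ge_atTop
    (4 * X / δ0)).exists_forall_of_atTop
  refine ⟨max (max (max TA TF) (max TG TN)) (max (max T1 T2) (max TP T3)),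
    hTA.trans (((le_max_left _ _).trans (le_max_left _ _)).trans (le_max_left _ _)), ?_⟩
  intro T hT t0 ht0 ht1
  simp only [max_le_iff] at hT
  obtain ⟨⟨⟨eA, eF⟩, eG, eN⟩, ⟨e1', e2'⟩, eP, e3'⟩ := hT
  have hT10 : 10 ≤ T := hTA.trans eA
  have hTone : 1 ≤ T := by linarith
  have hTpos : 0 < T := by linarith
  have hLB := hT1 T e1'
  simp only [max_le_iff] at hLB
  obtain ⟨⟨hL1, hLR⟩, hLX, hLR2⟩ := hLB
  obtain ⟨G, hGc, hGn, hGone, hGint⟩ := hG T eG
  have hlowT := hlow T eA t0 ht0 ht1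
  have hmomT := hmom T eF t0
  obtain ⟨hφa, hφb⟩ := hmeanφ T eP t0 ht0 ht1
  have hLδ := hT3 T e3'
  set L := Real.log T with hL
  have hL0 : 0 < L := by linarith
  have hLT : 4 * L ≤ T := by
    have := hT2 T e2'
    simp only [id, Real.norm_eq_abs] at this
    rw [abs_of_pos hTpos] at this
    have h := le_abs_self (Real.log T)
    rw [← hL] at h this
    linarith
  set Δ := dd P.κ T with hΔ
  have hΔ1 : 1 ≤ Δ := dd_ge_one hTone P.hκ1
  have hΔ0 : 0 < Δ := by linarith
  set V1 := T + 2 * L with hV1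
  set V2 := 2 * T - 2 * L with hV2
  have hV : V1 ≤ V2 := by rw [hV1, hV2]; linarith
  set w : ℝ → ℝ := wt t0 Δ with hw
  have hw0 : ∀ t, 0 ≤ w t := fun t => wt_nonneg _ _ _
  have hw1 : ∀ t, w t ≤ 1 := fun t => wt_le_one _ _ _
  have hwc : Continuous w := wt_cont _ _
  set En : ℝ → ℝ := fun t => ‖EE P B0 r F T t‖ with hEn
  have hEc : Continuous En := (EE_cont P B0 r F T).norm
  set Z : ℝ → ℝ := fun t => Zs A (c + 2 * η) T t with hZ
  have hZc : Continuous Z := Zs_cont A (c + 2 * η) T hTone hgc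
  have hZ0 : ∀ t, 0 ≤ Z t := fun t => Zs_nonneg A (c + 2 * η) T t hTone hg0
  set d := X / L with hd
  have hd0 : 0 < d := by positivity
  have hd1 : 4 * d ≤ 1 := by
    rw [hd, mul_div_assoc', div_le_one hL0]; exact hLX
  have hdδ : 4 * d ≤ δ0 := by
    rw [hd, mul_div_assoc', div_le_iff₀ hL0]
    rw [div_le_iff₀ hδ0] at hLδ
    linarith
  have hdL : d ≤ L := by linarith
  -- the index set
  set N := LS P.κ (c + η) (M + 1) T t0 with hN
  set N' := N.filter (fun n => ord (n + 1) - ord n ≤ 4 * d) with hN'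
  have hN'm : ∀ n ∈ N', 1 ≤ n ∧ ord (n + 1) - ord n ≤ 4 * d := by
    intro n hn
    rw [hN', Finset.mem_filter, hN, mem_LS] at hn
    exact ⟨hn.1.1, hn.2⟩
  set S : ℝ → ℝ := fun t => ∑ n ∈ N',
    (φ (ord n) + ω) * (Set.Icc (ord n) (ord (n + 1))).indicator (fun _ => (1 : ℝ)) t with hSdef
  have hSn : ∀ t, 0 ≤ S t := fun t =>
    Finset.sum_nonneg (fun n _ => mul_nonneg (by have := hφ0 (ord n); linarith)
      (Set.indicator_nonneg (fun _ _ => zero_le_one) t))
  have hSi : ∀ n ∈ N', IntervalIntegrable (fun t => (φ (ord n) + ω) * (Set.Icc (ord n)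
      (ord (n + 1))).indicator (fun _ => (1 : ℝ)) t) volume V1 V2 := fun n hn =>
    ((ind_int (ord n) (ord (n + 1)) V1 V2 (SG.ord_mono (hN'm n hn).1 (by omega)) hV).1).const_mul _
  have iS : IntervalIntegrable S volume V1 V2 := by
    have h1 := IntervalIntegrable.sum N' hSi
    have h2 : (∑ n ∈ N', (fun t => (φ (ord n) + ω) * (Set.Icc (ord n)
      (ord (n + 1))).indicator (fun _ => (1 : ℝ)) t)) = S := by
      funext t
      rw [Finset.sum_apply]
    rw [← h2]
    exact h1
  have I4 : ∫ t in V1..V2, S t ≤ (∑ n ∈ N', (φ (ord n) + ω)) * (4 * d) := by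
    rw [hSdef, intervalIntegral.integral_finsetSum hSi, Finset.sum_mul]
    apply Finset.sum_le_sum
    intro n hn
    rw [intervalIntegral.integral_const_mul]
    apply mul_le_mul_of_nonneg_left _ (by have := hφ0 (ord n); linarith)
    exact ((ind_int (ord n) (ord (n + 1)) V1 V2 (SG.ord_mono (hN'm n hn).1 (by omega)) hV).2).trans
      (hN'm n hn).2
  -- pointwise bound
  have hpt : ∀ t ∈ Set.Icc V1 V2, w t * En t ^ 2 * φ t - g * (w t * En t ^ 2 * Z t * φ t) ≤
      e * (w t * En t ^ 4) + 1 / (4 * e) * S t + 1 / (4 * e) * (w t * G (t + d)) +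
      1 / (4 * e) * (w t * G (t + (-d))) +
      1 / (4 * e) * Real.exp (-M ^ 2 / 4) * wt t0 (2 * Δ) t := by
    intro t ht
    have htV1 : T + 2 * L ≤ t := ht.1
    have htV2 : t ≤ 2 * T - 2 * L := ht.2
    have hE0 : 0 ≤ Real.exp (-M ^ 2 / 4) * wt t0 (2 * Δ) t :=
      mul_nonneg (Real.exp_pos _).le (wt_nonneg _ _ _)
    have hwG1 : 0 ≤ w t * G (t + d) := mul_nonneg (hw0 t) (hGn _)
    have hwG2 : 0 ≤ w t * G (t + (-d)) := mul_nonneg (hw0 t) (hGn _)
    set b1 : ℝ := if (∀ s ∈ ZZ T, R / L < |s.im - t|) then 1 else 0 with hb1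
    have hb10 : 0 ≤ b1 := by rw [hb1]; split_ifs <;> norm_num
    have hdich : 1 ≤ g * Z t ∨ 1 ≤ b1 := by
      by_cases hno : ∀ s ∈ ZZ T, R / L < |s.im - t|
      · right
        rw [hb1, if_pos hno]
      · left
        push Not at hno
        obtain ⟨s, hs, hst'⟩ := hno
        have h1 := Zs_ge (A := A) (c := c + 2 * η) hTone hL1 hR0 he10 (by linarith) hLR hg0
          hge' hs hst'
        have h2 : g * (1 - 2 * e1) = 1 := by rw [hgdef]; field_simp
        calc (1 : ℝ) = g * (1 - 2 * e1) := h2.symm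
          _ ≤ g * Z t := mul_le_mul_of_nonneg_left h1 hgpos.le
    have h1 := pointwise2 (E := En t) (g := g) (Z := Z t) he0 (norm_nonneg _) hgpos.le (hZ0 t)
      hb10 hdich
    have hwφ0 : 0 ≤ w t * φ t := mul_nonneg (hw0 t) (hφ0 t)
    have h2 := mul_le_mul_of_nonneg_left h1 hwφ0
    have hwφ : w t * φ t ≤ w t := mul_le_of_le_one_right (hw0 t) (hφ1 t)
    have h3 : w t * φ t * b1 ≤ S t + w t * G (t + d) + w t * G (t + (-d)) +
        Real.exp (-M ^ 2 / 4) * wt t0 (2 * Δ) t := by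
      by_cases hno : ∀ s ∈ ZZ T, R / L < |s.im - t|
      · have hb : b1 = 1 := by rw [hb1, if_pos hno]
        rw [hb, mul_one]
        have hRL : 0 < R / L := by positivity
        have hRL1 : R / L ≤ 1 := by rw [div_le_one hL0]; exact hLR2
        have hNt : 1 ≤ NZ t := hTN t (by linarith)
        obtain ⟨g1, g2, g3, g4⟩ := gap_dich (X := d) hTone hNt hRL (by linarith) (by linarith) hno
        rcases g4 with g4 | g4 | g4
        · by_cases hn0 : |ord (NZ t) - t0| ≤ (M + 1) * Δ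
          · have hnN : NZ t ∈ N' := by
              rw [hN', Finset.mem_filter, hN, mem_LS]
              refine ⟨⟨hNt, hn0, ?_⟩, g4⟩
              have : 2 * Real.pi * (c + η) / Real.log T = 2 * (R / L) := by rw [hR, hL]; ring
              rw [this]
              exact g1
            have h7 : φ t ≤ S t := by
              have h8 : (Set.Icc (ord (NZ t)) (ord (NZ t + 1))).indicator
                  (fun _ => (1 : ℝ)) t = 1 := by
                apply Set.indicator_of_mem
                exact ⟨g2, g3⟩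
              have h9 : (φ (ord (NZ t)) + ω) * (Set.Icc (ord (NZ t)) (ord (NZ t + 1))).indicator
                  (fun _ => (1 : ℝ)) t ≤ S t :=
                Finset.single_le_sum (f := fun n => (φ (ord n) + ω) *
                  (Set.Icc (ord n) (ord (n + 1))).indicator (fun _ => (1 : ℝ)) t)
                  (fun n _ => mul_nonneg (by have := hφ0 (ord n); linarith)
                    (Set.indicator_nonneg (fun _ _ => zero_le_one) t)) hnN
              rw [h8, mul_one] at h9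
              have h10 : |t - ord (NZ t)| ≤ δ0 := by
                rw [abs_of_nonneg (by linarith)]
                linarith
              have h11 := (abs_le.1 (hunif _ _ h10)).2
              linarith
            have h12 : w t * φ t ≤ φ t := mul_le_of_le_one_left (hφ0 t) (hw1 t)
            linarith
          · push Not at hn0
            have h7 : M * Δ ≤ |t - t0| := by
              have h8 : |ord (NZ t) - t0| ≤ |ord (NZ t) - t| + |t - t0| := by
                have := abs_add_le (ord (NZ t) - t) (t - t0)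
                simpa using this
              have h9 : |ord (NZ t) - t| ≤ Δ := by
                rw [abs_of_nonpos (by linarith)]
                linarith
              nlinarith
            have := wt_tail t0 Δ t M hΔ0 hMn h7
            linarith [hSn t]
        · have h8 := hGone (t + d) (by linarith) (by linarith) g4
          have h9 : w t ≤ w t * G (t + d) := le_mul_of_one_le_right (hw0 t) h8
          linarith [hSn t]
        · have h8 := hGone (t + (-d)) (by linarith) (by linarith) (by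
            intro s hs
            have := g4 s hs
            rwa [sub_eq_add_neg t d] at this)
          have h9 : w t ≤ w t * G (t + (-d)) := le_mul_of_one_le_right (hw0 t) h8
          linarith [hSn t]
      · have hb : b1 = 0 := by rw [hb1, if_neg hno]
        rw [hb, mul_zero]
        linarith [hSn t]
    have h4 : 1 / (4 * e) * (w t * φ t * b1) ≤ 1 / (4 * e) * (S t + w t * G (t + d) +
        w t * G (t + (-d)) + Real.exp (-M ^ 2 / 4) * wt t0 (2 * Δ) t) :=
      mul_le_mul_of_nonneg_left h3 (by positivity)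
    have e3 : w t * En t ^ 2 * φ t - g * (w t * En t ^ 2 * Z t * φ t) =
        w t * φ t * (En t ^ 2 * (1 - g * Z t)) := by
      ring
    rw [e3]
    refine h2.trans ?_
    have e4 : w t * φ t * (e * En t ^ 4 + 1 / (4 * e) * b1) =
        w t * φ t * (e * En t ^ 4) + 1 / (4 * e) * (w t * φ t * b1) := by ring
    have e5 : w t * φ t * (e * En t ^ 4) ≤ e * (w t * En t ^ 4) := by
      have : 0 ≤ e * En t ^ 4 := by positivity
      calc w t * φ t * (e * En t ^ 4) ≤ w t * (e * En t ^ 4) :=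
            mul_le_mul_of_nonneg_right hwφ this
        _ = _ := by ring
    rw [e4]
    linarith
  -- integrability
  have i0 : IntervalIntegrable (fun t => w t * En t ^ 2 * φ t) volume V1 V2 :=
    ((hwc.mul (hEc.pow 2)).mul hφc).intervalIntegrable _ _
  have i0' : IntervalIntegrable (fun t => w t * En t ^ 2 * Z t * φ t) volume V1 V2 :=
    (((hwc.mul (hEc.pow 2)).mul hZc).mul hφc).intervalIntegrable _ _
  have i2 : IntervalIntegrable (fun t => w t * En t ^ 4) volume V1 V2 :=
    (hwc.mul (hEc.pow 4)).intervalIntegrable _ _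
  have i5 : IntervalIntegrable (fun t => wt t0 (2 * Δ) t) volume V1 V2 :=
    (wt_cont _ _).intervalIntegrable _ _
  have iG : ∀ x : ℝ, IntervalIntegrable (fun t => w t * G (t + x)) volume V1 V2 := fun x =>
    (hwc.mul (hGc.comp (continuous_id.add continuous_const))).intervalIntegrable _ _
  -- the integrals
  have I5 : ∫ t in V1..V2, wt t0 (2 * Δ) t ≤ 6 * Δ := by
    have h1 := wt_int t0 (2 * Δ) V1 V2 (by positivity) hV
    have h2 : Real.sqrt (2 * Real.pi) * (2 * Δ) ≤ 3 * (2 * Δ) :=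
      mul_le_mul_of_nonneg_right sqrt_two_pi_le (by positivity)
    linarith
  have IG : ∀ x : ℝ, |x| ≤ L → ∫ t in V1..V2, w t * G (t + x) ≤ ρ * e / 2 * Δ := by
    intro x hx
    rw [hw, int_shift]
    rw [abs_le] at hx
    exact hGint (t0 + x) (V1 + x) (V2 + x) (by linarith) (by linarith) (by linarith)
  have IG1 := IG d (by rw [abs_of_pos hd0]; exact hdL)
  have IG2 := IG (-d) (by rw [abs_neg, abs_of_pos hd0]; exact hdL)
  have hint := intervalIntegral.integral_mono_on hV (i0.sub (i0'.const_mul g))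
    (((((i2.const_mul e).add (iS.const_mul (1 / (4 * e)))).add
      ((iG d).const_mul (1 / (4 * e)))).add ((iG (-d)).const_mul (1 / (4 * e)))).add
      (i5.const_mul (1 / (4 * e) * Real.exp (-M ^ 2 / 4)))) hpt
  rw [intervalIntegral.integral_sub i0 (i0'.const_mul g),
    intervalIntegral.integral_add
    ((((i2.const_mul e).add (iS.const_mul (1 / (4 * e)))).add
      ((iG d).const_mul (1 / (4 * e)))).add ((iG (-d)).const_mul (1 / (4 * e))))
      (i5.const_mul (1 / (4 * e) * Real.exp (-M ^ 2 / 4))),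
    intervalIntegral.integral_add
    (((i2.const_mul e).add (iS.const_mul (1 / (4 * e)))).add
      ((iG d).const_mul (1 / (4 * e)))) ((iG (-d)).const_mul (1 / (4 * e))),
    intervalIntegral.integral_add
    ((i2.const_mul e).add (iS.const_mul (1 / (4 * e)))) ((iG d).const_mul (1 / (4 * e))),
    intervalIntegral.integral_add (i2.const_mul e) (iS.const_mul (1 / (4 * e))),
    intervalIntegral.integral_const_mul, intervalIntegral.integral_const_mul,
    intervalIntegral.integral_const_mul, intervalIntegral.integral_const_mul,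
    intervalIntegral.integral_const_mul, intervalIntegral.integral_const_mul] at hint
  have hlow2 : ρ * Δ ≤ (∫ t in V1..V2, w t * En t ^ 2 * φ t) -
      g * ∫ t in V1..V2, w t * En t ^ 2 * Z t * φ t := by
    set ea := M0 * ρ0 / (2 * (1 + g)) * Δ with hea
    have ha := (abs_le.1 hφa).1
    have hb := (abs_le.1 hφb).2
    have hb' := mul_le_mul_of_nonneg_left hb hgpos.le
    have h5 : (1 + g) * ea = M0 * ρ0 / 2 * Δ := by rw [hea]; field_simp
    have h6 : M0 * (ρ0 * Δ) ≤ Mφ * ((∫ t in V1..V2, w t * En t ^ 2) -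
        g * ∫ t in V1..V2, w t * En t ^ 2 * Z t) := by
      apply mul_le_mul hMφ hlowT (by positivity) (by linarith)
    have h7 : ρ * Δ = M0 * (ρ0 * Δ) - (1 + g) * ea := by rw [h5, hρ]; ring
    rw [h7]
    have h8 : (1 + g) * ea = ea + g * ea := by ring
    rw [h8]
    have h9 : Mφ * ((∫ t in V1..V2, w t * En t ^ 2) -
        g * ∫ t in V1..V2, w t * En t ^ 2 * Z t) = Mφ * (∫ t in V1..V2, w t * En t ^ 2) -
        g * (Mφ * ∫ t in V1..V2, w t * En t ^ 2 * Z t) := by ring
    rw [h9] at h6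
    rw [mul_sub] at hb'
    linarith
  have J2 := mul_le_mul_of_nonneg_left hmomT he0.le
  have J4 := mul_le_mul_of_nonneg_left I4 (by positivity : 0 ≤ 1 / (4 * e))
  have JG1 := mul_le_mul_of_nonneg_left IG1 (by positivity : 0 ≤ 1 / (4 * e))
  have JG2 := mul_le_mul_of_nonneg_left IG2 (by positivity : 0 ≤ 1 / (4 * e))
  have J5 := mul_le_mul_of_nonneg_left I5
    (by positivity : 0 ≤ 1 / (4 * e) * Real.exp (-M ^ 2 / 4))
  have K5 : 1 / (4 * e) * Real.exp (-M ^ 2 / 4) * (6 * Δ) ≤ ρ / 4 * Δ := by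
    calc 1 / (4 * e) * Real.exp (-M ^ 2 / 4) * (6 * Δ) ≤
        1 / (4 * e) * (ρ * e / 6) * (6 * Δ) := by gcongr
      _ = ρ / 4 * Δ := by field_simp
  have KG : 1 / (4 * e) * (ρ * e / 2 * Δ) = ρ / 8 * Δ := by
    field_simp
    ring
  have K2 : e * (C4 * Δ) = ρ / 4 * Δ := by rw [← mul_assoc, heC]
  rw [KG] at JG1 JG2
  rw [K2] at J2
  set W := ∑ n ∈ N', (φ (ord n) + ω) with hW
  have K : ρ / 4 * Δ ≤ 1 / (4 * e) * (W * (4 * d)) := by linarith
  have e5 : 1 / (4 * e) * (W * (4 * d)) = W * X / (e * L) := by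
    rw [hd]
    field_simp
  rw [e5, le_div_iff₀ (by positivity)] at K
  have e6 : ρ * e / (4 * X) * Δ * L ≤ W := by
    have e6' : ρ * e / (4 * X) * Δ * L = (ρ / 4 * Δ * (e * L)) / X := by
      field_simp
    rw [e6', div_le_iff₀ hX0]
    exact K
  -- the number of gaps
  have hcard : (N'.card : ℝ) ≤ C7 * (Δ * L) := by
    have h1 := card_gap (N := N') (t0 := t0) (H := (M + 1) * Δ) (d := 4 * d) (c' := 2 * R / L)
      (fun n hn => by
        have h2 := (Finset.mem_filter.1 hn).1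
        rw [hN, mem_LS] at h2
        refine ⟨h2.1, h2.2.1, ?_, (Finset.mem_filter.1 hn).2⟩
        have : 2 * Real.pi * (c + η) / Real.log T = 2 * R / L := by rw [hR, hL]; ring
        rw [← this]
        exact h2.2.2) (by positivity) (by positivity)
    have h3 : (N'.card : ℝ) * (2 * R / L) ≤ (2 * (M + 1) + 1) * Δ := by linarith
    rw [mul_div_assoc', div_le_iff₀ hL0] at h3
    rw [hC7, div_mul_eq_mul_div, le_div_iff₀ (by positivity)]
    linarith
  have hWsum : W = ∑ n ∈ N', φ (ord n) + N'.card * ω := by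
    rw [hW, Finset.sum_add_distrib, Finset.sum_const, nsmul_eq_mul]
  have hωc : N'.card * ω ≤ ρ * e / (8 * X) * Δ * L := by
    calc (N'.card : ℝ) * ω ≤ C7 * (Δ * L) * ω := by gcongr
      _ = _ := by rw [hω]; field_simp
  have hsub : ∑ n ∈ N', φ (ord n) ≤ ∑ n ∈ N, φ (ord n) :=
    Finset.sum_le_sum_of_subset_of_nonneg (Finset.filter_subset _ _) fun n _ _ => hφ0 _
  have hfin : ρ * e / (8 * X) * Δ * L + ρ * e / (8 * X) * Δ * L = ρ * e / (4 * X) * Δ * L := by
    field_simp
    ring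
  linarith

end Pool.Agent.Run7.h195.LB
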