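import Pool.Agent.Run7.h195.LB.MeanTw
import Pool.Agent.H403R2.LGLocal

/-! Mean values with almost periodic weights. -/

open Complex Filter Topology Set MeasureTheory

namespace Pool.Agent.Run7.h195.LB

open SG (hh nn dd dl ord NZ)
open SP (RHs ZZ mu wt Mk Par Eb PS chi qq tt)
open LG LG.MeanAux TH803TW

lemma tp_int {X : ℝ → ℝ} (hX : Continuous X) {S : Finset ℝ} (c : ℝ → ℂ) (h0 : (0 : ℝ) ∈ S)
    {V1 V2 : ℝ} :
    |(∫ t in V1..V2, X t * tp S c t) - (c 0).re * ∫ t in V1..V2, X t| ≤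
      ∑ τ ∈ S.erase 0, ‖c τ‖ * ‖∫ t in V1..V2, ((X t : ℝ) : ℂ) * cexp (I * τ * t)‖ := by
  classical
  have hi : ∀ τ : ℝ, IntervalIntegrable (fun t => c τ * (((X t : ℝ) : ℂ) * cexp (I * τ * t)))
      volume V1 V2 := fun τ => by
    apply Continuous.intervalIntegrable
    fun_prop
  have h1 : (∫ t in V1..V2, X t * tp S c t) =
      (∑ τ ∈ S, c τ * ∫ t in V1..V2, ((X t : ℝ) : ℂ) * cexp (I * τ * t)).re := by
    have e1 : ∑ τ ∈ S, c τ * (∫ t in V1..V2, ((X t : ℝ) : ℂ) * cexp (I * τ * t)) =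
        ∫ t in V1..V2, ∑ τ ∈ S, c τ * (((X t : ℝ) : ℂ) * cexp (I * τ * t)) := by
      rw [intervalIntegral.integral_finsetSum fun τ _ => hi τ]
      refine Finset.sum_congr rfl fun τ _ => ?_
      rw [intervalIntegral.integral_const_mul]
    rw [e1]
    have hint : IntervalIntegrable (fun t => ∑ τ ∈ S, c τ * (((X t : ℝ) : ℂ) *
        cexp (I * τ * t))) volume V1 V2 := by
      apply Continuous.intervalIntegrable
      fun_prop
    have h2 := Complex.reCLM.intervalIntegral_comp_comm hint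
    have h3 : (∫ t in V1..V2, X t * tp S c t) = ∫ t in V1..V2, Complex.reCLM (∑ τ ∈ S,
        c τ * (((X t : ℝ) : ℂ) * cexp (I * τ * t))) := by
      congr 1
      funext t
      have e2 : ∑ τ ∈ S, c τ * (((X t : ℝ) : ℂ) * cexp (I * τ * t)) =
          ((X t : ℝ) : ℂ) * ∑ τ ∈ S, c τ * cexp (I * τ * t) := by
        rw [Finset.mul_sum]
        refine Finset.sum_congr rfl fun τ _ => ?_
        ring
      rw [Complex.reCLM_apply, e2, Complex.re_ofReal_mul]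
      rfl
    rw [h3, h2]
    rfl
  rw [h1, ← Finset.add_sum_erase S _ h0, Complex.add_re]
  have h4 : (c 0 * ∫ t in V1..V2, ((X t : ℝ) : ℂ) * cexp (I * ((0 : ℝ) : ℂ) * t)).re =
      (c 0).re * ∫ t in V1..V2, X t := by
    have e3 : (∫ t in V1..V2, ((X t : ℝ) : ℂ) * cexp (I * ((0 : ℝ) : ℂ) * t)) =
        ((∫ t in V1..V2, X t : ℝ) : ℂ) := by
      rw [← intervalIntegral.integral_ofReal]
      congr 1
      funext t
      simp
    rw [e3, Complex.re_mul_ofReal]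
  rw [h4, add_sub_cancel_left]
  refine (Complex.abs_re_le_norm _).trans ((norm_sum_le _ _).trans ?_)
  refine Finset.sum_le_sum fun τ _ => ?_
  rw [norm_mul]

/-- from trigonometric polynomials to almost periodic weights -/
lemma phi_int {X : ℝ → ℝ} (hX : Continuous X) (hX0 : ∀ t, 0 ≤ X t) {φ : ℝ → ℝ}
    (hφc : Continuous φ) {M : ℝ}
    {S : Finset ℝ} {c : ℝ → ℂ} (h0 : (0 : ℝ) ∈ S) {ε : ℝ} (h1 : ∀ t, |φ t - tp S c t| ≤ ε)
    (h2 : |(c 0).re - M| ≤ ε) {V1 V2 : ℝ} (hV : V1 ≤ V2) :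
    |(∫ t in V1..V2, X t * φ t) - M * ∫ t in V1..V2, X t| ≤
      2 * ε * (∫ t in V1..V2, X t) +
      ∑ τ ∈ S.erase 0, ‖c τ‖ * ‖∫ t in V1..V2, ((X t : ℝ) : ℂ) * cexp (I * τ * t)‖ := by
  have htc := tp_cont S c
  have a1 := tp_int hX c h0 (V1 := V1) (V2 := V2)
  have hI0 : 0 ≤ ∫ t in V1..V2, X t := intervalIntegral.integral_nonneg hV fun t _ => hX0 t
  have a2 : |(∫ t in V1..V2, X t * φ t) - ∫ t in V1..V2, X t * tp S c t| ≤
      ε * ∫ t in V1..V2, X t := by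
    have i1 : IntervalIntegrable (fun t => X t * φ t) volume V1 V2 :=
      (hX.mul hφc).intervalIntegrable _ _
    have i2 : IntervalIntegrable (fun t => X t * tp S c t) volume V1 V2 :=
      (hX.mul htc).intervalIntegrable _ _
    rw [← intervalIntegral.integral_sub i1 i2, ← intervalIntegral.integral_const_mul,
      ← Real.norm_eq_abs]
    apply intervalIntegral.norm_integral_le_of_norm_le hV
    · apply Eventually.of_forall
      intro t _
      rw [Real.norm_eq_abs, ← mul_sub, abs_mul, abs_of_nonneg (hX0 t), mul_comm]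
      exact mul_le_mul_of_nonneg_right (h1 t) (hX0 t)
    · exact (continuous_const.mul hX).intervalIntegrable _ _
  have a3 : |(c 0).re * (∫ t in V1..V2, X t) - M * ∫ t in V1..V2, X t| ≤
      ε * ∫ t in V1..V2, X t := by
    rw [← sub_mul, abs_mul, abs_of_nonneg hI0]
    exact mul_le_mul_of_nonneg_right h2 hI0
  have e : (∫ t in V1..V2, X t * φ t) - M * (∫ t in V1..V2, X t) =
      ((∫ t in V1..V2, X t * φ t) - ∫ t in V1..V2, X t * tp S c t) +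
      ((∫ t in V1..V2, X t * tp S c t) - (c 0).re * ∫ t in V1..V2, X t) +
      ((c 0).re * (∫ t in V1..V2, X t) - M * ∫ t in V1..V2, X t) := by ring
  rw [e]
  refine (abs_add_three _ _ _).trans ?_
  linarith

lemma APm.cont' {φ : ℝ → ℝ} {M : ℝ} (h : APm φ M) : Continuous φ := by
  apply APu.cont
  intro ε hε
  obtain ⟨S, c, -, h1, -⟩ := h ε hε
  exact ⟨S, c, h1⟩

/-- **mean values with an almost periodic weight** -/
theorem mean_phi (hRH : RHs) (P : Par) (B0 : ℕ) (hB : P.B = 2 * B0) (rr : ℝ)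
    (F : ℕ → ℝ) (A c : ℝ) (hA : 0 < A) (hc : 0 < c) {s1 s2 : ℝ}
    (hCOMB1 : Tendsto (fun T : ℝ => Cn P B0 rr F T 1) atTop (𝓝 s1))
    (hCOMB2 : Tendsto (fun T : ℝ => (2 / Real.log T) * ∑' n : ℕ, lk A c T n * Cn P B0 rr F T n)
      atTop (𝓝 s2)) {φ : ℝ → ℝ} {M : ℝ} (hφ : APm φ M) (η : ℝ) (hη : 0 < η) :
    ∃ T0 : ℝ, 10 ≤ T0 ∧ ∀ T : ℝ, T0 ≤ T →
    ∀ t0 : ℝ, 11 / 10 * T ≤ t0 → t0 ≤ 19 / 10 * T →
    |(∫ t in (T + 2 * Real.log T)..(2 * T - 2 * Real.log T),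
        wt t0 (dd P.κ T) t * ‖EE P B0 rr F T t‖ ^ 2 * φ t) -
      M * ∫ t in (T + 2 * Real.log T)..(2 * T - 2 * Real.log T),
        wt t0 (dd P.κ T) t * ‖EE P B0 rr F T t‖ ^ 2| ≤ η * dd P.κ T ∧
    |(∫ t in (T + 2 * Real.log T)..(2 * T - 2 * Real.log T),
        wt t0 (dd P.κ T) t * ‖EE P B0 rr F T t‖ ^ 2 * Zs A c T t * φ t) -
      M * ∫ t in (T + 2 * Real.log T)..(2 * T - 2 * Real.log T),
        wt t0 (dd P.κ T) t * ‖EE P B0 rr F T t‖ ^ 2 * Zs A c T t| ≤ η * dd P.κ T := by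
  classical
  obtain ⟨C5, T5, hC5, hT5, hup⟩ := mean_upper hRH P B0 hB rr F A c hA hc hCOMB1 hCOMB2
  set ε : ℝ := η / (4 * C5) with hε
  have hε0 : 0 < ε := by positivity
  obtain ⟨S, cc, h0, h1, h2⟩ := hφ ε hε0
  have hφc := APm.cont' hφ
  set Sc : ℝ := ∑ τ ∈ S.erase 0, ‖cc τ‖ with hSc
  have hSc0 : 0 ≤ Sc := Finset.sum_nonneg fun _ _ => norm_nonneg _
  set η2 : ℝ := η / (2 * (1 + Sc)) with hη2
  have hη20 : 0 < η2 := by positivity
  have hall : ∀ τ ∈ S.erase 0, ∃ T0 : ℝ, 10 ≤ T0 ∧ ∀ T : ℝ, T0 ≤ T →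
    ∀ t0 : ℝ, 11 / 10 * T ≤ t0 → t0 ≤ 19 / 10 * T →
    ‖∫ t in (T + 2 * Real.log T)..(2 * T - 2 * Real.log T),
      ((wt t0 (dd P.κ T) t * ‖EE P B0 rr F T t‖ ^ 2 : ℝ) : ℂ) * cexp (I * τ * t)‖ ≤
        η2 * dd P.κ T ∧
    ‖∫ t in (T + 2 * Real.log T)..(2 * T - 2 * Real.log T),
      ((wt t0 (dd P.κ T) t * ‖EE P B0 rr F T t‖ ^ 2 * Zs A c T t : ℝ) : ℂ) *
        cexp (I * τ * t)‖ ≤ η2 * dd P.κ T := fun τ hτ =>
    mean_tw hRH P B0 hB rr F A c hA hc hCOMB1 hCOMB2 τ (Finset.ne_of_mem_erase hτ) η2 hη20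
  choose! T6 hT6 htw using hall
  obtain ⟨T7, hT7⟩ : ∃ T7 : ℝ, ∀ τ ∈ S.erase 0, T6 τ ≤ T7 := by
    refine ⟨∑ τ ∈ S.erase 0, |T6 τ|, fun τ hτ => ?_⟩
    exact (le_abs_self _).trans (Finset.single_le_sum (f := fun τ => |T6 τ|)
      (fun _ _ => abs_nonneg _) hτ)
  obtain ⟨T8, hT8, hT8'⟩ := ev_all P.κ 1 P.hκ one_pos
  refine ⟨max T5 (max T7 T8), hT5.trans (le_max_left _ _), fun T hT t0 ht1 ht2 => ?_⟩
  have g5 : T5 ≤ T := (le_max_left _ _).trans hT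
  have g7 : T7 ≤ T := ((le_max_left _ _).trans (le_max_right _ _)).trans hT
  have g8 : T8 ≤ T := ((le_max_right _ _).trans (le_max_right _ _)).trans hT
  obtain ⟨hL40, hL1, -⟩ := hT8' T g8
  have hT10 : 10 ≤ T := hT5.trans g5
  have hT0 : 0 < T := by linarith
  obtain ⟨u1, u2⟩ := hup T g5 t0 ht1 ht2
  have hD : 0 < dd P.κ T := Real.rpow_pos_of_pos hT0 _
  set D := dd P.κ T with hDdef
  set L := Real.log T with hLdef
  set V1 := T + 2 * L with hV1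
  set V2 := 2 * T - 2 * L with hV2
  have hV : V1 ≤ V2 := by rw [hV1, hV2]; linarith
  have hGcont : Continuous fun t => ‖EE P B0 rr F T t‖ ^ 2 := ((EE_cont P B0 rr F T).norm).pow 2
  have hwc := wt_cont t0 D
  have hZc := Zs_cont A c T (by linarith : 1 ≤ T)
  have hZ0 : ∀ t, 0 ≤ Zs A c T t := fun t =>
    LG.LocAux.Zs_nonneg A c T t (by linarith) fun x => (gK_bounds A c x hA hc).1
  have hfin : ∀ X : ℝ → ℝ, Continuous X → (∀ t, 0 ≤ X t) →
      (∫ t in V1..V2, X t) ≤ C5 * D →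
      (∀ τ ∈ S.erase 0, ‖∫ t in V1..V2, ((X t : ℝ) : ℂ) * cexp (I * τ * t)‖ ≤ η2 * D) →
      |(∫ t in V1..V2, X t * φ t) - M * ∫ t in V1..V2, X t| ≤ η * D := by
    intro X hX hX0 hXI hXt
    refine (phi_int hX hX0 hφc h0 h1 h2 hV).trans ?_
    have b1 : 2 * ε * (∫ t in V1..V2, X t) ≤ η * D / 2 := by
      calc 2 * ε * (∫ t in V1..V2, X t) ≤ 2 * ε * (C5 * D) := by gcongr
        _ = η * D / 2 := by rw [hε]; field_simp; ring
    have b2 : ∑ τ ∈ S.erase 0, ‖cc τ‖ * ‖∫ t in V1..V2, ((X t : ℝ) : ℂ) * cexp (I * τ * t)‖ ≤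
        η * D / 2 := by
      calc _ ≤ ∑ τ ∈ S.erase 0, ‖cc τ‖ * (η2 * D) := by
            refine Finset.sum_le_sum fun τ hτ => ?_
            exact mul_le_mul_of_nonneg_left (hXt τ hτ) (norm_nonneg _)
        _ = Sc * (η2 * D) := by rw [← Finset.sum_mul]
        _ ≤ (1 + Sc) * (η2 * D) := by
            apply mul_le_mul_of_nonneg_right _ (by positivity)
            linarith
        _ = η * D / 2 := by rw [hη2]; field_simp
    linarith
  constructor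
  · apply hfin (fun t => wt t0 D t * ‖EE P B0 rr F T t‖ ^ 2) (by fun_prop)
      (fun t => mul_nonneg (wt_pos t0 D t).le (by positivity)) u1
    intro τ hτ
    exact (htw τ hτ T ((hT7 τ hτ).trans g7) t0 ht1 ht2).1
  · apply hfin (fun t => wt t0 D t * ‖EE P B0 rr F T t‖ ^ 2 * Zs A c T t) (by fun_prop)
      (fun t => mul_nonneg (mul_nonneg (wt_pos t0 D t).le (by positivity)) (hZ0 t)) u2
    intro τ hτ
    exact (htw τ hτ T ((hT7 τ hτ).trans g7) t0 ht1 ht2).2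

end Pool.Agent.Run7.h195.LB
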