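import Pool.Agent.Run7.h195.LB.TwSum
import Pool.Agent.Run7.h195.LB.Gauss
import Pool.Agent.H880R2.LG.Mean
import Pool.Agent.TH803.TW.AP

/-! Twisted mean values of `|E|²` and `|E|² Zs`. -/

open Complex Filter Topology Set MeasureTheory

namespace Pool.Agent.Run7.h195.LB

open SG (hh nn dd dl ord NZ)
open SP (RHs ZZ mu wt Mk Par Eb PS chi qq tt)
open LG LG.MeanAux

/-- integration of a series of exponentials -/
lemma series_int (H : ℝ → ℂ) (hH : Continuous H) {M : ℝ} (hM : ∀ t, ‖H t‖ ≤ M) (lkk : ℕ → ℝ)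
    (hlks : Summable fun n => |lkk n|) (V1 V2 : ℝ) (b : ℕ → ℝ)
    (hb : ∀ n : ℕ, |lkk n| * ‖∫ t in V1..V2, H t * cexp (-(I * ((t * Real.log n : ℝ) : ℂ)))‖ ≤ b n)
    (hbs : Summable b) :
    ‖∫ t in V1..V2, H t * ∑' n : ℕ, (lkk n : ℂ) * cexp (-(I * ((t * Real.log n : ℝ) : ℂ)))‖ ≤
      ∑' n, b n := by
  have hnorm : ∀ (n : ℕ) (t : ℝ), ‖(lkk n : ℂ) * cexp (-(I * ((t * Real.log n : ℝ) : ℂ)))‖ =
      |lkk n| := by
    intro n t
    rw [norm_mul, norm_osc, mul_one, Complex.norm_real, Real.norm_eq_abs]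
  have hSsum : ∀ t : ℝ, Summable fun n : ℕ =>
      (lkk n : ℂ) * cexp (-(I * ((t * Real.log n : ℝ) : ℂ))) := by
    intro t
    apply Summable.of_norm
    simp only [hnorm]
    exact hlks
  set J : ℕ → ℂ := fun n => ∫ t in V1..V2, H t * cexp (-(I * ((t * Real.log n : ℝ) : ℂ)))
    with hJdef
  have hhas : HasSum (fun n : ℕ => (lkk n : ℂ) * J n) (∫ t in V1..V2, H t *
      ∑' n : ℕ, (lkk n : ℂ) * cexp (-(I * ((t * Real.log n : ℝ) : ℂ)))) := by
    have h1 := intervalIntegral.hasSum_integral_of_dominated_convergence (a := V1) (b := V2)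
      (μ := volume) (F := fun (n : ℕ) (t : ℝ) => H t *
        ((lkk n : ℂ) * cexp (-(I * ((t * Real.log n : ℝ) : ℂ)))))
      (f := fun t => H t * ∑' n : ℕ, (lkk n : ℂ) * cexp (-(I * ((t * Real.log n : ℝ) : ℂ))))
      (fun n _ => M * |lkk n|)
      (fun n => by
        apply Continuous.aestronglyMeasurable
        fun_prop)
      (fun n => Eventually.of_forall fun t _ => by
        rw [norm_mul, hnorm]
        exact mul_le_mul_of_nonneg_right (hM t) (abs_nonneg _))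
      (Eventually.of_forall fun t _ => hlks.mul_left M)
      (intervalIntegrable_const)
      (Eventually.of_forall fun t _ => (hSsum t).hasSum.mul_left _)
    have h2 : (fun n : ℕ => (lkk n : ℂ) * J n) = fun n : ℕ => ∫ t in V1..V2,
        H t * ((lkk n : ℂ) * cexp (-(I * ((t * Real.log n : ℝ) : ℂ)))) := by
      funext n
      rw [hJdef]
      simp only
      rw [← intervalIntegral.integral_const_mul]
      congr 1
      funext t
      ring
    rw [h2]
    exact h1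
  rw [← hhas.tsum_eq]
  apply tsum_of_norm_bounded hbs.hasSum
  intro n
  rw [norm_mul, Complex.norm_real, Real.norm_eq_abs]
  exact hb n

/-- bound of one twisted integral -/
lemma one_int (P : Par) (B0 : ℕ) (hB : P.B = 2 * B0) (rr : ℝ) (F : ℕ → ℝ) :
    ∃ T0 : ℝ, 10 ≤ T0 ∧ ∀ T : ℝ, T0 ≤ T →
    ∀ t0 : ℝ, 11 / 10 * T ≤ t0 → t0 ≤ 19 / 10 * T → ∀ (τ : ℝ) (n : ℕ),
    ‖∫ t in (T + 2 * Real.log T)..(2 * T - 2 * Real.log T),
      ((wt t0 (dd P.κ T) t * ‖EE P B0 rr F T t‖ ^ 2 : ℝ) : ℂ) * cexp (I * τ * t) *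
        cexp (-(I * ((t * Real.log n : ℝ) : ℂ)))‖ ≤
      3 * dd P.κ T * (∑ z ∈ QQd P B0 T, gz P rr F T z * gx P.κ T τ z (Real.log n)) +
        4 * dd P.κ T * T ^ 4 * Real.exp (-(T ^ P.κ / 1600)) := by
  obtain ⟨C3, T3, hC3, hT3, hfam⟩ := fam_facts P B0 hB rr F
  obtain ⟨T4, hT4, hev⟩ := ev_all P.κ 1 P.hκ one_pos
  refine ⟨max T3 T4, hT3.trans (le_max_left _ _), fun T hT t0 ht1 ht2 τ n => ?_⟩
  have hTT3 : T3 ≤ T := (le_max_left _ _).trans hT
  have hTT4 : T4 ≤ T := (le_max_right _ _).trans hT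
  obtain ⟨hL40, hL1, -⟩ := hev T hTT4
  have hT10 : 10 ≤ T := hT3.trans hTT3
  have hT0 : 0 < T := by linarith
  obtain ⟨hfamA, -, hsum2, -⟩ := hfam T hTT3
  set κ := P.κ with hκ
  set D := dd κ T with hDdef
  have hD : 0 < D := Real.rpow_pos_of_pos hT0 _
  set L := Real.log T with hLdef
  set Se : ℝ := ∑ q ∈ prs P B0 T, |ae P rr F T q.1 * ae P rr F T q.2| with hSe
  have hSe0 : 0 ≤ Se := Finset.sum_nonneg fun _ _ => abs_nonneg _
  have hSeM : Se ^ 2 ≤ T ^ 4 := by
    calc Se ^ 2 ≤ (T ^ 2) ^ 2 := pow_le_pow_left₀ hSe0 hsum2 2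
      _ = T ^ 4 := by ring
  set G : ℝ → ℝ := fun t => ‖EE P B0 rr F T t‖ ^ 2 with hG
  have hGcont : Continuous G := ((EE_cont P B0 rr F T).norm).pow 2
  have hG0 : ∀ t, 0 ≤ G t := fun t => by rw [hG]; positivity
  have hGM : ∀ t, G t ≤ T ^ 4 := fun t =>
    (pow_le_pow_left₀ (norm_nonneg _) (EE_norm_le P B0 rr F T t) 2).trans hSeM
  have hD2 : D ^ 2 = T ^ (2 - κ) := by
    rw [hDdef]
    unfold dd
    rw [← Real.rpow_natCast, ← Real.rpow_mul hT0.le]
    congr 1
    push_cast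
    ring
  have hTκ : T ^ κ * D ^ 2 = T ^ 2 := by
    rw [hD2, ← Real.rpow_add hT0]
    have : κ + (2 - κ) = ((2 : ℕ) : ℝ) := by push_cast; ring
    rw [this, Real.rpow_natCast]
  have hR : (T / 20) ^ 2 / (4 * D ^ 2) = T ^ κ / 1600 := by
    rw [div_pow, ← hTκ]
    field_simp
    norm_num
  set f : ℝ → ℂ := fun t => ((wt t0 D t * G t : ℝ) : ℂ) *
    cexp (-(I * ((t * (Real.log n - τ) : ℝ) : ℂ))) with hf
  have hfeq : ∀ t : ℝ, ((wt t0 D t * G t : ℝ) : ℂ) * cexp (I * τ * t) *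
        cexp (-(I * ((t * Real.log n : ℝ) : ℂ))) = f t := by
    intro t
    rw [hf]
    simp only
    rw [mul_assoc, ← Complex.exp_add]
    congr 2
    push_cast
    ring
  have hfc : Continuous f := by
    have := wt_cont t0 D
    rw [hf]
    fun_prop
  have hfb : ∀ t, ‖f t‖ ≤ T ^ 4 * wt t0 D t := by
    intro t
    rw [hf]
    simp only
    rw [norm_mul, norm_osc, mul_one, Complex.norm_real, Real.norm_eq_abs,
      abs_of_nonneg (mul_nonneg (wt_pos t0 D t).le (hG0 t)), mul_comm]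
    exact mul_le_mul_of_nonneg_right (hGM t) (wt_pos t0 D t).le
  have htail := tail_int f t0 D (T + 2 * L) (2 * T - 2 * L) (T / 20) (T ^ 4) hD
    (by positivity) (by linarith) (by linarith) (by linarith) hfc (by positivity) hfb
  rw [hR] at htail
  have hg := gauss_bd (prs P B0 T) (fun q => ae P rr F T q.1 * ae P rr F T q.2)
    (fun q => Real.log (nA q.2) - Real.log (nA q.1)) D t0 (Real.log n - τ) hD
  have e1 : (∫ t : ℝ, f t) = ∫ t : ℝ, (wt t0 D t : ℂ) * ((‖∑ i ∈ prs P B0 T,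
      ((ae P rr F T i.1 * ae P rr F T i.2 : ℝ) : ℂ) *
      cexp (I * ((t * (Real.log (nA i.2) - Real.log (nA i.1)) : ℝ) : ℂ))‖ ^ 2 : ℝ) : ℂ) *
      cexp (-(I * ((t * (Real.log n - τ) : ℝ) : ℂ))) := by
    congr 1
    funext t
    rw [hf]
    simp only
    rw [Complex.ofReal_mul]
    rfl
  rw [← e1] at hg
  have e2 : ∑ i ∈ prs P B0 T, ∑ j ∈ prs P B0 T,
      |ae P rr F T i.1 * ae P rr F T i.2| * |ae P rr F T j.1 * ae P rr F T j.2| *
        Real.exp (-(D ^ 2 * ((Real.log (nA i.2) - Real.log (nA i.1)) -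
          (Real.log (nA j.2) - Real.log (nA j.1)) - (Real.log n - τ)) ^ 2 / 2)) =
      ∑ z ∈ QQd P B0 T, gz P rr F T z * gx P.κ T τ z (Real.log n) := by
    unfold QQd
    rw [Finset.sum_product]
    refine Finset.sum_congr rfl fun i hi => Finset.sum_congr rfl fun j hj => ?_
    unfold gz gx
    simp only
    congr 1
    obtain ⟨⟨i1, i2⟩, i3⟩ := LG.Cls.mem_prs.1 hi
    obtain ⟨⟨j1, j2⟩, j3⟩ := LG.Cls.mem_prs.1 hj
    have n1 : (nA i.1 : ℝ) ≠ 0 := by
      have := (hfamA _ i1).1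
      exact_mod_cast (by omega : nA i.1 ≠ 0)
    have n2 : (nA i.2 : ℝ) ≠ 0 := by
      have := (hfamA _ i2).1
      exact_mod_cast (by omega : nA i.2 ≠ 0)
    have n3 : (nA j.1 : ℝ) ≠ 0 := by
      have := (hfamA _ j1).1
      exact_mod_cast (by omega : nA j.1 ≠ 0)
    have n4 : (nA j.2 : ℝ) ≠ 0 := by
      have := (hfamA _ j2).1
      exact_mod_cast (by omega : nA j.2 ≠ 0)
    have e3 : (Real.log (nA i.2) - Real.log (nA i.1)) -
          (Real.log (nA j.2) - Real.log (nA j.1)) - (Real.log n - τ) =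
        Real.log (M1 (i, j)) - Real.log (M2 (i, j)) - (Real.log n - τ) := by
      unfold M1 M2
      push_cast
      rw [Real.log_mul n2 n3, Real.log_mul n1 n4]
      ring
    rw [e3]
  rw [e2] at hg
  have hsq : Real.sqrt (2 * Real.pi) ≤ 3 := by
    rw [Real.sqrt_le_left (by norm_num)]
    have := Real.pi_lt_d2
    linarith
  have hnn : 0 ≤ ∑ z ∈ QQd P B0 T, gz P rr F T z * gx P.κ T τ z (Real.log n) := by
    refine Finset.sum_nonneg fun z _ => mul_nonneg ?_ (gx_pos _ _ _ _ _).le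
    unfold gz
    positivity
  have e4 : (∫ t in (T + 2 * L)..(2 * T - 2 * L),
      ((wt t0 D t * ‖EE P B0 rr F T t‖ ^ 2 : ℝ) : ℂ) * cexp (I * τ * t) *
        cexp (-(I * ((t * Real.log n : ℝ) : ℂ)))) = ∫ t in (T + 2 * L)..(2 * T - 2 * L), f t := by
    apply intervalIntegral.integral_congr
    intro t _
    exact hfeq t
  rw [e4]
  calc ‖∫ t in (T + 2 * L)..(2 * T - 2 * L), f t‖
      = ‖(∫ t : ℝ, f t) + ((∫ t in (T + 2 * L)..(2 * T - 2 * L), f t) - ∫ t : ℝ, f t)‖ := by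
        congr 1
        ring
    _ ≤ Real.sqrt (2 * Real.pi) * D *
        (∑ z ∈ QQd P B0 T, gz P rr F T z * gx P.κ T τ z (Real.log n)) +
        T ^ 4 * (4 * D) * Real.exp (-(T ^ κ / 1600)) := (norm_add_le _ _).trans (add_le_add hg htail)
    _ ≤ 3 * D * (∑ z ∈ QQd P B0 T, gz P rr F T z * gx P.κ T τ z (Real.log n)) +
        4 * D * T ^ 4 * Real.exp (-(T ^ κ / 1600)) := by
        apply add_le_add
        · gcongr
        · apply le_of_eq
          ring

/-- upper bounds of the untwisted mean values -/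
lemma mean_upper (hRH : RHs) (P : Par) (B0 : ℕ) (hB : P.B = 2 * B0) (rr : ℝ)
    (F : ℕ → ℝ) (A c : ℝ) (hA : 0 < A) (hc : 0 < c) {s1 s2 : ℝ}
    (hCOMB1 : Tendsto (fun T : ℝ => Cn P B0 rr F T 1) atTop (𝓝 s1))
    (hCOMB2 : Tendsto (fun T : ℝ => (2 / Real.log T) * ∑' n : ℕ, lk A c T n * Cn P B0 rr F T n)
      atTop (𝓝 s2)) :
    ∃ C T0 : ℝ, 0 < C ∧ 10 ≤ T0 ∧ ∀ T : ℝ, T0 ≤ T →
    ∀ t0 : ℝ, 11 / 10 * T ≤ t0 → t0 ≤ 19 / 10 * T →
    (∫ t in (T + 2 * Real.log T)..(2 * T - 2 * Real.log T),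
        wt t0 (dd P.κ T) t * ‖EE P B0 rr F T t‖ ^ 2) ≤ C * dd P.κ T ∧
    (∫ t in (T + 2 * Real.log T)..(2 * T - 2 * Real.log T),
        wt t0 (dd P.κ T) t * ‖EE P B0 rr F T t‖ ^ 2 * Zs A c T t) ≤ C * dd P.κ T := by
  obtain ⟨C, T1, hC, hT1, hM⟩ := MEAN hRH P B0 hB rr F A c hA hc
  have ev1 : ∀ᶠ T : ℝ in atTop, |Cn P B0 rr F T 1| < |s1| + 1 :=
    hCOMB1.abs.eventually_lt_const (by linarith)
  have ev2 : ∀ᶠ T : ℝ in atTop,
      |(2 / Real.log T) * ∑' n : ℕ, lk A c T n * Cn P B0 rr F T n| < |s2| + 1 :=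
    hCOMB2.abs.eventually_lt_const (by linarith)
  obtain ⟨T2, hT2⟩ := (ev1.and (ev2.and
    (Real.tendsto_log_atTop.eventually_ge_atTop 1))).exists_forall_of_atTop
  have a1 := abs_nonneg s1
  have a2 := abs_nonneg s2
  refine ⟨3 * ((1 + c) * (|s1| + 1) + (|s2| + 1)) + C * (1 + (|s1| + 1)), max T1 T2,
    by positivity, hT1.trans (le_max_left _ _), fun T hT t0 ht1 ht2 => ?_⟩
  obtain ⟨m1, m2⟩ := hM T ((le_max_left _ _).trans hT) t0 ht1 ht2
  obtain ⟨b1, b2, b3⟩ := hT2 T ((le_max_right _ _).trans hT)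
  have hT10 : 10 ≤ T := hT1.trans ((le_max_left _ _).trans hT)
  have hD : 0 < dd P.κ T := Real.rpow_pos_of_pos (by linarith) _
  set D := dd P.κ T with hDdef
  have hsq : Real.sqrt (2 * Real.pi) ≤ 3 := by
    rw [Real.sqrt_le_left (by norm_num)]
    have := Real.pi_lt_d2
    linarith
  have hsq0 : 0 ≤ Real.sqrt (2 * Real.pi) := Real.sqrt_nonneg _
  set x := Cn P B0 rr F T 1 with hx
  set y := (2 / Real.log T) * ∑' n : ℕ, lk A c T n * Cn P B0 rr F T n with hy
  have herr : C * D / Real.log T * (1 + |x|) ≤ C * (1 + (|s1| + 1)) * D := by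
    have h1 : C * D / Real.log T ≤ C * D := div_le_self (by positivity) b3
    calc C * D / Real.log T * (1 + |x|) ≤ C * D * (1 + (|s1| + 1)) := by gcongr
      _ = _ := by ring
  have hx1 : x ≤ |s1| + 1 := (le_abs_self x).trans b1.le
  have hx2 : -(|s1| + 1) ≤ x := by
    have := neg_abs_le x
    linarith
  have hy2 : -(|s2| + 1) ≤ y := by
    have := neg_abs_le y
    linarith
  constructor
  · have h1 := (abs_le.1 m1).2
    have h2 : Real.sqrt (2 * Real.pi) * D * x ≤ 3 * D * (|s1| + 1) := by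
      calc Real.sqrt (2 * Real.pi) * D * x ≤ Real.sqrt (2 * Real.pi) * D * (|s1| + 1) := by gcongr
        _ ≤ 3 * D * (|s1| + 1) := by gcongr
    have h3 : 0 ≤ c * (|s1| + 1) * D := by positivity
    have h4 : 0 ≤ (|s2| + 1) * D := by positivity
    linarith
  · have h1 := (abs_le.1 m2).2
    have h2 : c * x - y ≤ c * (|s1| + 1) + (|s2| + 1) := by
      have : c * x ≤ c * (|s1| + 1) := by gcongr
      linarith
    have h5 : Real.sqrt (2 * Real.pi) * D * (c * x - y) ≤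
        3 * D * (c * (|s1| + 1) + (|s2| + 1)) := by
      calc Real.sqrt (2 * Real.pi) * D * (c * x - y) ≤
          Real.sqrt (2 * Real.pi) * D * (c * (|s1| + 1) + (|s2| + 1)) := by gcongr
        _ ≤ _ := by gcongr
    have h3 : 0 ≤ (|s1| + 1) * D := by positivity
    linarith

/-- **twisted mean values** -/
theorem mean_tw (hRH : RHs) (P : Par) (B0 : ℕ) (hB : P.B = 2 * B0) (rr : ℝ)
    (F : ℕ → ℝ) (A c : ℝ) (hA : 0 < A) (hc : 0 < c) {s1 s2 : ℝ}
    (hCOMB1 : Tendsto (fun T : ℝ => Cn P B0 rr F T 1) atTop (𝓝 s1))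
    (hCOMB2 : Tendsto (fun T : ℝ => (2 / Real.log T) * ∑' n : ℕ, lk A c T n * Cn P B0 rr F T n)
      atTop (𝓝 s2)) (τ : ℝ) (hτ : τ ≠ 0) (η : ℝ) (hη : 0 < η) :
    ∃ T0 : ℝ, 10 ≤ T0 ∧ ∀ T : ℝ, T0 ≤ T →
    ∀ t0 : ℝ, 11 / 10 * T ≤ t0 → t0 ≤ 19 / 10 * T →
    ‖∫ t in (T + 2 * Real.log T)..(2 * T - 2 * Real.log T),
      ((wt t0 (dd P.κ T) t * ‖EE P B0 rr F T t‖ ^ 2 : ℝ) : ℂ) * cexp (I * τ * t)‖ ≤
        η * dd P.κ T ∧
    ‖∫ t in (T + 2 * Real.log T)..(2 * T - 2 * Real.log T),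
      ((wt t0 (dd P.κ T) t * ‖EE P B0 rr F T t‖ ^ 2 * Zs A c T t : ℝ) : ℂ) *
        cexp (I * τ * t)‖ ≤ η * dd P.κ T := by
  obtain ⟨C1, T1, hC1, hT1, hzef⟩ := ZEF' hRH A c hA hc
  obtain ⟨C2, hC2, hlks⟩ := lk_summable A c hc
  obtain ⟨T3, hT3, hone⟩ := one_int P B0 hB rr F
  obtain ⟨T4, hT4, hev⟩ := ev_all P.κ C2 P.hκ hC2
  obtain ⟨C5, T5, hC5, hT5, hup⟩ := mean_upper hRH P B0 hB rr F A c hA hc hCOMB1 hCOMB2
  set η1 : ℝ := η / (12 * (1 + c)) with hη1
  have hη10 : 0 < η1 := by positivity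
  obtain ⟨T6, hT6, hs⟩ := tw_sum P B0 hB rr F A c hc τ hτ η1 hη10
  obtain ⟨T7, hT7, hs'⟩ := tw_sum P B0 hB rr F A c hc (-τ) (neg_ne_zero.2 hτ) η1 hη10
  obtain ⟨C8, T8, hC8, hT8, hfam⟩ := fam_facts P B0 hB rr F
  obtain ⟨T9, hT9⟩ := (Real.tendsto_log_atTop.eventually_ge_atTop
    (max (12 * (1 + c) / η) (4 * C1 * C5 / η))).exists_forall_of_atTop
  refine ⟨max (max (max T1 T3) (max T4 T5)) (max (max T6 T7) (max T8 T9)),
    hT1.trans (((le_max_left _ _).trans (le_max_left _ _)).trans (le_max_left _ _)),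
    fun T hT t0 ht1 ht2 => ?_⟩
  simp only [max_le_iff] at hT
  obtain ⟨⟨⟨g1, g3⟩, g4, g5⟩, ⟨g6, g7⟩, g8, g9⟩ := hT
  have hT10 : 10 ≤ T := hT1.trans g1
  have hT0 : 0 < T := by linarith
  obtain ⟨hL40, hL1, hsmall⟩ := hev T g4
  obtain ⟨u1, u2⟩ := hup T g5 t0 ht1 ht2
  obtain ⟨q1, q2⟩ := hs T g6
  obtain ⟨q1', q2'⟩ := hs' T g7
  obtain ⟨l1, l2⟩ := max_le_iff.1 (hT9 T g9)
  obtain ⟨hfamA, -, hsum2, -⟩ := hfam T g8
  obtain ⟨hs1, hs2⟩ := hlks T hT10
  have hone' := hone T g3 t0 ht1 ht2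
  set κ := P.κ with hκ
  set D := dd κ T with hDdef
  have hD : 0 < D := Real.rpow_pos_of_pos hT0 _
  set L := Real.log T with hLdef
  have hL0 : 0 < L := by linarith
  set V1 := T + 2 * L with hV1
  set V2 := 2 * T - 2 * L with hV2
  have hV : V1 ≤ V2 := by rw [hV1, hV2]; linarith
  set Se : ℝ := ∑ q ∈ prs P B0 T, |ae P rr F T q.1 * ae P rr F T q.2| with hSe
  have hSe0 : 0 ≤ Se := Finset.sum_nonneg fun _ _ => abs_nonneg _
  have hSeM : Se ^ 2 ≤ T ^ 4 := by
    calc Se ^ 2 ≤ (T ^ 2) ^ 2 := pow_le_pow_left₀ hSe0 hsum2 2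
      _ = T ^ 4 := by ring
  set G : ℝ → ℝ := fun t => ‖EE P B0 rr F T t‖ ^ 2 with hG
  have hGcont : Continuous G := ((EE_cont P B0 rr F T).norm).pow 2
  have hG0 : ∀ t, 0 ≤ G t := fun t => by rw [hG]; positivity
  have hGM : ∀ t, G t ≤ T ^ 4 := fun t =>
    (pow_le_pow_left₀ (norm_nonneg _) (EE_norm_le P B0 rr F T t) 2).trans hSeM
  have hwc := wt_cont t0 D
  set w : ℝ → ℝ := wt t0 D with hw
  have hw0 : ∀ t, 0 < w t := wt_pos t0 D
  have hw1 : ∀ t, w t ≤ 1 := wt_le_one t0 D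
  set tl : ℝ := 4 * D * T ^ 4 * Real.exp (-(T ^ κ / 1600)) with htl
  have htl0 : 0 ≤ tl := by positivity
  have htlL : (1 + C2 * Real.exp (L ^ 4)) * tl ≤ D / L := by
    rw [le_div_iff₀ hL0]
    have h1 : (1 + C2 * Real.exp (L ^ 4)) * tl * L ≤
        D * (7 * T ^ 4 * Real.exp (-(T ^ κ / 1600)) * (1 + C2 * Real.exp (L ^ 4)) * L) := by
      have h2 : (1 + C2 * Real.exp (L ^ 4)) * tl * L =
          D * (4 * T ^ 4 * Real.exp (-(T ^ κ / 1600)) * (1 + C2 * Real.exp (L ^ 4)) * L) := by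
        rw [htl]; ring
      rw [h2]
      gcongr
      norm_num
    exact h1.trans (by
      calc D * (7 * T ^ 4 * Real.exp (-(T ^ κ / 1600)) * (1 + C2 * Real.exp (L ^ 4)) * L) ≤
          D * 1 := by gcongr
        _ = D := mul_one D)
  have hexpC : 0 ≤ C2 * Real.exp (L ^ 4) := by positivity
  have htl1 : tl ≤ D / L := by
    refine le_trans ?_ htlL
    nlinarith
  -- first claim, for both signs
  have hA1 : ∀ σ : ℝ, (∑ z ∈ QQd P B0 T, gz P rr F T z * gx P.κ T σ z 0 ≤ η1) →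
      ‖∫ t in V1..V2, ((w t * G t : ℝ) : ℂ) * cexp (I * σ * t)‖ ≤ 3 * D * η1 + D / L := by
    intro σ hσ
    have h1 := hone' σ 1
    rw [Nat.cast_one, Real.log_one] at h1
    have e1 : (∫ t in V1..V2, ((w t * ‖EE P B0 rr F T t‖ ^ 2 : ℝ) : ℂ) * cexp (I * σ * t) *
        cexp (-(I * ((t * 0 : ℝ) : ℂ)))) =
        ∫ t in V1..V2, ((w t * G t : ℝ) : ℂ) * cexp (I * σ * t) := by
      congr 1
      funext t
      simp [hG]
    rw [e1] at h1
    refine h1.trans (add_le_add ?_ htl1)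
    gcongr
  -- the series
  set S : ℝ → ℂ := fun t => ∑' n : ℕ, (lk A c T n : ℂ) *
    cexp (-(I * ((t * Real.log n : ℝ) : ℂ))) with hS
  have hnorm : ∀ (n : ℕ) (t : ℝ), ‖(lk A c T n : ℂ) * cexp (-(I * ((t * Real.log n : ℝ) : ℂ)))‖ =
      |lk A c T n| := by
    intro n t
    rw [norm_mul, norm_osc, mul_one, Complex.norm_real, Real.norm_eq_abs]
  have hScont : Continuous S := by
    rw [hS]
    apply continuous_tsum (u := fun n => |lk A c T n|) _ hs1
    · intro n t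
      rw [hnorm]
    · intro n
      fun_prop
  have hB1 : ∀ σ : ℝ, (∑' n : ℕ, |lk A c T n| *
      ∑ z ∈ QQd P B0 T, gz P rr F T z * gx P.κ T σ z (Real.log n) ≤ η1 * L) →
      ‖∫ t in V1..V2, ((w t * G t : ℝ) : ℂ) * cexp (I * σ * t) * S t‖ ≤
        3 * D * (η1 * L) + D / L := by
    intro σ hσ
    set H : ℝ → ℂ := fun t => ((w t * G t : ℝ) : ℂ) * cexp (I * σ * t) with hH
    have hHc : Continuous H := by rw [hH]; fun_prop
    have hHb : ∀ t, ‖H t‖ ≤ T ^ 4 := by
      intro t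
      rw [hH]
      simp only
      rw [norm_mul, TH803TW.tw_exp_norm, mul_one, Complex.norm_real, Real.norm_eq_abs,
        abs_of_nonneg (mul_nonneg (hw0 t).le (hG0 t))]
      calc w t * G t ≤ 1 * T ^ 4 := mul_le_mul (hw1 t) (hGM t) (hG0 t) zero_le_one
        _ = _ := one_mul _
    have hgn : ∀ n : ℕ, 0 ≤ ∑ z ∈ QQd P B0 T, gz P rr F T z * gx P.κ T σ z (Real.log n) := by
      intro n
      refine Finset.sum_nonneg fun z _ => mul_nonneg ?_ (gx_pos _ _ _ _ _).le
      unfold gz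
      positivity
    have hgb : ∀ n : ℕ, ∑ z ∈ QQd P B0 T, gz P rr F T z * gx P.κ T σ z (Real.log n) ≤
        ∑ z ∈ QQd P B0 T, gz P rr F T z := by
      intro n
      refine Finset.sum_le_sum fun z _ => ?_
      exact mul_le_of_le_one_right (by unfold gz; positivity) (gx_le_one _ _ _ _ _)
    have hsumg : Summable fun n : ℕ => |lk A c T n| *
        ∑ z ∈ QQd P B0 T, gz P rr F T z * gx P.κ T σ z (Real.log n) := by
      refine Summable.of_nonneg_of_le (fun n => mul_nonneg (abs_nonneg _) (hgn n)) (fun n => ?_)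
        (hs1.mul_right (∑ z ∈ QQd P B0 T, gz P rr F T z))
      exact mul_le_mul_of_nonneg_left (hgb n) (abs_nonneg _)
    have h1 := series_int H hHc hHb (lk A c T) hs1 V1 V2
      (fun n => 3 * D * (|lk A c T n| *
        ∑ z ∈ QQd P B0 T, gz P rr F T z * gx P.κ T σ z (Real.log n)) + |lk A c T n| * tl)
      (fun n => by
        have h2 := mul_le_mul_of_nonneg_left (hone' σ n) (abs_nonneg (lk A c T n))
        refine h2.trans (le_of_eq ?_)
        rw [htl]
        ring)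
      ((hsumg.mul_left _).add (hs1.mul_right _))
    refine h1.trans ?_
    rw [(hsumg.mul_left _).tsum_add (hs1.mul_right _), tsum_mul_left, tsum_mul_right]
    apply add_le_add
    · gcongr
    · refine le_trans ?_ htlL
      apply mul_le_mul_of_nonneg_right _ htl0
      linarith
  have hη1c : 12 * (1 + c) * η1 = η := by rw [hη1]; field_simp
  have hDL : 12 * (1 + c) * (D / L) ≤ η * D := by
    rw [mul_div_assoc', div_le_iff₀ hL0]
    rw [div_le_iff₀ hη] at l1
    nlinarith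
  have hη1c' : 12 * η1 ≤ η := by nlinarith [mul_pos hc hη10]
  have hDL' : 12 * (D / L) ≤ η * D := by
    have : 0 ≤ c * (D / L) := by positivity
    nlinarith
  have hDη : 12 * (D * η1) ≤ η * D := by nlinarith
  constructor
  · have h1 := hA1 τ q1
    refine h1.trans ?_
    have : 0 ≤ η * D := by positivity
    linarith
  · -- second claim
    have hSre : Continuous fun t => (S t).re := Complex.continuous_re.comp hScont
    have hZc := Zs_cont A c T (by linarith : 1 ≤ T)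
    set Z := Zs A c T with hZ
    set E := fun t : ℝ => cexp (I * τ * t) with hE
    have hEc : Continuous E := by rw [hE]; fun_prop
    have hEn : ∀ t, ‖E t‖ = 1 := fun t => TH803TW.tw_exp_norm τ t
    have hi1 : IntervalIntegrable (fun t => ((w t * G t * (Z t - (c - 2 / L * (S t).re)) : ℝ) : ℂ) *
        E t) volume V1 V2 := by
      apply Continuous.intervalIntegrable
      fun_prop
    have hi2 : IntervalIntegrable (fun t => (c : ℂ) * (((w t * G t : ℝ) : ℂ) * E t))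
        volume V1 V2 := by
      apply Continuous.intervalIntegrable
      fun_prop
    have hi3 : IntervalIntegrable (fun t => (1 / L : ℂ) * (((w t * G t : ℝ) : ℂ) * E t * S t))
        volume V1 V2 := by
      apply Continuous.intervalIntegrable
      fun_prop
    have hi4 : IntervalIntegrable (fun t => (1 / L : ℂ) * (((w t * G t : ℝ) : ℂ) * E t *
        (starRingEnd ℂ) (S t))) volume V1 V2 := by
      apply Continuous.intervalIntegrable
      fun_prop
    have hdec : ∀ t : ℝ, ((w t * G t * Z t : ℝ) : ℂ) * E t =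
        ((w t * G t * (Z t - (c - 2 / L * (S t).re)) : ℝ) : ℂ) * E t +
        (c : ℂ) * (((w t * G t : ℝ) : ℂ) * E t) -
        (1 / L : ℂ) * (((w t * G t : ℝ) : ℂ) * E t * S t) -
        (1 / L : ℂ) * (((w t * G t : ℝ) : ℂ) * E t * (starRingEnd ℂ) (S t)) := by
      intro t
      have h1 : (((S t).re : ℝ) : ℂ) = (S t + (starRingEnd ℂ) (S t)) / 2 := by
        rw [Complex.add_conj]
        push_cast
        ring
      push_cast
      rw [h1]
      have hLc : (L : ℂ) ≠ 0 := by exact_mod_cast hL0.ne'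
      field_simp
      ring
    have hexp : (∫ t in V1..V2, ((w t * G t * Z t : ℝ) : ℂ) * E t) =
        (∫ t in V1..V2, ((w t * G t * (Z t - (c - 2 / L * (S t).re)) : ℝ) : ℂ) * E t) +
        (c : ℂ) * (∫ t in V1..V2, ((w t * G t : ℝ) : ℂ) * E t) -
        (1 / L : ℂ) * (∫ t in V1..V2, ((w t * G t : ℝ) : ℂ) * E t * S t) -
        (1 / L : ℂ) * (∫ t in V1..V2, ((w t * G t : ℝ) : ℂ) * E t * (starRingEnd ℂ) (S t)) := by
      simp_rw [hdec]
      rw [intervalIntegral.integral_sub ((hi1.add hi2).sub hi3) hi4,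
        intervalIntegral.integral_sub (hi1.add hi2) hi3, intervalIntegral.integral_add hi1 hi2,
        intervalIntegral.integral_const_mul, intervalIntegral.integral_const_mul,
        intervalIntegral.integral_const_mul]
    have hconj : ‖∫ t in V1..V2, ((w t * G t : ℝ) : ℂ) * E t * (starRingEnd ℂ) (S t)‖ =
        ‖∫ t in V1..V2, ((w t * G t : ℝ) : ℂ) * cexp (I * ((-τ : ℝ) : ℂ) * t) * S t‖ := by
      have h1 : (starRingEnd ℂ) (∫ t in V1..V2, ((w t * G t : ℝ) : ℂ) *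
          cexp (I * ((-τ : ℝ) : ℂ) * t) * S t) =
          ∫ t in V1..V2, ((w t * G t : ℝ) : ℂ) * E t * (starRingEnd ℂ) (S t) := by
        rw [intervalIntegral.integral_of_le hV, intervalIntegral.integral_of_le hV,
          ← integral_conj]
        congr 1
        funext t
        rw [map_mul, map_mul, Complex.conj_ofReal, ← Complex.exp_conj, hE]
        simp only [map_mul, Complex.conj_I, Complex.conj_ofReal]
        congr 3
        push_cast
        ring
      rw [← h1, RCLike.norm_conj]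
    have herr : ‖∫ t in V1..V2, ((w t * G t * (Z t - (c - 2 / L * (S t).re)) : ℝ) : ℂ) * E t‖ ≤
        C1 / L * (C5 * D) := by
      calc _ ≤ ∫ t in V1..V2, (C1 / L) * (w t * G t) := by
            apply intervalIntegral.norm_integral_le_of_norm_le hV
            · apply Eventually.of_forall
              intro t ht
              rw [norm_mul, hEn, mul_one, Complex.norm_real, Real.norm_eq_abs, abs_mul,
                abs_of_nonneg (mul_nonneg (hw0 t).le (hG0 t)), mul_comm (C1 / L)]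
              apply mul_le_mul_of_nonneg_left _ (mul_nonneg (hw0 t).le (hG0 t))
              exact hzef T g1 t (by rw [hV1] at ht; linarith [ht.1])
                (by rw [hV2] at ht; linarith [ht.2])
            · apply Continuous.intervalIntegrable
              fun_prop
        _ = (C1 / L) * ∫ t in V1..V2, w t * G t := by rw [intervalIntegral.integral_const_mul]
        _ ≤ _ := by
            apply mul_le_mul_of_nonneg_left u1 (by positivity)
    have k1 := hA1 τ q1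
    have k2 := hB1 τ q2
    have k3 := hB1 (-τ) q2'
    rw [hexp]
    refine (norm_sub_le _ _).trans ?_
    refine (add_le_add (norm_sub_le _ _) le_rfl).trans ?_
    refine (add_le_add (add_le_add (norm_add_le _ _) le_rfl) le_rfl).trans ?_
    rw [norm_mul, norm_mul, norm_mul, hconj]
    have hcn : ‖(c : ℂ)‖ = c := by rw [Complex.norm_real, Real.norm_of_nonneg hc.le]
    have hLn : ‖(1 / L : ℂ)‖ = 1 / L := by
      rw [norm_div, norm_one, Complex.norm_real, Real.norm_of_nonneg hL0.le]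
    rw [hcn, hLn]
    have hk : 1 / L * (3 * D * (η1 * L) + D / L) ≤ 3 * (D * η1) + D / L := by
      have h1 : 1 / L * (3 * D * (η1 * L) + D / L) = 3 * (D * η1) + (D / L) / L := by
        field_simp
      rw [h1]
      have h2 : (D / L) / L ≤ D / L := div_le_self (by positivity) hL1
      linarith
    have h1 : C1 / L * (C5 * D) ≤ η * D / 4 := by
      rw [div_le_iff₀ hη] at l2
      rw [div_mul_eq_mul_div, div_le_iff₀ hL0]
      have : C1 * (C5 * D) ≤ η * L / 4 * D := by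
        have : C1 * C5 ≤ η * L / 4 := by linarith
        calc C1 * (C5 * D) = (C1 * C5) * D := by ring
          _ ≤ _ := by gcongr
      linarith
    have h2 : c * ‖∫ t in V1..V2, ((w t * G t : ℝ) : ℂ) * E t‖ ≤ c * (3 * D * η1 + D / L) :=
      mul_le_mul_of_nonneg_left k1 hc.le
    have h3 : 1 / L * ‖∫ t in V1..V2, ((w t * G t : ℝ) : ℂ) * E t * S t‖ ≤
        3 * (D * η1) + D / L := by
      refine le_trans ?_ hk
      exact mul_le_mul_of_nonneg_left k2 (by positivity)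
    have h4 : 1 / L * ‖∫ t in V1..V2, ((w t * G t : ℝ) : ℂ) * cexp (I * ((-τ : ℝ) : ℂ) * t) *
        S t‖ ≤ 3 * (D * η1) + D / L := by
      refine le_trans ?_ hk
      exact mul_le_mul_of_nonneg_left k3 (by positivity)
    have h5 : c * (D * η1) ≤ η * D / 12 - D * η1 := by
      have : (1 + c) * (D * η1) = η * D / 12 := by rw [← hη1c]; ring
      linarith
    have h6 : c * (D / L) ≤ η * D / 12 - D / L := by linarith
    have h7 : c * (3 * D * η1 + D / L) = 3 * (c * (D * η1)) + c * (D / L) := by ring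
    rw [h7] at h2
    have h8 : 0 ≤ D * η1 := by positivity
    have h9 : 0 ≤ D / L := by positivity
    linarith

end Pool.Agent.Run7.h195.LB
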