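import Pool.Agent.TH803.TW.Near

/-! Sums over nearly proportional pairs, twisted by a von Mangoldt type function. -/

open Finset ArithmeticFunction

namespace Pool.Agent.Run7.h195.LB

open TH803TW

/-- rational approximation with small denominator -/
lemma dirichlet (r δ : ℝ) (hδ : 0 < δ) (hδ1 : δ ≤ 1 / 4) : ∃ a b : ℤ, 0 < b ∧ IsCoprime a b ∧
    (b : ℝ) * δ ≤ 1 / 2 ∧ |(b : ℝ) * r - a| < 2 * δ := by
  set n : ℕ := ⌊1 / (2 * δ)⌋₊ with hn
  have h1 : (1 : ℝ) ≤ 1 / (2 * δ) := by
    rw [le_div_iff₀ (by positivity)]; linarith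
  have hn0 : 0 < n := Nat.floor_pos.2 h1
  have hn1 : (n : ℝ) ≤ 1 / (2 * δ) := Nat.floor_le (by positivity)
  have hn2 : 1 / (2 * δ) < n + 1 := Nat.lt_floor_add_one _
  obtain ⟨q, hq1, hq2⟩ := Real.exists_rat_abs_sub_le_and_den_le r hn0
  have hd : (0 : ℝ) < q.den := by exact_mod_cast q.den_pos
  refine ⟨q.num, q.den, by exact_mod_cast q.den_pos, ?_, ?_, ?_⟩
  · rw [Int.isCoprime_iff_gcd_eq_one]
    exact q.reduced
  · have h3 : (q.den : ℝ) ≤ n := by exact_mod_cast hq2
    have h4 : (q.den : ℝ) ≤ 1 / (2 * δ) := h3.trans hn1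
    rw [le_div_iff₀ (by positivity)] at h4
    have h5 : (((q.den : ℤ)) : ℝ) = q.den := by norm_cast
    rw [h5]
    linarith
  · have h5 : (((q.den : ℤ)) : ℝ) = q.den := by norm_cast
    rw [h5]
    have e : (q.den : ℝ) * r - q.num = q.den * (r - q) := by
      have : (q : ℝ) = q.num / q.den := by
        exact_mod_cast (Rat.num_div_den q).symm
      rw [this]
      field_simp
    rw [e, abs_mul, abs_of_pos hd]
    calc (q.den : ℝ) * |r - q| ≤ q.den * (1 / ((n + 1) * q.den)) := by gcongr
      _ = 1 / (n + 1) := by field_simp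
      _ < 2 * δ := by
          rw [div_lt_iff₀ (by positivity)]
          rw [div_lt_iff₀ (by positivity)] at hn2
          linarith

/-- `Λ(n) + [n = 1]` -/
noncomputable def th (n : ℕ) : ℝ := vonMangoldt n + if n = 1 then 1 else 0

lemma th_nonneg (n : ℕ) : 0 ≤ th n := by
  unfold th
  have := vonMangoldt_nonneg (n := n)
  split_ifs <;> linarith

lemma th_sum {N : ℕ} (hN : 1 ≤ N) : ∑ n ∈ N.divisors, th n = Real.log N + 1 := by
  unfold th
  rw [sum_add_distrib, vonMangoldt_sum, sum_ite_eq']
  rw [if_pos]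
  rw [Nat.mem_divisors]
  exact ⟨one_dvd _, by omega⟩

/-- hypotheses on the family -/
structure Fam {ι : Type*} (S : Finset ι) (m1 m2 : ι → ℕ) (g : ι → ℝ) (K M R : ℝ) : Prop where
  g0 : ∀ z ∈ S, 0 ≤ g z
  gK : ∀ z ∈ S, g z ≤ K / Real.sqrt (m1 z * m2 z)
  p1 : ∀ z ∈ S, 1 ≤ m1 z
  p2 : ∀ z ∈ S, 1 ≤ m2 z
  fib : ∀ u v : ℕ, ((S.filter (fun z => m1 z = u ∧ m2 z = v)).card : ℝ) ≤ M
  big : ∀ z ∈ S, ∀ p : ℕ, p.Prime → p ∣ m1 z ∨ p ∣ m2 z → R ≤ p

section

variable {ι : Type*} {S : Finset ι} {m1 m2 : ι → ℕ} {g : ι → ℝ} {K M R : ℝ}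

/-- contribution of one pair -/
lemma pair_sum (h : Fam S m1 m2 g K M R) (hK : 0 ≤ K) {lam : ℕ → ℝ} {Cl : ℝ} (hCl : 0 ≤ Cl)
    (hlam : ∀ n, 1 ≤ n → 0 ≤ lam n ∧ lam n ≤ Cl * th n / Real.sqrt n) {u N : ℕ} (hu : 1 ≤ u)
    (hN : 1 ≤ N) :
    ∑ x ∈ (S ×ˢ N.divisors).filter (fun x => m1 x.1 = u ∧ x.2 * m2 x.1 = N), lam x.2 * g x.1 ≤
      Cl * K * M * (Real.log N + 1) / Real.sqrt (u * N) := by
  classical
  have hM : 0 ≤ M := (Nat.cast_nonneg _).trans (h.fib 0 0)
  have hu0 : (0 : ℝ) < u := by exact_mod_cast hu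
  have hN0 : (0 : ℝ) < N := by exact_mod_cast hN
  rw [sum_filter, sum_product_right]
  have key : ∀ n ∈ N.divisors, ∑ z ∈ S, (if m1 z = u ∧ n * m2 z = N then lam n * g z else 0) ≤
      Cl * K * M / Real.sqrt (u * N) * th n := by
    intro n hn
    have hn1 : 1 ≤ n := Nat.pos_of_mem_divisors hn
    have hn0 : (0 : ℝ) < n := by exact_mod_cast hn1
    obtain ⟨v, hv⟩ := (Nat.mem_divisors.1 hn).1
    have hv0 : 1 ≤ v := by
      rcases Nat.eq_zero_or_pos v with h0 | h0
      · rw [h0, mul_zero] at hv; omega
      · exact h0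
    have hvr : (0 : ℝ) < v := by exact_mod_cast hv0
    obtain ⟨l0, l1⟩ := hlam n hn1
    rw [← sum_filter]
    have hsub : S.filter (fun z => m1 z = u ∧ n * m2 z = N) =
        S.filter (fun z => m1 z = u ∧ m2 z = v) := by
      apply filter_congr
      intro z _
      constructor
      · rintro ⟨a1, a2⟩
        refine ⟨a1, ?_⟩
        rw [hv] at a2
        exact Nat.eq_of_mul_eq_mul_left (by omega) a2
      · rintro ⟨a1, a2⟩
        exact ⟨a1, by rw [a2, hv]⟩
    rw [hsub]
    have hbd : ∀ z ∈ S.filter (fun z => m1 z = u ∧ m2 z = v),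
        lam n * g z ≤ Cl * th n / Real.sqrt n * (K / Real.sqrt (u * v)) := by
      intro z hz
      obtain ⟨hz1, hz2, hz3⟩ := mem_filter.1 hz
      have h1 := h.gK z hz1
      rw [hz2, hz3] at h1
      have h2 := h.g0 z hz1
      have h3 := th_nonneg n
      exact mul_le_mul l1 h1 h2 (l0.trans l1)
    refine (sum_le_sum hbd).trans ?_
    rw [sum_const, nsmul_eq_mul]
    have e1 : Cl * th n / Real.sqrt n * (K / Real.sqrt (u * v)) =
        Cl * K / Real.sqrt (u * N) * th n := by
      have e2 : (N : ℝ) = n * v := by rw [hv]; push_cast; ring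
      rw [e2, show (u : ℝ) * (n * v) = n * (u * v) by ring, Real.sqrt_mul hn0.le (u * v)]
      field_simp
    rw [e1]
    have h3 := th_nonneg n
    calc ((S.filter (fun z => m1 z = u ∧ m2 z = v)).card : ℝ) *
          (Cl * K / Real.sqrt (u * N) * th n) ≤ M * (Cl * K / Real.sqrt (u * N) * th n) := by
          apply mul_le_mul_of_nonneg_right (h.fib u v) (by positivity)
      _ = _ := by ring
  refine (sum_le_sum key).trans (le_of_eq ?_)
  rw [← mul_sum, th_sum hN]
  ring

/-- near pairs, `N = n m₂` close to `r m₁` -/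
theorem near_sum (h : Fam S m1 m2 g K M R) (hK : 0 ≤ K) {lam : ℕ → ℝ} {Cl : ℝ} (hCl : 0 ≤ Cl)
    (hlam : ∀ n, 1 ≤ n → 0 ≤ lam n ∧ lam n ≤ Cl * th n / Real.sqrt n) {r δ : ℝ} (hr : 0 < r)
    (hr1 : r ≠ 1) (hrR : r < R) (hR : 2 ≤ R) (hδ : 0 < δ) (hδ1 : δ ≤ 1 / 4)
    (hint : ∀ a : ℤ, |r - a| < 2 * δ → r = a) {Xn Y : ℕ}
    (hX : ∀ z ∈ S, (r + 1) * m1 z ≤ Xn) {E0 : ℝ} (hE0 : 0 ≤ E0)
    (hE : ∀ a : ℕ, 2 ≤ a → (a : ℝ) = r → lam a * ∑ z ∈ S.filter (fun z => m1 z = m2 z), g z ≤ E0) :
    ∑ x ∈ (S ×ˢ Icc 1 Y).filter (fun x => |((x.2 * m2 x.1 : ℕ) : ℝ) - m1 x.1 * r| < δ),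
      lam x.2 * g x.1 ≤
      Cl * K * M * (Real.log Xn + 1) * (2 / Real.sqrt r) *
        ((16 * δ + 1 / R) * (1 + Real.log Xn)) + E0 := by
  classical
  have hM : 0 ≤ M := (Nat.cast_nonneg _).trans (h.fib 0 0)
  obtain ⟨a, b, hb, hab, hbδ, hκ⟩ := dirichlet r δ hδ hδ1
  set T := (S ×ˢ Icc 1 Y).filter (fun x => |((x.2 * m2 x.1 : ℕ) : ℝ) - m1 x.1 * r| < δ) with hT
  have hTm : ∀ x ∈ T, x.1 ∈ S ∧ 1 ≤ x.2 ∧ |((x.2 * m2 x.1 : ℕ) : ℝ) - m1 x.1 * r| < δ := by
    intro x hx
    rw [hT, mem_filter, mem_product, mem_Icc] at hx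
    exact ⟨hx.1.1, hx.1.2.1, hx.2⟩
  set Φ : ι × ℕ → ℕ × ℕ := fun x => (m1 x.1, x.2 * m2 x.1) with hΦ
  have hmap : ∀ x ∈ T, Φ x ∈ near r δ Xn := by
    intro x hx
    obtain ⟨a1, a2, a3⟩ := hTm x hx
    have b1 := h.p1 _ a1
    have b2 := h.p2 _ a1
    have b3 := hX _ a1
    have b1' : (1 : ℝ) ≤ m1 x.1 := by exact_mod_cast b1
    rw [mem_near]
    refine ⟨⟨b1, ?_⟩, ⟨Nat.mul_pos a2 b2, ?_⟩, a3⟩
    · have : (m1 x.1 : ℝ) ≤ Xn := by nlinarith
      exact_mod_cast this
    · have h1 := (abs_lt.1 a3).2
      have : ((x.2 * m2 x.1 : ℕ) : ℝ) ≤ Xn := by nlinarith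
      exact_mod_cast this
  have hX1 : T.Nonempty → 1 ≤ Xn := by
    rintro ⟨x, hx⟩
    have := mem_near.1 (hmap x hx)
    omega
  rcases T.eq_empty_or_nonempty with hTe | hTne
  · rw [hTe, sum_empty]
    have h1 : 0 ≤ Real.log Xn := Real.log_natCast_nonneg Xn
    positivity
  have hXn := hX1 hTne
  have hlX : 0 ≤ Real.log Xn := Real.log_natCast_nonneg Xn
  have hXr : (1 : ℝ) ≤ Xn := by exact_mod_cast hXn
  set W : ℝ := Cl * K * M * (Real.log Xn + 1) * (2 / Real.sqrt r) with hW
  have hW0 : 0 ≤ W := by positivity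
  have hsr : 0 < Real.sqrt r := Real.sqrt_pos.2 hr
  -- the fibres
  have hfib : ∀ p ∈ near r δ Xn, ∑ x ∈ T.filter (fun x => Φ x = p), lam x.2 * g x.1 ≤
      W * (1 / (p.1 : ℝ)) := by
    intro p hp
    obtain ⟨⟨p1, p2⟩, ⟨p3, p4⟩, p5⟩ := mem_near.1 hp
    have hu0 : (0 : ℝ) < p.1 := by exact_mod_cast p1
    have hN0 : (0 : ℝ) < p.2 := by exact_mod_cast p3
    have hN1 : (1 : ℝ) ≤ p.2 := by exact_mod_cast p3
    have h1 := pair_sum h hK hCl hlam p1 p3
    have hsub : T.filter (fun x => Φ x = p) ⊆
        (S ×ˢ p.2.divisors).filter (fun x => m1 x.1 = p.1 ∧ x.2 * m2 x.1 = p.2) := by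
      intro x hx
      rw [mem_filter] at hx
      obtain ⟨a1, a2, a3⟩ := hTm x hx.1
      have e1 : m1 x.1 = p.1 := congrArg Prod.fst hx.2
      have e2 : x.2 * m2 x.1 = p.2 := congrArg Prod.snd hx.2
      rw [mem_filter, mem_product, Nat.mem_divisors]
      exact ⟨⟨a1, ⟨m2 x.1, e2.symm⟩, by omega⟩, e1, e2⟩
    refine (sum_le_sum_of_subset_of_nonneg hsub fun x hx _ => ?_).trans (h1.trans ?_)
    · rw [mem_filter, mem_product] at hx
      exact mul_nonneg (hlam _ (Nat.pos_of_mem_divisors hx.1.2)).1 (h.g0 _ hx.1.1)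
    · have hlog : Real.log p.2 ≤ Real.log Xn := Real.log_le_log hN0 (by exact_mod_cast p4)
      have hlog0 : 0 ≤ Real.log p.2 := Real.log_natCast_nonneg _
      have hlow : r / 4 * p.1 ^ 2 ≤ p.1 * p.2 := by
        have h2 := (abs_lt.1 p5).1
        have h3 : r / 4 * p.1 ≤ p.2 := by nlinarith
        nlinarith
      have hsq : Real.sqrt r / 2 * p.1 ≤ Real.sqrt (p.1 * p.2) := by
        apply Real.le_sqrt_of_sq_le
        calc (Real.sqrt r / 2 * p.1) ^ 2 = (Real.sqrt r) ^ 2 / 4 * p.1 ^ 2 := by ring
          _ = r / 4 * p.1 ^ 2 := by rw [Real.sq_sqrt hr.le]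
          _ ≤ _ := hlow
      calc Cl * K * M * (Real.log p.2 + 1) / Real.sqrt (p.1 * p.2) ≤
          Cl * K * M * (Real.log Xn + 1) / (Real.sqrt r / 2 * p.1) := by
            gcongr
        _ = W * (1 / (p.1 : ℝ)) := by rw [hW]; field_simp
  have hpos : ∀ x ∈ T, 0 ≤ lam x.2 * g x.1 := fun x hx => by
    obtain ⟨a1, a2, a3⟩ := hTm x hx
    exact mul_nonneg (hlam _ a2).1 (h.g0 _ a1)
  -- split
  rw [← sum_filter_add_sum_filter_not T (fun x => cdet a b (Φ x) ≠ 0)]
  have hoff : ∑ x ∈ T.filter (fun x => cdet a b (Φ x) ≠ 0), lam x.2 * g x.1 ≤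
      W * (16 * δ * (1 + Real.log Xn)) := by
    have hm : ∀ x ∈ T.filter (fun x => cdet a b (Φ x) ≠ 0),
        Φ x ∈ (near r δ Xn).filter (fun p => cdet a b p ≠ 0) := by
      intro x hx
      rw [mem_filter] at hx ⊢
      exact ⟨hmap x hx.1, hx.2⟩
    rw [← sum_fiberwise_of_maps_to hm]
    calc _ ≤ ∑ p ∈ (near r δ Xn).filter (fun p => cdet a b p ≠ 0), W * (1 / (p.1 : ℝ)) := by
          refine sum_le_sum fun p hp => ?_
          refine le_trans ?_ (hfib p (mem_filter.1 hp).1)
          apply sum_le_sum_of_subset_of_nonneg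
          · intro x hx
            rw [mem_filter] at hx ⊢
            exact ⟨(mem_filter.1 hx.1).1, hx.2⟩
          · intro x hx _
            exact hpos x (mem_filter.1 hx).1
      _ = W * ∑ p ∈ (near r δ Xn).filter (fun p => cdet a b p ≠ 0), 1 / (p.1 : ℝ) := by
          rw [mul_sum]
      _ ≤ _ := by
          have := off_sum (X := Xn) hδ hδ1 hb hab hbδ hκ
          gcongr
  have hon : ∑ x ∈ T.filter (fun x => ¬ cdet a b (Φ x) ≠ 0), lam x.2 * g x.1 ≤
      W * (1 / R * (1 + Real.log Xn)) + E0 := by
    set T0 := T.filter (fun x => ¬ cdet a b (Φ x) ≠ 0) with hT0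
    have hT0m : ∀ x ∈ T0, x ∈ T ∧ ((x.2 * m2 x.1 : ℕ) : ℤ) * b = (m1 x.1 : ℤ) * a := by
      intro x hx
      rw [hT0, mem_filter, not_not] at hx
      refine ⟨hx.1, ?_⟩
      have := hx.2
      unfold cdet at this
      simp only [hΦ] at this
      linarith
    have hbdvd : ∀ x ∈ T0, b ∣ (m1 x.1 : ℤ) := by
      intro x hx
      have h1 := (hT0m x hx).2
      have h2 : b ∣ (m1 x.1 : ℤ) * a := ⟨_, by rw [← h1]; ring⟩
      exact hab.symm.dvd_of_dvd_mul_right h2
    have hR0 : 0 < R := by linarith
    by_cases hbR : R ≤ (b : ℝ)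
    · -- large denominator
      have h1 : ∑ x ∈ T0, lam x.2 * g x.1 ≤ W * (1 / R * (1 + Real.log Xn)) := by
        set Z := (near r δ Xn).filter (fun p => b ∣ (p.1 : ℤ) ∧ (p.2 : ℤ) * b = (p.1 : ℤ) * a)
          with hZ
        have hm : ∀ x ∈ T0, Φ x ∈ Z := by
          intro x hx
          rw [hZ, mem_filter]
          exact ⟨hmap x (hT0m x hx).1, hbdvd x hx, (hT0m x hx).2⟩
        rw [← sum_fiberwise_of_maps_to hm]
        calc _ ≤ ∑ p ∈ Z, W * (1 / (p.1 : ℝ)) := by
              refine sum_le_sum fun p hp => ?_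
              refine le_trans ?_ (hfib p (mem_filter.1 hp).1)
              apply sum_le_sum_of_subset_of_nonneg
              · intro x hx
                rw [mem_filter] at hx ⊢
                exact ⟨(mem_filter.1 hx.1).1, hx.2⟩
              · intro x hx _
                exact hpos x (mem_filter.1 hx).1
          _ = W * ∑ p ∈ Z, 1 / (p.1 : ℝ) := by rw [mul_sum]
          _ ≤ _ := by
              apply mul_le_mul_of_nonneg_left _ hW0
              obtain ⟨B, hB⟩ := Int.eq_ofNat_of_zero_le hb.le
              have hB0 : 0 < B := by rw [hB] at hb; exact_mod_cast hb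
              have hBr : (0 : ℝ) < B := by exact_mod_cast hB0
              have hBR : R ≤ (B : ℝ) := by rw [hB] at hbR; exact_mod_cast hbR
              have hZm : ∀ p ∈ Z, p.1 / B ∈ Icc 1 Xn := by
                intro p hp
                rw [hZ, mem_filter] at hp
                obtain ⟨⟨p1, p2⟩, _, _⟩ := mem_near.1 hp.1
                have hd : B ∣ p.1 := by
                  have := hp.2.1
                  rw [hB] at this
                  exact_mod_cast this
                rw [mem_Icc]
                exact ⟨Nat.div_pos (Nat.le_of_dvd p1 hd) hB0, (Nat.div_le_self _ _).trans p2⟩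
              have hinj : ∀ p ∈ Z, ∀ q ∈ Z, p.1 / B = q.1 / B → p = q := by
                intro p hp q hq hpq
                rw [hZ, mem_filter] at hp hq
                have hd1 : B ∣ p.1 := by
                  have := hp.2.1
                  rw [hB] at this
                  exact_mod_cast this
                have hd2 : B ∣ q.1 := by
                  have := hq.2.1
                  rw [hB] at this
                  exact_mod_cast this
                have e1 : p.1 = q.1 := by
                  rw [← Nat.div_mul_cancel hd1, ← Nat.div_mul_cancel hd2, hpq]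
                have e2 : (p.2 : ℤ) * b = (q.2 : ℤ) * b := by
                  rw [hp.2.2, hq.2.2, e1]
                have e3 : (p.2 : ℤ) = q.2 := mul_right_cancel₀ hb.ne' e2
                exact Prod.ext e1 (by exact_mod_cast e3)
              have h2 : ∑ p ∈ Z, 1 / (p.1 : ℝ) ≤ ∑ k ∈ Icc 1 Xn, 1 / R * (1 / (k : ℝ)) := by
                calc ∑ p ∈ Z, 1 / (p.1 : ℝ) ≤ ∑ p ∈ Z, 1 / R * (1 / ((p.1 / B : ℕ) : ℝ)) := by
                      refine sum_le_sum fun p hp => ?_
                      have hq := hZm p hp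
                      rw [mem_Icc] at hq
                      rw [hZ, mem_filter] at hp
                      have hd : B ∣ p.1 := by
                        have := hp.2.1
                        rw [hB] at this
                        exact_mod_cast this
                      have e1 : (p.1 : ℝ) = ((p.1 / B : ℕ) : ℝ) * B := by
                        exact_mod_cast (Nat.div_mul_cancel hd).symm
                      have hk : (0 : ℝ) < ((p.1 / B : ℕ) : ℝ) := by exact_mod_cast hq.1
                      rw [e1]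
                      rw [one_div_mul_one_div]
                      apply one_div_le_one_div_of_le (by positivity)
                      rw [mul_comm]
                      exact mul_le_mul_of_nonneg_left hBR hk.le
                  _ = ∑ k ∈ Z.image (fun p => p.1 / B), 1 / R * (1 / (k : ℝ)) := by
                      rw [sum_image (fun p hp q hq h => hinj p hp q hq h)]
                  _ ≤ _ := by
                      apply sum_le_sum_of_subset_of_nonneg
                      · intro k hk
                        obtain ⟨p, hp, rfl⟩ := mem_image.1 hk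
                        exact hZm p hp
                      · intro k _ _
                        positivity
              rw [← mul_sum] at h2
              refine h2.trans ?_
              have := harm Xn
              gcongr
      linarith
    · push Not at hbR
      by_cases hb1 : b = 1
      · -- integral ratio
        have hra : r = a := by
          apply hint
          rw [hb1] at hκ
          simpa using hκ
        have ha2 : 2 ≤ a := by
          have h1 : (0 : ℝ) < a := by rw [← hra]; exact hr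
          have h2 : 0 < a := by exact_mod_cast h1
          have h3 : a ≠ 1 := by
            rintro rfl
            exact hr1 (by rw [hra]; norm_num)
          omega
        obtain ⟨A, rfl⟩ := Int.eq_ofNat_of_zero_le (by omega : 0 ≤ a)
        have hA2 : 2 ≤ A := by exact_mod_cast ha2
        have hAr : (A : ℝ) = r := by rw [hra]; norm_cast
        have hEA := hE A hA2 hAr
        have hsmall : ∀ z ∈ S, Nat.Coprime A (m2 z) ∧ Nat.Coprime A (m1 z) := by
          intro z hz
          constructor
          · apply Nat.Coprime.symm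
            apply Nat.coprime_of_dvd
            intro p hp hp1 hp2
            have h1 := h.big z hz p hp (Or.inr hp1)
            have h2 : p ≤ A := Nat.le_of_dvd (by omega) hp2
            have h3 : (p : ℝ) ≤ A := by exact_mod_cast h2
            linarith
          · apply Nat.Coprime.symm
            apply Nat.coprime_of_dvd
            intro p hp hp1 hp2
            have h1 := h.big z hz p hp (Or.inl hp1)
            have h2 : p ≤ A := Nat.le_of_dvd (by omega) hp2
            have h3 : (p : ℝ) ≤ A := by exact_mod_cast h2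
            linarith
        -- the only `n` is `A`
        have honly : ∀ x ∈ T0, lam x.2 * g x.1 ≠ 0 → x.2 = A ∧ m1 x.1 = m2 x.1 := by
          intro x hx hne
          obtain ⟨hxT, hx2⟩ := hT0m x hx
          obtain ⟨a1, a2, a3⟩ := hTm x hxT
          obtain ⟨c1, c2⟩ := hsmall _ a1
          have hth : th x.2 ≠ 0 := by
            intro h0
            apply hne
            have := hlam _ a2
            rw [h0, mul_zero, zero_div] at this
            rw [le_antisymm this.2 this.1, zero_mul]
          have heq : x.2 * m2 x.1 = m1 x.1 * A := by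
            rw [hb1, mul_one] at hx2
            exact_mod_cast hx2
          have hAdvd : A ∣ x.2 := by
            have h1 : A ∣ x.2 * m2 x.1 := ⟨m1 x.1, by rw [heq]; ring⟩
            exact c1.dvd_of_dvd_mul_right h1
          obtain ⟨n', hn'⟩ := hAdvd
          have heq2 : n' * m2 x.1 = m1 x.1 := by
            have h1 : A * (n' * m2 x.1) = A * m1 x.1 := by
              rw [← mul_assoc, ← hn', heq]; ring
            exact Nat.eq_of_mul_eq_mul_left (by omega) h1
          have hpp : IsPrimePow x.2 := by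
            by_contra hcon
            apply hth
            unfold th
            rw [vonMangoldt_apply, if_neg hcon, zero_add, if_neg]
            rintro h1
            rw [h1] at hn'
            have : A ≤ 1 := Nat.le_of_dvd one_pos ⟨n', hn'⟩
            omega
          have hn1 : n' = 1 := by
            by_contra hcon
            obtain ⟨l, k, hl, hk, hlk⟩ := hpp
            have hlp : l.Prime := Nat.prime_iff.2 hl
            have hn0 : n' ≠ 0 := by
              rintro rfl
              rw [mul_zero] at hn'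
              omega
            have h1 : n' ∣ l ^ k := ⟨A, by rw [hlk, hn']; ring⟩
            obtain ⟨i, hi, hi2⟩ := (Nat.dvd_prime_pow hlp).1 h1
            have hi0 : i ≠ 0 := by
              rintro rfl
              apply hcon
              rw [hi2, pow_zero]
            have h2 : l ∣ n' := by rw [hi2]; exact dvd_pow_self l hi0
            have h3 : A ∣ l ^ k := ⟨n', by rw [hlk, hn']⟩
            obtain ⟨j, hj, hj2⟩ := (Nat.dvd_prime_pow hlp).1 h3
            have hj0 : j ≠ 0 := by
              rintro rfl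
              rw [pow_zero] at hj2
              omega
            have h4 : l ∣ A := by rw [hj2]; exact dvd_pow_self l hj0
            have h5 : l ≤ A := Nat.le_of_dvd (by omega) h4
            have h6 := h.big _ a1 l hlp (Or.inl (h2.trans ⟨m2 x.1, heq2.symm⟩))
            have h7 : (l : ℝ) ≤ A := by exact_mod_cast h5
            linarith
          rw [hn1, one_mul] at heq2
          rw [hn1, mul_one] at hn'
          exact ⟨hn', heq2.symm⟩
        have hsum : ∑ x ∈ T0, lam x.2 * g x.1 ≤
            lam A * ∑ z ∈ S.filter (fun z => m1 z = m2 z), g z := by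
          rw [← sum_filter_ne_zero]
          have hinj : ∀ x ∈ T0.filter (fun x => lam x.2 * g x.1 ≠ 0),
              ∀ y ∈ T0.filter (fun x => lam x.2 * g x.1 ≠ 0), x.1 = y.1 → x = y := by
            intro x hx y hy hxy
            rw [mem_filter] at hx hy
            exact Prod.ext hxy (by rw [(honly x hx.1 hx.2).1, (honly y hy.1 hy.2).1])
          calc _ = ∑ x ∈ T0.filter (fun x => lam x.2 * g x.1 ≠ 0), lam A * g x.1 := by
                refine sum_congr rfl fun x hx => ?_
                rw [mem_filter] at hx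
                rw [(honly x hx.1 hx.2).1]
            _ = ∑ z ∈ (T0.filter (fun x => lam x.2 * g x.1 ≠ 0)).image Prod.fst, lam A * g z := by
                rw [sum_image (fun x hx y hy h => hinj x hx y hy h)]
            _ ≤ ∑ z ∈ S.filter (fun z => m1 z = m2 z), lam A * g z := by
                apply sum_le_sum_of_subset_of_nonneg
                · intro z hz
                  obtain ⟨x, hx, rfl⟩ := mem_image.1 hz
                  rw [mem_filter] at hx
                  rw [mem_filter]
                  exact ⟨(hTm x (hT0m x hx.1).1).1, (honly x hx.1 hx.2).2⟩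
                · intro z hz _
                  exact mul_nonneg (hlam A (by omega)).1 (h.g0 z (mem_filter.1 hz).1)
            _ = _ := by rw [mul_sum]
        have h0 : 0 ≤ W * (1 / R * (1 + Real.log Xn)) := by positivity
        linarith
      · -- impossible denominators
        have hem : T0 = ∅ := by
          rw [eq_empty_iff_forall_notMem]
          intro x hx
          have h1 := hbdvd x hx
          obtain ⟨B, hB⟩ := Int.eq_ofNat_of_zero_le hb.le
          have hB2 : 2 ≤ B := by omega
          obtain ⟨p, hp, hpB⟩ := Nat.exists_prime_and_dvd (n := B) (by omega)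
          have hd : B ∣ m1 x.1 := by
            rw [hB] at h1
            exact_mod_cast h1
          obtain ⟨a1, a2, a3⟩ := hTm x (hT0m x hx).1
          have h2 := h.big _ a1 p hp (Or.inl (hpB.trans hd))
          have h3 : (p : ℝ) ≤ B := by exact_mod_cast Nat.le_of_dvd (by omega) hpB
          have h4 : (B : ℝ) < R := by rw [hB] at hbR; exact_mod_cast hbR
          linarith
        rw [hem, sum_empty]
        positivity
  calc _ ≤ W * (16 * δ * (1 + Real.log Xn)) + (W * (1 / R * (1 + Real.log Xn)) + E0) :=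
        add_le_add hoff hon
    _ = _ := by ring

end

end Pool.Agent.Run7.h195.LB
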