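import Pool.Agent.Run7.h195.LB.SmGlob
import Pool.Agent.N748.UG.Big

/-! Small gaps of the zeros at the zeros where `ζ` is close to a given function. -/

open Complex Filter Topology Set MeasureTheory

namespace Pool.Agent.Run7.h195.LB

open SP ZU H370 H370.A2 H370.A3 H370.AS H295SI TH803TW TH803UC R304.UN R304.UP R304.UQ R482.GB
open SG (ord NZ)
open LG (dlt)
open N748.UG

/-- **small gaps with a functional of the shifts of zeta as weight** -/
theorem small_fnl' (hRH : RiemannHypothesis) (m0 : ℝ) (hm0 : 0 < m0) : ∃ ε : ℝ, 0 < ε ∧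
    ∀ K : Set ℂ, IsCompact K → K ⊆ {z | 1 / 2 < z.re ∧ z.re < 1} →
      ∀ Φ : (ℂ → ℂ) → ℝ, Fnl K Φ 1 → (∀ g, 0 ≤ Φ g) → ∀ m : ℝ,
      Tendsto (fun X : ℝ => (∫ t in (0 : ℝ)..X, Φ (sh t)) / X) atTop (𝓝 m) → m0 ≤ m →
      ∃ N0 : ℕ, ∀ N : ℕ, N0 ≤ N →
        ε * N ≤ ∑ n ∈ (Finset.Icc 1 N).filter (fun n => dlt n ≤ 50498 / 100000), Φ (sh (ord n)) := by
  classical
  obtain ⟨ε, hε, hsm⟩ := small_idx' hRH (m0 / 2) (by positivity)
  refine ⟨ε / 2, by positivity, fun K hK hKs Φ hΦ hΦ0 m hm hmm => ?_⟩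
  obtain ⟨C, T1, hC, hT1, hfew⟩ := few_zeros
  obtain ⟨C', hC', hidx⟩ := idx_of_NU hRH
  obtain ⟨ε1, hε1⟩ : ∃ x, x = min (m0 / 2) (ε / 4) := ⟨_, rfl⟩
  have hε10 : 0 < ε1 := by rw [hε1]; positivity
  have hε1a : ε1 ≤ m0 / 2 := by rw [hε1]; exact min_le_left _ _
  have hε1b : ε1 ≤ ε / 4 := by rw [hε1]; exact min_le_right _ _
  obtain ⟨M, g, Bd, q1, q2, q3, X0, hX0, q4⟩ := approxm hK hKs hΦ hm (ε := ε1)
    (η := ε / (4 * C * C')) hε10 (by positivity)
  set F : C(UnitAddTorus (Fin (pr M).card), ℝ) := ⟨fun x => max (g x) 0, by fun_prop⟩ with hF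
  have hFa : ∀ x, F x = max (g x) 0 := fun x => rfl
  have hF0 : ∀ x, 0 ≤ F x := fun x => by rw [hFa]; exact le_max_right _ _
  have hF1 : ∀ x, F x ≤ 1 := fun x => by
    rw [hFa]
    exact max_le ((le_abs_self _).trans (q2 x)) zero_le_one
  have hgF : ∫ x, g x ∂(haarT (pr M).card) ≤ ∫ x, F x ∂(haarT (pr M).card) := by
    refine integral_mono ?_ ?_ fun x => ?_
    · exact (map_continuous g).integrable_of_hasCompactSupport (HasCompactSupport.of_compactSpace _)
    · exact (map_continuous F).integrable_of_hasCompactSupport (HasCompactSupport.of_compactSpace _)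
    · rw [hFa]
      exact le_max_left _ _
  have hFm : m0 / 2 ≤ ∫ x, F x ∂(haarT (pr M).card) := by
    have := (abs_le.1 q3).2
    linarith
  obtain ⟨N1, hN1⟩ := hsm (fun t => F (torusPt (al M) t)) _ (APm_torus (al_indep M) F)
    (fun t => hF0 _) (fun t => hF1 _) hFm
  obtain ⟨N2, hN2⟩ := hidx (fun t => t ∈ Bd) (ε / (4 * C')) (by positivity)
    ⟨max T1 X0, fun T hT => by
      have h1 : T1 ≤ T := (le_max_left _ _).trans hT
      have h2 : X0 ≤ T := (le_max_right _ _).trans hT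
      have h3 := hfew T h1 (ε / (4 * C * C')) (by positivity) Bd (q4 (3 * T) (by linarith))
      refine h3.trans (le_of_eq ?_)
      field_simp⟩
  refine ⟨max N1 N2, fun N hN => ?_⟩
  have b1 := hN1 N ((le_max_left _ _).trans hN)
  have b2 := hN2 N ((le_max_right _ _).trans hN)
  set E := (Finset.Icc 1 N).filter (fun n => dlt n ≤ 50498 / 100000) with hE
  have hEc : (E.card : ℝ) ≤ N := by
    have : E.card ≤ N := (Finset.card_filter_le _ _).trans (by rw [Nat.card_Icc]; omega)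
    exact_mod_cast this
  have hbad : ((E.filter (fun n => ord n ∈ Bd)).card : ℝ) ≤ ε / 4 * N := by
    have hfin : {n : ℕ | 1 ≤ n ∧ n ≤ N ∧ ord n ∈ Bd}.Finite := fin_le N _
    have h1 : (E.filter (fun n => ord n ∈ Bd)) ⊆ hfin.toFinset := by
      intro n hn
      rw [Finset.mem_filter, hE, Finset.mem_filter, Finset.mem_Icc] at hn
      rw [Set.Finite.mem_toFinset]
      exact ⟨hn.1.1.1, hn.1.1.2, hn.2⟩
    rw [Set.ncard_eq_toFinset_card _ hfin] at b2
    calc ((E.filter (fun n => ord n ∈ Bd)).card : ℝ) ≤ (hfin.toFinset.card : ℝ) := by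
          exact_mod_cast Finset.card_le_card h1
      _ ≤ C' * (ε / (4 * C')) * N := b2
      _ = ε / 4 * N := by field_simp
  have hpt : ∀ n ∈ E, F (torusPt (al M) (ord n)) ≤
      Φ (sh (ord n)) + ε1 + (if ord n ∈ Bd then 1 else 0) := by
    intro n _
    split_ifs with h
    · have := hF1 (torusPt (al M) (ord n))
      have := hΦ0 (sh (ord n))
      linarith
    · have h1 := (abs_le.1 (q1 _ h)).1
      rw [hFa, add_zero]
      refine max_le (by linarith) ?_
      have := hΦ0 (sh (ord n))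
      linarith
  have hsum := Finset.sum_le_sum hpt
  rw [Finset.sum_add_distrib, Finset.sum_add_distrib, Finset.sum_const, nsmul_eq_mul,
    ← Finset.sum_filter, Finset.sum_const, nsmul_eq_mul, mul_one] at hsum
  have hN0 : (0 : ℝ) ≤ N := Nat.cast_nonneg N
  have h5 : (E.card : ℝ) * ε1 ≤ ε / 4 * N := by
    calc (E.card : ℝ) * ε1 ≤ N * ε1 := by gcongr
      _ ≤ N * (ε / 4) := by gcongr
      _ = _ := by ring
  linarith

/-- **small gaps at the zeros where `ζ` is close to a given function** -/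
theorem univ_small' (hRH : RiemannHypothesis) (D : ℝ) (hD0 : 0 < D) : ∃ ε0 : ℝ, 0 < ε0 ∧
    ∀ K : Set ℂ, IsCompact K → K ⊆ {z | 1 / 2 < z.re ∧ z.re < 1} →
      ∀ (f : ℂ → ℂ) (ε' ε : ℝ), 0 < ε' → ε' < ε →
      (∃ᶠ X : ℝ in atTop, ENNReal.ofReal (D * X) ≤ volume (SS ε' K f ∩ Icc 0 X)) →
      ∃ N0 : ℕ, ∀ N : ℕ, N0 ≤ N →
        ε0 * N ≤ ({n : ℕ | 1 ≤ n ∧ n ≤ N ∧ dlt n ≤ 50498 / 100000 ∧ ord n ∈ SS ε K f}.ncard : ℝ) := by
  classical
  obtain ⟨e0, he0, hl⟩ := small_fnl' hRH D hD0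
  refine ⟨e0, he0, fun K hK hKs f ε' ε hε' hlt hD => ?_⟩
  have hne : (SS ε' K f).Nonempty := by
    rw [Set.nonempty_iff_ne_empty]
    intro hemp
    obtain ⟨X, hX1, hX0⟩ := (hD.and_eventually (eventually_gt_atTop 0)).exists
    rw [hemp, empty_inter, measure_empty, nonpos_iff_eq_zero, ENNReal.ofReal_eq_zero] at hX1
    nlinarith [mul_pos hD0 hX0]
  obtain ⟨t0, ht0⟩ := hne
  obtain ⟨Cf, hCf0, hCf⟩ := bounded_of_mem hK hKs ht0
  have hF := trap_fnl (K := K) f hlt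
  obtain ⟨m, hm⟩ := mean_exists hK hKs hF
  have hDm : D ≤ m := mean_ge (sh_cont hK hKs hF) (trap_nonneg K f ε' ε)
    (fun t ht => trap_one hε' hlt ht) hD hm
  obtain ⟨N0, hN0⟩ := hl K hK hKs _ hF (trap_nonneg K f ε' ε) m hm hDm
  refine ⟨N0, fun N hN => ?_⟩
  have hfin : {n : ℕ | 1 ≤ n ∧ n ≤ N ∧ dlt n ≤ 50498 / 100000 ∧ ord n ∈ SS ε K f}.Finite :=
    (Set.finite_Icc 1 N).subset fun n hn => ⟨hn.1, hn.2.1⟩
  refine (hN0 N hN).trans ?_
  rw [Set.ncard_eq_toFinset_card _ hfin]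
  calc ∑ n ∈ (Finset.Icc 1 N).filter (fun n => dlt n ≤ 50498 / 100000), trap K f ε' ε (sh (ord n)) ≤
      ∑ n ∈ (Finset.Icc 1 N).filter (fun n => dlt n ≤ 50498 / 100000),
        (if ord n ∈ SS ε K f then (1 : ℝ) else 0) := by
        refine Finset.sum_le_sum fun n _ => ?_
        split_ifs with h1
        · exact trap_le_one _ _ _ _ _
        · by_contra hcon
          push Not at hcon
          exact h1 (trap_pos hlt (sh_bdd' hK hKs hCf _) hcon)
    _ = ((((Finset.Icc 1 N).filter (fun n => dlt n ≤ 50498 / 100000)).filter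
        (fun n => ord n ∈ SS ε K f)).card : ℝ) := by
        rw [Finset.sum_ite, Finset.sum_const_zero, add_zero, Finset.sum_const, nsmul_eq_mul,
          mul_one]
    _ ≤ (hfin.toFinset.card : ℝ) := by
        refine Nat.cast_le.2 (Finset.card_le_card fun n hn => ?_)
        rw [Finset.mem_filter, Finset.mem_filter, Finset.mem_Icc] at hn
        rw [Set.Finite.mem_toFinset]
        exact ⟨hn.1.1.1, hn.1.1.2, hn.1.2, hn.2⟩

end Pool.Agent.Run7.h195.LB
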