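import Pool.Agent.Run7.h195.LB.SmPar

/-! Small gaps: the ideal inequality. -/

open Complex Filter Topology Set MeasureTheory

namespace Pool.Agent.Run7.h195.LB

open SG (hh nn dd dl ord NZ)
open SP (RHs ZZ mu wt Mk Par Eb PS chi qq tt)
open LG

lemma sin_ge_cub {x : ℝ} (hx : 0 ≤ x) : x - x ^ 3 / 6 ≤ Real.sin x := by
  set f : ℝ → ℝ := fun x => Real.sin x - x + x ^ 3 / 6 with hf
  have hd : ∀ x : ℝ, HasDerivAt f (Real.cos x - 1 + x ^ 2 / 2) x := by
    intro x
    have h := ((Real.hasDerivAt_sin x).sub (hasDerivAt_id x)).add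
      ((hasDerivAt_pow 3 x).div_const 6)
    have e : Real.cos x - 1 + ((3 : ℕ) : ℝ) * x ^ (3 - 1) / 6 = Real.cos x - 1 + x ^ 2 / 2 := by
      push_cast
      ring
    rw [e] at h
    exact h
  have hm : MonotoneOn f (Set.Ici 0) := by
    apply monotoneOn_of_deriv_nonneg (convex_Ici 0)
    · exact fun x _ => (hd x).continuousAt.continuousWithinAt
    · exact fun x _ => (hd x).differentiableAt.differentiableWithinAt
    · intro x _
      rw [(hd x).deriv]
      have := Real.one_sub_sq_div_two_le_cos (x := x)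
      linarith
  have h := hm (Set.mem_Ici.2 le_rfl) (Set.mem_Ici.2 hx) hx
  simp only [hf, Real.sin_zero] at h
  linarith

lemma exp_neg_le_quad {x : ℝ} (hx : 0 ≤ x) : Real.exp (-x) ≤ 1 - x + x ^ 2 / 2 := by
  have h1 := Real.quadratic_le_exp_of_nonneg hx
  rw [Real.exp_neg, inv_eq_one_div, div_le_iff₀ (Real.exp_pos x)]
  have h2 : 0 < 1 - x + x ^ 2 / 2 := by nlinarith [sq_nonneg (x - 1)]
  have h3 : 1 ≤ (1 - x + x ^ 2 / 2) * (1 + x + x ^ 2 / 2) := by nlinarith [sq_nonneg (x ^ 2)]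
  calc (1 : ℝ) ≤ (1 - x + x ^ 2 / 2) * (1 + x + x ^ 2 / 2) := h3
    _ ≤ _ := mul_le_mul_of_nonneg_left h1 h2.le

/-- lower bound for the ideal weights -/
lemma sm_lower {c w : ℝ} (hc : 0 < c) (hw : 0 < w) {m : ℕ} (hm : 1 ≤ m) :
    (Real.pi * c * w) * (1 - 1 / (2 * m)) - (Real.pi * c * w) ^ 3 * m ^ 2 / 6 ≤
      ∫ u in ((m : ℝ) * w * Real.exp (-1 / (m : ℝ)))..((m : ℝ) * w),
        Real.sin (Real.pi * c * u) / u := by
  have hpi := Real.pi_pos
  have hm0 : (1 : ℝ) ≤ m := by exact_mod_cast hm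
  have hmp : (0 : ℝ) < m := by linarith
  set β := (m : ℝ) * w with hβ
  have hβ0 : 0 < β := by positivity
  set α := β * Real.exp (-1 / (m : ℝ)) with hα
  have hα0 : 0 < α := by positivity
  have he1 : Real.exp (-1 / (m : ℝ)) ≤ 1 := by
    rw [Real.exp_le_one_iff]
    exact div_nonpos_of_nonpos_of_nonneg (by norm_num) hmp.le
  have hαβ : α ≤ β := by
    rw [hα]
    exact mul_le_of_le_one_right hβ0.le he1
  set g := Real.pi * c with hg
  have hg0 : 0 < g := by positivity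
  have h1 : ∫ u in α..β, (g - g ^ 3 * u ^ 2 / 6) ≤ ∫ u in α..β, Real.sin (g * u) / u := by
    apply intervalIntegral.integral_mono_on hαβ
    · apply Continuous.intervalIntegrable
      fun_prop
    · apply ContinuousOn.intervalIntegrable
      rw [Set.uIcc_of_le hαβ]
      apply ContinuousOn.div (by fun_prop) continuousOn_id
      intro u hu
      have : 0 < u := lt_of_lt_of_le hα0 hu.1
      exact this.ne'
    · intro u hu
      have hu0 : 0 < u := lt_of_lt_of_le hα0 hu.1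
      rw [le_div_iff₀ hu0]
      have := sin_ge_cub (x := g * u) (by positivity)
      calc (g - g ^ 3 * u ^ 2 / 6) * u = g * u - (g * u) ^ 3 / 6 := by ring
        _ ≤ _ := this
  refine le_trans ?_ h1
  have h2 : ∫ u in α..β, (g - g ^ 3 * u ^ 2 / 6) =
      g * (β - α) - g ^ 3 / 18 * (β ^ 3 - α ^ 3) := by
    have h3 : ∀ x ∈ Set.uIcc α β, HasDerivAt (fun u : ℝ => g * u - g ^ 3 / 18 * u ^ 3)
        (g - g ^ 3 * x ^ 2 / 6) x := by
      intro x _
      have h := ((hasDerivAt_id x).const_mul g).sub ((hasDerivAt_pow 3 x).const_mul (g ^ 3 / 18))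
      have e : g * 1 - g ^ 3 / 18 * (((3 : ℕ) : ℝ) * x ^ (3 - 1)) = g - g ^ 3 * x ^ 2 / 6 := by
        push_cast
        ring
      rw [e] at h
      exact h
    rw [intervalIntegral.integral_eq_sub_of_hasDerivAt h3
      (by apply Continuous.intervalIntegrable; fun_prop)]
    ring
  rw [h2]
  have h4 : w * (1 - 1 / (2 * m)) ≤ β - α := by
    have h5 := exp_neg_le_quad (x := 1 / (m : ℝ)) (by positivity)
    have e5 : -(1 / (m : ℝ)) = -1 / m := by ring
    rw [e5] at h5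
    have h6 : β - α = β * (1 - Real.exp (-1 / (m : ℝ))) := by rw [hα]; ring
    rw [h6]
    have h7 : β * (1 / m - (1 / (m : ℝ)) ^ 2 / 2) ≤ β * (1 - Real.exp (-1 / (m : ℝ))) :=
      mul_le_mul_of_nonneg_left (by linarith) hβ0.le
    have h8 : β * (1 / m - (1 / (m : ℝ)) ^ 2 / 2) = w * (1 - 1 / (2 * m)) := by
      rw [hβ]
      field_simp
    linarith
  have h5 : β ^ 3 - α ^ 3 ≤ 3 * m ^ 2 * w ^ 3 := by
    have h6 : α ^ 3 = β ^ 3 * Real.exp (-(3 / (m : ℝ))) := by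
      rw [hα, mul_pow, ← Real.exp_nat_mul]
      congr 2
      push_cast
      ring
    have h7 := Real.add_one_le_exp (-(3 / (m : ℝ)))
    rw [h6]
    have h8 : β ^ 3 - β ^ 3 * Real.exp (-(3 / (m : ℝ))) ≤ β ^ 3 * (3 / m) := by
      have : β ^ 3 * (1 - Real.exp (-(3 / (m : ℝ)))) ≤ β ^ 3 * (3 / m) :=
        mul_le_mul_of_nonneg_left (by linarith) (by positivity)
      linarith
    refine h8.trans (le_of_eq ?_)
    rw [hβ]
    field_simp
  have h6 : g * (w * (1 - 1 / (2 * m))) ≤ g * (β - α) := mul_le_mul_of_nonneg_left h4 hg0.le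
  have h7 : g ^ 3 / 18 * (β ^ 3 - α ^ 3) ≤ g ^ 3 / 18 * (3 * m ^ 2 * w ^ 3) :=
    mul_le_mul_of_nonneg_left h5 (by positivity)
  have h8 : g ^ 3 / 18 * (3 * m ^ 2 * w ^ 3) = (g * w) ^ 3 * m ^ 2 / 6 := by ring
  have h9 : g * (w * (1 - 1 / (2 * m))) = (g * w) * (1 - 1 / (2 * m)) := by ring
  linarith

/-! ### sums -/

lemma sum_pow_half (N : ℕ) (hN : 1 ≤ N) : ∑ j ∈ Finset.Icc 2 N, (j : ℝ) * (2 * (1 / 2) ^ j) =
    3 - ((N : ℝ) + 2) * (2 * (1 / 2) ^ N) := by
  induction N, hN using Nat.le_induction with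
  | base => norm_num
  | succ n hn ih =>
    rw [Finset.sum_Icc_succ_top (by omega), ih, pow_succ]
    push_cast
    ring

lemma harm_le (n : ℕ) : ∑ m ∈ Finset.Icc 1 n, (1 / (m : ℝ)) ≤ 2 * Real.sqrt n := by
  induction n with
  | zero => simp
  | succ n ih =>
    rw [Finset.sum_Icc_succ_top (by omega)]
    have h1 : 0 ≤ Real.sqrt n := Real.sqrt_nonneg _
    have h2 : Real.sqrt n ≤ Real.sqrt ((n + 1 : ℕ) : ℝ) :=
      Real.sqrt_le_sqrt (by push_cast; linarith)
    have h3 : Real.sqrt n ^ 2 = n := Real.sq_sqrt (Nat.cast_nonneg n)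
    have h4 : Real.sqrt ((n + 1 : ℕ) : ℝ) ^ 2 = (n : ℝ) + 1 := by
      rw [Real.sq_sqrt (Nat.cast_nonneg _)]
      push_cast
      ring
    have h5 : 1 ≤ Real.sqrt ((n + 1 : ℕ) : ℝ) := by
      rw [Real.one_le_sqrt]
      push_cast
      have : (0 : ℝ) ≤ n := Nat.cast_nonneg n
      linarith
    set x := Real.sqrt n
    set y := Real.sqrt ((n + 1 : ℕ) : ℝ)
    have h6 : 1 / ((n + 1 : ℕ) : ℝ) ≤ 2 * (y - x) := by
      have e : ((n + 1 : ℕ) : ℝ) = y ^ 2 := by rw [h4]; push_cast; ring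
      rw [e, div_le_iff₀ (by positivity)]
      have h7 : (y - x) * (y + x) = 1 := by nlinarith
      have h8 : 0 ≤ y - x := by linarith
      nlinarith [mul_nonneg h8 (by linarith : (0 : ℝ) ≤ y - x)]
    linarith

lemma sum_one (N : ℕ) (hN : 1 ≤ N) : ∑ m ∈ Finset.Icc 2 N, ((N : ℝ) + 2 - m) =
    (N : ℝ) * (N + 1) / 2 - 1 := by
  have h : ∀ M : ℕ, 1 ≤ M → ∀ A : ℝ, ∑ m ∈ Finset.Icc 2 M, (A - (m : ℝ)) =
      A * (M - 1) - ((M : ℝ) * (M + 1) / 2 - 1) := by
    intro M hM A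
    induction M, hM using Nat.le_induction with
    | base => norm_num
    | succ n hn ih =>
      rw [Finset.sum_Icc_succ_top (by omega), ih]
      push_cast
      ring
  rw [h N hN]
  ring

lemma sum_sq (N : ℕ) (hN : 1 ≤ N) : ∑ m ∈ Finset.Icc 2 N, (m : ℝ) ^ 2 * ((N : ℝ) + 2 - m) =
    (N : ℝ) * (N + 1) * (N ^ 2 + 7 * N + 4) / 12 - (N + 1) := by
  have h : ∀ M : ℕ, 1 ≤ M → ∀ A : ℝ, ∑ m ∈ Finset.Icc 2 M, (m : ℝ) ^ 2 * (A - (m : ℝ)) =
      A * ((M : ℝ) * (M + 1) * (2 * M + 1) / 6 - 1) - (((M : ℝ) * (M + 1) / 2) ^ 2 - 1) := by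
    intro M hM A
    induction M, hM using Nat.le_induction with
    | base => norm_num
    | succ n hn ih =>
      rw [Finset.sum_Icc_succ_top (by omega), ih]
      push_cast
      ring
  rw [h N hN]
  ring

lemma sum_div (N : ℕ) (hN : 1 ≤ N) : ∑ m ∈ Finset.Icc 2 N, ((N : ℝ) + 2 - m) / m ≤
    (N + 2) * (2 * Real.sqrt N) := by
  have h1 : ∑ m ∈ Finset.Icc 2 N, ((N : ℝ) + 2 - m) / m ≤
      ∑ m ∈ Finset.Icc 2 N, ((N : ℝ) + 2) * (1 / m) := by
    refine Finset.sum_le_sum fun m hm => ?_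
    rw [Finset.mem_Icc] at hm
    have hm0 : (0 : ℝ) < m := by exact_mod_cast (by omega : 0 < m)
    rw [mul_one_div]
    exact div_le_div_of_nonneg_right (by linarith) hm0.le
  refine h1.trans ?_
  rw [← Finset.mul_sum]
  apply mul_le_mul_of_nonneg_left _ (by positivity)
  refine le_trans ?_ (harm_le N)
  apply Finset.sum_le_sum_of_subset_of_nonneg
  · intro m hm
    rw [Finset.mem_Icc] at hm ⊢
    omega
  · intro m _ _
    positivity

/-- the ideal inequality in terms of a numerical inequality -/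
theorem ideal_gen {N : ℕ} (hN : 5 ≤ N) {c w : ℝ} (hc : 0 < c) (hc1 : c ≤ 1) (hw : 0 < w)
    (hwN : w * (2 * N) ≤ 1)
    (hnum : 4 * ((1 - c) * 1 + 12 * c * w) + (1 - c) * (N + 2) <
      4 * c * w * ((N : ℝ) * (N + 1) / 2 - 1 - (N + 2) * Real.sqrt N) -
      4 * c * w * (9.8697 * (c * w) ^ 2) / 6 * ((N : ℝ) * (N + 1) * (N ^ 2 + 7 * N + 4) / 12))
    {q : ℕ → ℝ} (hq : IsQ N (fun m => if 2 ≤ m then (1 : ℝ) ^ 2 else 0) q) :
    0 < SF N (fun _ => 1) q ∧ SF N (fun _ => 1) q < c * SF N (fun _ => 1) q + 4 * 1 / Real.pi *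
      ∑ m ∈ Finset.Icc 2 N, (∫ u in ((m : ℝ) * w * Real.exp (-1 / (m : ℝ)))..((m : ℝ) * w),
        Real.sin (Real.pi * c * u) / u) * SM N (fun _ => 1) q m := by
  have hpi := Real.pi_pos
  have hpi4 := Real.pi_lt_d4
  have hNr : (5 : ℝ) ≤ N := by exact_mod_cast hN
  set a := Real.pi * c * w with ha
  have ha0 : 0 < a := by positivity
  set L := q N with hL
  have hL4 : 1 / 4 ≤ L := q_last hq hN
  have hSF : SF N (fun _ => 1) q = Qs q N := by
    unfold SF Qs
    simp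
  have hSM : ∀ m ∈ Finset.Icc 2 N, SM N (fun _ => 1) q m = Qs q (N - m) := by
    intro m hm
    rw [Finset.mem_Icc] at hm
    unfold SM Qs
    rw [show N + 1 - m = N - m + 1 by omega]
    simp
  -- positivity of the sequence
  have hqpos : ∀ n, 2 ≤ n → n ≤ N → 0 ≤ q n := by
    intro n h2 hn
    rcases Nat.lt_or_ge n 4 with h | h
    · have h34 := q_three hq (by omega)
      have h22 := q_two hq (by omega)
      have : n = 2 ∨ n = 3 := by omega
      rcases this with rfl | rfl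
      · rw [h22]; norm_num
      · rw [h34.1]; norm_num
    · have h1 := close_le hq (n := 4) (by norm_num) (n - 4) (by omega)
      rw [show 4 + (n - 4) = n by omega] at h1
      have h2 := (abs_le.1 h1).1
      rw [(q_three hq (by omega)).2] at h2
      have h3 : (0 : ℝ) ≤ 2 * (1 / 2) ^ n := by positivity
      norm_num at h2
      linarith
  have hnum' : 4 * ((1 - c) * 1 + 12 * c * w) + (1 - c) * (N + 2) <
      4 / Real.pi * (a * ((N : ℝ) * (N + 1) / 2 - 1 - (N + 2) * Real.sqrt N) -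
      a ^ 3 / 6 * ((N : ℝ) * (N + 1) * (N ^ 2 + 7 * N + 4) / 12)) := by
    refine hnum.trans_le ?_
    have e1 : 4 / Real.pi * (a * ((N : ℝ) * (N + 1) / 2 - 1 - (N + 2) * Real.sqrt N) -
      a ^ 3 / 6 * ((N : ℝ) * (N + 1) * (N ^ 2 + 7 * N + 4) / 12)) =
      4 * c * w * ((N : ℝ) * (N + 1) / 2 - 1 - (N + 2) * Real.sqrt N) -
      4 * c * w * (Real.pi ^ 2 * (c * w) ^ 2) / 6 *
        ((N : ℝ) * (N + 1) * (N ^ 2 + 7 * N + 4) / 12) := by
      rw [ha]
      field_simp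
    rw [e1]
    have h2 : Real.pi ^ 2 ≤ 9.8697 := by nlinarith
    have h3 : 4 * c * w * (Real.pi ^ 2 * (c * w) ^ 2) / 6 *
        ((N : ℝ) * (N + 1) * (N ^ 2 + 7 * N + 4) / 12) ≤
        4 * c * w * (9.8697 * (c * w) ^ 2) / 6 *
        ((N : ℝ) * (N + 1) * (N ^ 2 + 7 * N + 4) / 12) := by gcongr
    linarith
  have hT : L * (a * ((N : ℝ) * (N + 1) / 2 - 1 - (N + 2) * Real.sqrt N) -
      a ^ 3 / 6 * ((N : ℝ) * (N + 1) * (N ^ 2 + 7 * N + 4) / 12)) - 3 * a ≤
      ∑ m ∈ Finset.Icc 2 N, (∫ u in ((m : ℝ) * w * Real.exp (-1 / (m : ℝ)))..((m : ℝ) * w),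
        Real.sin (Real.pi * c * u) / u) * SM N (fun _ => 1) q m := by
    have hterm : ∀ m ∈ Finset.Icc 2 N, L * ((a * (1 - 1 / (2 * m)) - a ^ 3 * m ^ 2 / 6) *
        ((N : ℝ) + 2 - m)) - a * (((N : ℝ) + 2 - m) * (2 * (1 / 2) ^ (N + 2 - m))) ≤
        (∫ u in ((m : ℝ) * w * Real.exp (-1 / (m : ℝ)))..((m : ℝ) * w),
        Real.sin (Real.pi * c * u) / u) * SM N (fun _ => 1) q m := by
      intro m hm
      rw [hSM m hm]
      rw [Finset.mem_Icc] at hm
      have hm2 : (2 : ℝ) ≤ m := by exact_mod_cast hm.1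
      have hmN : (m : ℝ) ≤ N := by exact_mod_cast hm.2
      rw [Q_eq hq hm.1 hm.2]
      have hx := sm_lower (c := c) (w := w) hc hw (m := m) (by omega)
      rw [← ha] at hx
      have hq1 := q_ge hq (n := N + 2 - m) (by omega) (by omega)
      have hq0 := hqpos (N + 2 - m) (by omega) (by omega)
      set b := a * (1 - 1 / (2 * m)) - a ^ 3 * m ^ 2 / 6 with hb
      have hmw : (m : ℝ) * w ≤ 1 / 2 := by nlinarith
      have ham : a * m ≤ 1.6 := by
        have : a * m = Real.pi * c * (m * w) := by rw [ha]; ring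
        rw [this]
        calc Real.pi * c * (m * w) ≤ 3.1416 * 1 * (1 / 2) := by gcongr
          _ ≤ 1.6 := by norm_num
      have hb0 : 0 ≤ b := by
        have h1 : b = a * (1 - 1 / (2 * m) - (a * m) ^ 2 / 6) := by rw [hb]; ring
        rw [h1]
        apply mul_nonneg ha0.le
        have h2 : (a * m) ^ 2 ≤ 1.6 ^ 2 := pow_le_pow_left₀ (by positivity) ham 2
        have h3 : 1 / (2 * (m : ℝ)) ≤ 1 / 4 := by
          apply one_div_le_one_div_of_le (by norm_num)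
          linarith
        norm_num at h2
        linarith
      have hba : b ≤ a := by
        rw [hb]
        have h1 : 0 ≤ a * (1 / (2 * (m : ℝ))) := by positivity
        have h2 : 0 ≤ a ^ 3 * (m : ℝ) ^ 2 / 6 := by positivity
        linarith
      have hNm : 0 ≤ (N : ℝ) + 2 - m := by linarith
      have e1 : b * (((N : ℝ) + 2 - m) * q (N + 2 - m)) ≤
          (∫ u in ((m : ℝ) * w * Real.exp (-1 / (m : ℝ)))..((m : ℝ) * w),
          Real.sin (Real.pi * c * u) / u) * (((N : ℝ) + 2 - m) * q (N + 2 - m)) :=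
        mul_le_mul_of_nonneg_right hx (mul_nonneg hNm hq0)
      refine le_trans ?_ e1
      have e2 : b * (((N : ℝ) + 2 - m) * (L - 2 * (1 / 2) ^ (N + 2 - m))) ≤
          b * (((N : ℝ) + 2 - m) * q (N + 2 - m)) :=
        mul_le_mul_of_nonneg_left (mul_le_mul_of_nonneg_left hq1 hNm) hb0
      refine le_trans ?_ e2
      have e3 : b * (((N : ℝ) + 2 - m) * (2 * (1 / 2) ^ (N + 2 - m))) ≤
          a * (((N : ℝ) + 2 - m) * (2 * (1 / 2) ^ (N + 2 - m))) :=
        mul_le_mul_of_nonneg_right hba (by positivity)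
      have e4 : b * (((N : ℝ) + 2 - m) * (L - 2 * (1 / 2) ^ (N + 2 - m))) =
          L * (b * ((N : ℝ) + 2 - m)) - b * (((N : ℝ) + 2 - m) * (2 * (1 / 2) ^ (N + 2 - m))) := by
        ring
      rw [e4]
      linarith
    refine le_trans ?_ (Finset.sum_le_sum hterm)
    rw [Finset.sum_sub_distrib, ← Finset.mul_sum, ← Finset.mul_sum]
    have s1 : ∑ m ∈ Finset.Icc 2 N, (((N : ℝ) + 2 - m) * (2 * (1 / 2) ^ (N + 2 - m))) ≤ 3 := by
      have h1 : ∑ m ∈ Finset.Icc 2 N, (((N : ℝ) + 2 - m) * (2 * (1 / 2) ^ (N + 2 - m))) =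
          ∑ j ∈ Finset.Icc 2 N, (j : ℝ) * (2 * (1 / 2) ^ j) := by
        refine Finset.sum_bij' (fun m _ => N + 2 - m) (fun j _ => N + 2 - j) ?_ ?_ ?_ ?_ ?_
        · intro m hm
          rw [Finset.mem_Icc] at hm ⊢
          omega
        · intro m hm
          rw [Finset.mem_Icc] at hm ⊢
          omega
        · intro m hm
          rw [Finset.mem_Icc] at hm
          omega
        · intro m hm
          rw [Finset.mem_Icc] at hm
          omega
        · intro m hm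
          rw [Finset.mem_Icc] at hm
          rw [Nat.cast_sub (by omega)]
          push_cast
          ring
      rw [h1, sum_pow_half N (by omega)]
      have : 0 ≤ ((N : ℝ) + 2) * (2 * (1 / 2) ^ N) := by positivity
      linarith
    have s2 : ∑ m ∈ Finset.Icc 2 N, ((a * (1 - 1 / (2 * m)) - a ^ 3 * m ^ 2 / 6) *
        ((N : ℝ) + 2 - m)) = a * ∑ m ∈ Finset.Icc 2 N, ((N : ℝ) + 2 - m) -
        a / 2 * ∑ m ∈ Finset.Icc 2 N, ((N : ℝ) + 2 - m) / m -
        a ^ 3 / 6 * ∑ m ∈ Finset.Icc 2 N, (m : ℝ) ^ 2 * ((N : ℝ) + 2 - m) := by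
      rw [Finset.mul_sum, Finset.mul_sum, Finset.mul_sum, ← Finset.sum_sub_distrib,
        ← Finset.sum_sub_distrib]
      refine Finset.sum_congr rfl fun m hm => ?_
      rw [Finset.mem_Icc] at hm
      have : (m : ℝ) ≠ 0 := by exact_mod_cast (by omega : m ≠ 0)
      field_simp
    rw [s2, sum_one N (by omega), sum_sq N (by omega)]
    have s3 := sum_div N (by omega)
    have hL0 : 0 ≤ L := by linarith
    have s4 : a * ((N : ℝ) * (N + 1) / 2 - 1 - (N + 2) * Real.sqrt N) -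
      a ^ 3 / 6 * ((N : ℝ) * (N + 1) * (N ^ 2 + 7 * N + 4) / 12) ≤
      a * ((N : ℝ) * (N + 1) / 2 - 1) - a / 2 * ∑ m ∈ Finset.Icc 2 N, ((N : ℝ) + 2 - m) / m -
      a ^ 3 / 6 * ((N : ℝ) * (N + 1) * (N ^ 2 + 7 * N + 4) / 12 - (N + 1)) := by
      have h1 : a / 2 * ∑ m ∈ Finset.Icc 2 N, ((N : ℝ) + 2 - m) / m ≤
          a / 2 * ((N + 2) * (2 * Real.sqrt N)) := mul_le_mul_of_nonneg_left s3 (by positivity)
      have h2 : 0 ≤ a ^ 3 / 6 * ((N : ℝ) + 1) := by positivity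
      have h3 : a / 2 * ((N + 2) * (2 * Real.sqrt N)) = a * (((N : ℝ) + 2) * Real.sqrt N) := by ring
      rw [h3] at h1
      have h4 : a * ((N : ℝ) * (N + 1) / 2 - 1 - (N + 2) * Real.sqrt N) =
          a * ((N : ℝ) * (N + 1) / 2 - 1) - a * (((N : ℝ) + 2) * Real.sqrt N) := by ring
      rw [h4, mul_sub (a ^ 3 / 6)]
      linarith
    have s5 := mul_le_mul_of_nonneg_left s4 hL0
    have s6 := mul_le_mul_of_nonneg_left s1 ha0.le
    linarith
  have hQle := Q_le hq hN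
  have hQpos : 0 < Qs q N := by
    have h1 := rec_Q hq (n := N) (by omega) le_rfl
    have h2 : Qs q N = Qs q (N - 2) + q (N - 1) + q N := by
      unfold Qs
      have e1 : N + 1 = (N - 2 + 1) + 1 + 1 := by omega
      rw [e1, Finset.sum_range_succ, Finset.sum_range_succ]
      congr 2
      · congr 1
        omega
      · omega
    rw [h2, ← h1]
    have h3 := hqpos (N - 1) (by omega) (by omega)
    have h4 : 0 < (N : ℝ) * q N := by
      apply mul_pos (by linarith)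
      linarith
    linarith
  rw [hSF]
  refine ⟨hQpos, ?_⟩
  have hp4 : 0 < 4 / Real.pi := by positivity
  have h5 := mul_le_mul_of_nonneg_left hT hp4.le
  have h6 : 4 * 1 / Real.pi = 4 / Real.pi := by ring
  rw [h6]
  have h7 : (1 - c) * Qs q N ≤ (1 - c) * (((N : ℝ) + 2) * L + 1) :=
    mul_le_mul_of_nonneg_left hQle (by linarith)
  set Y := 4 / Real.pi * (a * ((N : ℝ) * (N + 1) / 2 - 1 - (N + 2) * Real.sqrt N) -
      a ^ 3 / 6 * ((N : ℝ) * (N + 1) * (N ^ 2 + 7 * N + 4) / 12)) with hY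
  have h8 : 4 / Real.pi * (L * (a * ((N : ℝ) * (N + 1) / 2 - 1 - (N + 2) * Real.sqrt N) -
      a ^ 3 / 6 * ((N : ℝ) * (N + 1) * (N ^ 2 + 7 * N + 4) / 12)) - 3 * a) =
      L * Y - 12 * c * w := by
    rw [hY, ha]
    field_simp
    ring
  rw [h8] at h5
  -- `L (Y - (1-c)(N+2)) > (1 - c) + 12 c w`
  have h9 : (1 - c) * 1 + 12 * c * w < L * (Y - (1 - c) * (N + 2)) := by
    have h10 : 4 * ((1 - c) * 1 + 12 * c * w) < Y - (1 - c) * (N + 2) := by linarith
    have h11 : 0 ≤ (1 - c) * 1 + 12 * c * w := by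
      have : 0 ≤ 1 - c := by linarith
      positivity
    nlinarith
  nlinarith

/-- **the parameters**: `c = 0.5049` -/
theorem PARS : ∃ (P : Par) (B0 : ℕ) (q : ℕ → ℝ), P.B = 2 * B0 ∧
    IsQ B0 (tm P 1) q ∧ 0 < SF B0 (fun _ => 1) q ∧
    SF B0 (fun _ => 1) q < (5049 / 10000) * SF B0 (fun _ => 1) q +
      4 * 1 / Real.pi * ∑ m ∈ Finset.Icc 2 B0, sm0 P (5049 / 10000) m *
        SM B0 (fun _ => 1) q m := by
  obtain ⟨N, hN⟩ : ∃ N : ℕ, N = 100000000 := ⟨_, rfl⟩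
  have hNr : (N : ℝ) = 100000000 := by rw [hN]; norm_num
  obtain ⟨P, q, h1, h2, h3, h4⟩ := PARS_of N (by omega) 1 (fun _ => 1) (5049 / 10000) (by
    intro q hq
    apply ideal_gen (N := N) (by omega) (by norm_num) (by norm_num) (by rw [hNr]; norm_num)
      (by rw [hNr]; norm_num) _ hq
    have hs : Real.sqrt N = 10000 := by
      rw [hNr, show (100000000 : ℝ) = 10000 ^ 2 by norm_num]
      exact Real.sqrt_sq (by norm_num)
    rw [hs, hNr]
    norm_num)
  exact ⟨P, N, q, h1, h2, h3, h4⟩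

end Pool.Agent.Run7.h195.LB
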