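import Pool.Agent.Run7.h195.LB.SmLocal
import Pool.Agent.Run7.h195.LB.SmIdeal
import Pool.Agent.N748.UG.Main

/-! Small gaps with an almost periodic weight: from windows to all indices. -/

open Complex Filter Topology Set MeasureTheory

namespace Pool.Agent.Run7.h195.LB

open SG (hh nn dd dl ord NZ)
open SP (RHs ZZ mu wt Mk Par Eb PS chi qq tt)
open LG TH803TW

theorem dyadic_of_localS {κ c' ε K : ℝ} (hκ : 0 < κ) (hc' : 0 < c') (hε : 0 < ε) (hK : 1 ≤ K)
    {φ : ℝ → ℝ} (hφ0 : ∀ t, 0 ≤ φ t) {T0 : ℝ} (hT0 : 10 ≤ T0)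
    (hloc : ∀ T : ℝ, T0 ≤ T → ∀ t0 : ℝ, 11 / 10 * T ≤ t0 → t0 ≤ 19 / 10 * T →
      ε * dd κ T * Real.log T ≤ ∑ n ∈ SLS κ c' K T t0, φ (ord n)) :
    ∃ T1 : ℝ, 10 ≤ T1 ∧ ∀ T : ℝ, T1 ≤ T →
      ε / (10 * K) * (T * Real.log T) ≤
        ∑ n ∈ (H370.A3.EE_finite T (2 * T) (2 * Real.pi * c' / Real.log T)).toFinset,
          φ (ord n) := by
  classical
  have hpi := Real.pi_pos
  have hlim : Tendsto (fun T : ℝ => T ^ (κ / 2)) atTop atTop := tendsto_rpow_atTop (by linarith)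
  obtain ⟨T1, hT1⟩ := (tendsto_atTop.mp hlim (100 * K)).exists_forall_of_atTop
  refine ⟨max (max T0 T1) (max 1000 (200 * Real.pi * c')),
    le_trans (by norm_num) ((le_max_left _ _).trans (le_max_right _ _)), fun T hT => ?_⟩
  have hTT0 : T0 ≤ T := ((le_max_left _ _).trans (le_max_left _ _)).trans hT
  have hTT1 : T1 ≤ T := ((le_max_right _ _).trans (le_max_left _ _)).trans hT
  have hT1000 : 1000 ≤ T := ((le_max_left _ _).trans (le_max_right _ _)).trans hT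
  have hTc : 200 * Real.pi * c' ≤ T := ((le_max_right _ _).trans (le_max_right _ _)).trans hT
  have hTpos : 0 < T := by linarith
  have hlog0 : 0 < Real.log T := Real.log_pos (by linarith)
  have hlog1 : 1 ≤ Real.log T := by
    rw [Real.le_log_iff_exp_le hTpos]
    have := Real.exp_one_lt_d9
    linarith
  set Δ : ℝ := dd κ T with hΔ
  have hΔ0 : 0 < Δ := by
    rw [hΔ]
    unfold dd
    positivity
  have hKΔ : 100 * (K * Δ) ≤ T := by
    have h1 := hT1 T hTT1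
    have h2 : T ^ (κ / 2) * Δ = T := by
      rw [hΔ]
      unfold dd
      rw [← Real.rpow_add hTpos]
      have : κ / 2 + (1 - κ / 2) = 1 := by ring
      rw [this, Real.rpow_one]
    calc 100 * (K * Δ) = (100 * K) * Δ := by ring
      _ ≤ T ^ (κ / 2) * Δ := mul_le_mul_of_nonneg_right h1 hΔ0.le
      _ = T := h2
  have hKΔ0 : 0 < K * Δ := by positivity
  have hsmall : 2 * Real.pi * c' / Real.log T ≤ T / 100 := by
    have h1 : 2 * Real.pi * c' / Real.log T ≤ 2 * Real.pi * c' :=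
      div_le_self (by positivity) hlog1
    linarith
  set M : ℕ := ⌊(8 / 10 * T) / (3 * (K * Δ))⌋₊ with hM
  have hM1 : (M : ℝ) ≤ (8 / 10 * T) / (3 * (K * Δ)) := Nat.floor_le (by positivity)
  have hM2 : (8 / 10 * T) / (3 * (K * Δ)) < M + 1 := Nat.lt_floor_add_one _
  have hM3 : T / (10 * (K * Δ)) ≤ M := by
    have h1 : (8 / 10 * T) / (3 * (K * Δ)) = 8 / 30 * (T / (K * Δ)) := by field_simp; norm_num
    have h2 : T / (10 * (K * Δ)) = 1 / 10 * (T / (K * Δ)) := by field_simp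
    have h3 : 100 ≤ T / (K * Δ) := by
      rw [le_div_iff₀ hKΔ0]
      exact hKΔ
    rw [h1] at hM2
    rw [h2]
    linarith
  set t : ℕ → ℝ := fun i => 11 / 10 * T + 3 * (K * Δ) * i with ht
  have hti : ∀ i < M, 11 / 10 * T ≤ t i ∧ t i ≤ 19 / 10 * T := by
    intro i hi
    have hiM : (i : ℝ) ≤ M := by exact_mod_cast hi.le
    have h1 : 3 * (K * Δ) * i ≤ 8 / 10 * T := by
      have h2 : (i : ℝ) ≤ (8 / 10 * T) / (3 * (K * Δ)) := hiM.trans hM1
      rw [le_div_iff₀ (by positivity)] at h2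
      linarith
    have h3 : 0 ≤ 3 * (K * Δ) * (i : ℝ) := by positivity
    constructor
    · simp only [ht]; linarith
    · simp only [ht]; linarith
  have hdisj : (↑(Finset.range M) : Set ℕ).PairwiseDisjoint (fun i => SLS κ c' K T (t i)) := by
    intro i _ j _ hij
    show Disjoint (SLS κ c' K T (t i)) (SLS κ c' K T (t j))
    rw [Finset.disjoint_left]
    intro n hn hn'
    have h1 := abs_le.mp (mem_SLS.1 hn).2.1
    have h2 := abs_le.mp (mem_SLS.1 hn').2.1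
    rw [← hΔ] at h1 h2
    simp only [ht] at h1 h2
    rcases Nat.lt_or_gt_of_ne hij with h | h
    · have h3 : (i : ℝ) + 1 ≤ j := by exact_mod_cast h
      have h4 : 3 * (K * Δ) * ((i : ℝ) + 1) ≤ 3 * (K * Δ) * j :=
        mul_le_mul_of_nonneg_left h3 (by positivity)
      nlinarith
    · have h3 : (j : ℝ) + 1 ≤ i := by exact_mod_cast h
      have h4 : 3 * (K * Δ) * ((j : ℝ) + 1) ≤ 3 * (K * Δ) * i :=
        mul_le_mul_of_nonneg_left h3 (by positivity)
      nlinarith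
  have hsub : (Finset.range M).biUnion (fun i => SLS κ c' K T (t i)) ⊆
      (H370.A3.EE_finite T (2 * T) (2 * Real.pi * c' / Real.log T)).toFinset := by
    intro n hn
    obtain ⟨i, hi, hn⟩ := Finset.mem_biUnion.1 hn
    rw [Finset.mem_range] at hi
    obtain ⟨h1, h2, h3⟩ := mem_SLS.1 hn
    obtain ⟨h4, h5⟩ := hti i hi
    rw [abs_le] at h2
    rw [← hΔ] at h2
    rw [Set.Finite.mem_toFinset]
    exact ⟨h1, by linarith, by linarith, h3.le⟩
  have h5 : 0 ≤ ε * Δ * Real.log T := by positivity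
  calc ε / (10 * K) * (T * Real.log T) = T / (10 * (K * Δ)) * (ε * Δ * Real.log T) := by
        field_simp
    _ ≤ M * (ε * Δ * Real.log T) := mul_le_mul_of_nonneg_right hM3 h5
    _ = ∑ i ∈ Finset.range M, ε * Δ * Real.log T := by
        rw [Finset.sum_const, Finset.card_range, nsmul_eq_mul]
    _ ≤ ∑ i ∈ Finset.range M, ∑ n ∈ SLS κ c' K T (t i), φ (ord n) := by
        refine Finset.sum_le_sum fun i hi => ?_
        rw [Finset.mem_range] at hi
        exact hloc T hTT0 (t i) (hti i hi).1 (hti i hi).2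
    _ = ∑ n ∈ (Finset.range M).biUnion (fun i => SLS κ c' K T (t i)), φ (ord n) := by
        rw [Finset.sum_biUnion hdisj]
    _ ≤ _ := Finset.sum_le_sum_of_subset_of_nonneg hsub fun n _ _ => hφ0 _

/-- **small gaps with an almost periodic weight** -/
theorem small_idx' (hRH : RiemannHypothesis) (M0 : ℝ) (hM0 : 0 < M0) : ∃ ε : ℝ, 0 < ε ∧
    ∀ (φ : ℝ → ℝ) (Mφ : ℝ), APm φ Mφ → (∀ t, 0 ≤ φ t) → (∀ t, φ t ≤ 1) → M0 ≤ Mφ →
    ∃ N0 : ℕ, ∀ N : ℕ, N0 ≤ N →
      ε * N ≤ ∑ n ∈ (Finset.Icc 1 N).filter (fun n => dlt n ≤ 50498 / 100000), φ (ord n) := by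
  obtain ⟨P, B0, q, h1, h3, h4, h5⟩ := PARS
  obtain ⟨ε, K, hε, hK, hloc⟩ := LOCALsm (Pool.Agent.R482.GB.RHs_of hRH) P B0 h1 1 one_pos
    (fun _ => 1) q h3 (5049 / 10000) (by norm_num) h4 h5 (50495 / 100000) (by norm_num) M0 hM0
  obtain ⟨c1, hc1, hidx⟩ := Pool.Agent.N748.UG.to_idx (β := 50495 / 100000)
    (c := 50498 / 100000) (by norm_num) (by norm_num)
  refine ⟨c1 * (ε / (10 * K)), by positivity, fun φ Mφ hφ hφ0 hφ1 hM => ?_⟩
  obtain ⟨T0, hT0, hl⟩ := hloc φ Mφ hφ hφ0 hφ1 hM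
  obtain ⟨T1, hT1, hd⟩ := dyadic_of_localS P.hκ (by norm_num) hε hK hφ0 hT0 hl
  exact hidx (ε / (10 * K)) T1 (by positivity) hT1 (fun n => φ (ord n)) (fun n => hφ0 _) hd

end Pool.Agent.Run7.h195.LB
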