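import Pool.Agent.Run7.h195.LB.SmLocal
import Pool.Agent.Run7.h195.LB.SmIdeal

/-! Small gaps with an almost periodic weight: in every interval `[t, t + t ^ θ]`. -/

open Complex Filter Topology Set MeasureTheory

namespace Pool.Agent.Run7.h195.LB

open SG (hh nn dd dl ord NZ)
open SP (RHs ZZ mu wt Mk Par Eb PS chi qq tt)
open LG TH803TW

/-- the indices of the pairs in `[t, t + t ^ θ]` at distance at most `a` mean spacings -/
def IS (θ a t : ℝ) : Set ℕ :=
  {n : ℕ | 1 ≤ n ∧ t ≤ ord n ∧ ord (n + 1) ≤ t + t ^ θ ∧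
    ord (n + 1) - ord n ≤ 2 * Real.pi * a / Real.log t}

lemma IS_fin (θ a t : ℝ) : (IS θ a t).Finite := by
  refine (Set.finite_Icc 1 (SG.NZ (t + t ^ θ))).subset fun n hn => ⟨hn.1, ?_⟩
  have h1 : SG.ord (n + 1) ≤ t + t ^ θ := hn.2.2.1
  have := (SG.ord_le_iff (by omega : 1 ≤ n + 1) _).mp h1
  omega

theorem int_of_localS {κ c' a ε K : ℝ} (hκ : 0 < κ) (hκ1 : κ < 1 / 2) (hc' : 0 < c')
    (hca : c' < a) (ha1 : a ≤ 1) (hε : 0 < ε)
    (hK : 1 ≤ K) {φ : ℝ → ℝ} (hφ0 : ∀ t, 0 ≤ φ t) {T0 : ℝ} (hT0 : 10 ≤ T0)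
    (hloc : ∀ T : ℝ, T0 ≤ T → ∀ t0 : ℝ, 11 / 10 * T ≤ t0 → t0 ≤ 19 / 10 * T →
      ε * dd κ T * Real.log T ≤ ∑ n ∈ SLS κ c' K T t0, φ (ord n)) :
    ∃ T1 : ℝ, 10 ≤ T1 ∧ ∀ t : ℝ, T1 ≤ t →
      ε / (16 * K) * (t ^ (1 - κ / 4) * Real.log t) ≤
        ∑ n ∈ (IS_fin (1 - κ / 4) a t).toFinset, φ (ord n) := by
  classical
  have hpi := Real.pi_pos
  have hlim : Tendsto (fun T : ℝ => T ^ (κ / 4)) atTop atTop := tendsto_rpow_atTop (by linarith)
  obtain ⟨T1, hT1⟩ := (tendsto_atTop.mp hlim (8 * K)).exists_forall_of_atTop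
  have hac : 0 < a - c' := by linarith
  obtain ⟨T2, hT2⟩ := (Real.tendsto_log_atTop.eventually_ge_atTop
    (2 + 100 * a / (a - c'))).exists_forall_of_atTop
  refine ⟨max (max (2 * T0) T1) (max 1000 T2),
    le_trans (by norm_num) ((le_max_left _ _).trans (le_max_right _ _)), fun t ht => ?_⟩
  have htT0 : 2 * T0 ≤ t := ((le_max_left _ _).trans (le_max_left _ _)).trans ht
  have htT1 : T1 ≤ t := ((le_max_right _ _).trans (le_max_left _ _)).trans ht
  have ht1000 : 1000 ≤ t := ((le_max_left _ _).trans (le_max_right _ _)).trans ht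
  have htT2 : T2 ≤ t := ((le_max_right _ _).trans (le_max_right _ _)).trans ht
  have htpos : 0 < t := by linarith
  have hpow : 8 * K ≤ t ^ (κ / 4) := hT1 t htT1
  have hlogt : 2 + 100 * a / (a - c') ≤ Real.log t := hT2 t htT2
  set T : ℝ := 2 / 3 * t with hTd
  have hTpos : 0 < T := by positivity
  have hTT0 : T0 ≤ T := by rw [hTd]; linarith
  have hTt : T ≤ t := by rw [hTd]; linarith
  have hlogT : Real.log t - 1 / 2 ≤ Real.log T := by
    rw [hTd, Real.log_mul (by norm_num) (by linarith)]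
    have : -(1 / 2 : ℝ) ≤ Real.log (2 / 3) := by
      rw [show (2 / 3 : ℝ) = (3 / 2)⁻¹ by norm_num, Real.log_inv]
      have h1 := Real.log_le_sub_one_of_pos (show (0 : ℝ) < 3 / 2 by norm_num)
      linarith
    linarith
  have hfrac : 0 < 100 * a / (a - c') := by
    have : 0 < a := by linarith
    positivity
  have hlt2 : 2 ≤ Real.log t := by linarith
  have hlT0 : 3 / 2 ≤ Real.log T := by linarith
  -- the gap
  have hgap : 2 * Real.pi * c' / Real.log T ≤ 2 * Real.pi * a / Real.log t := by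
    rw [div_le_div_iff₀ (by linarith) (by linarith)]
    have h1 : c' * Real.log t ≤ a * Real.log T := by
      have h2 : 100 * a ≤ (a - c') * Real.log t := by
        have h3 : 100 * a / (a - c') ≤ Real.log t := by linarith
        rw [div_le_iff₀ hac] at h3
        linarith
      have h4 : a * (Real.log t - 1 / 2) ≤ a * Real.log T :=
        mul_le_mul_of_nonneg_left hlogT (by linarith)
      nlinarith
    nlinarith
  set Δ : ℝ := dd κ T with hΔ
  have hΔ0 : 0 < Δ := by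
    rw [hΔ]
    unfold dd
    positivity
  have hΔt : t ^ (κ / 4) * Δ ≤ t ^ (1 - κ / 4) := by
    have h1 : Δ ≤ t ^ (1 - κ / 2) := by
      rw [hΔ]
      unfold dd
      exact Real.rpow_le_rpow hTpos.le hTt (by linarith)
    calc t ^ (κ / 4) * Δ ≤ t ^ (κ / 4) * t ^ (1 - κ / 2) :=
          mul_le_mul_of_nonneg_left h1 (by positivity)
      _ = t ^ (1 - κ / 4) := by
          rw [← Real.rpow_add htpos]
          congr 1
          ring
  set W : ℝ := t ^ (1 - κ / 4) with hW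
  have hW0 : 0 < W := by rw [hW]; positivity
  have hWt : 8 * W ≤ t := by
    have h1 : t ^ (κ / 4) * W = t := by
      rw [hW, ← Real.rpow_add htpos]
      have : κ / 4 + (1 - κ / 4) = 1 := by ring
      rw [this, Real.rpow_one]
    have h2 : 8 ≤ t ^ (κ / 4) := by linarith
    calc 8 * W ≤ t ^ (κ / 4) * W := mul_le_mul_of_nonneg_right h2 hW0.le
      _ = t := h1
  have hKΔW : 8 * (K * Δ) ≤ W := by
    calc 8 * (K * Δ) = (8 * K) * Δ := by ring
      _ ≤ t ^ (κ / 4) * Δ := mul_le_mul_of_nonneg_right hpow hΔ0.le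
      _ ≤ W := hΔt
  have hKΔ0 : 0 < K * Δ := by positivity
  have hW8 : 8 ≤ W := by
    have h1 : t ^ (κ / 4) ≤ W := by
      rw [hW]
      exact Real.rpow_le_rpow_of_exponent_le (by linarith) (by linarith)
    linarith
  have hsmall : 2 * Real.pi * c' / Real.log T ≤ 2 := by
    rw [div_le_iff₀ (by linarith)]
    have h3 : Real.pi < 3.15 := Real.pi_lt_d2
    have h4 : c' < 1 := by linarith
    have h5 : 100 ≤ 100 * a / (a - c') := by
      rw [le_div_iff₀ hac]
      linarith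
    nlinarith
  set M : ℕ := ⌊W / (4 * (K * Δ))⌋₊ with hM
  have hM1 : (M : ℝ) ≤ W / (4 * (K * Δ)) := Nat.floor_le (by positivity)
  have hM2 : W / (4 * (K * Δ)) < M + 1 := Nat.lt_floor_add_one _
  have hge2 : 2 ≤ W / (4 * (K * Δ)) := by
    rw [le_div_iff₀ (by positivity)]
    linarith
  have hM3 : W / (8 * (K * Δ)) ≤ M := by
    have h1 : W / (4 * (K * Δ)) = 2 * (W / (8 * (K * Δ))) := by
      field_simp
      ring
    linarith
  have hMle : 4 * (K * Δ) * M ≤ W := by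
    have := mul_le_mul_of_nonneg_left hM1 (by positivity : 0 ≤ 4 * (K * Δ))
    rwa [mul_div_cancel₀ _ (by positivity : 4 * (K * Δ) ≠ 0)] at this
  set u : ℕ → ℝ := fun i => t + K * Δ + 3 * (K * Δ) * i with hu
  have hui : ∀ i, i < M → t + K * Δ ≤ u i ∧ u i + K * Δ ≤ t + 3 / 4 * W := by
    intro i hi
    have h1 : (i : ℝ) + 1 ≤ M := by exact_mod_cast hi
    have h2 : (0 : ℝ) ≤ i := Nat.cast_nonneg i
    have h3 : 3 * (K * Δ) * ((i : ℝ) + 1) ≤ 3 * (K * Δ) * M :=
      mul_le_mul_of_nonneg_left h1 (by positivity)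
    have h4 : 0 ≤ 3 * (K * Δ) * (i : ℝ) := by positivity
    constructor
    · simp only [hu]; linarith
    · simp only [hu]; nlinarith
  have hdisj : (↑(Finset.range M) : Set ℕ).PairwiseDisjoint (fun i => SLS κ c' K T (u i)) := by
    intro i _ j _ hij
    show Disjoint (SLS κ c' K T (u i)) (SLS κ c' K T (u j))
    rw [Finset.disjoint_left]
    intro n hn hn'
    have h1 := abs_le.mp (mem_SLS.1 hn).2.1
    have h2 := abs_le.mp (mem_SLS.1 hn').2.1
    rw [← hΔ] at h1 h2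
    simp only [hu] at h1 h2
    rcases Nat.lt_or_gt_of_ne hij with h | h
    · have h3 : (i : ℝ) + 1 ≤ j := by exact_mod_cast h
      have h4 : 3 * (K * Δ) * ((i : ℝ) + 1) ≤ 3 * (K * Δ) * j :=
        mul_le_mul_of_nonneg_left h3 (by positivity)
      nlinarith
    · have h3 : (j : ℝ) + 1 ≤ i := by exact_mod_cast h
      have h4 : 3 * (K * Δ) * ((j : ℝ) + 1) ≤ 3 * (K * Δ) * i :=
        mul_le_mul_of_nonneg_left h3 (by positivity)
      nlinarith
  have hsub : (Finset.range M).biUnion (fun i => SLS κ c' K T (u i)) ⊆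
      (IS_fin (1 - κ / 4) a t).toFinset := by
    intro n hn
    obtain ⟨i, hi, hn⟩ := Finset.mem_biUnion.1 hn
    rw [Finset.mem_range] at hi
    obtain ⟨h1, h2, h3⟩ := mem_SLS.1 hn
    obtain ⟨h4, h5⟩ := hui i hi
    rw [abs_le] at h2
    rw [← hΔ] at h2
    rw [Set.Finite.mem_toFinset]
    refine ⟨h1, by linarith, ?_, by linarith⟩
    rw [← hW]
    linarith
  have h5 : 0 ≤ ε * Δ * Real.log T := by
    have : 0 ≤ Real.log T := by linarith
    positivity
  have hlog2 : Real.log t / 2 ≤ Real.log T := by linarith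
  calc ε / (16 * K) * (W * Real.log t) = W / (8 * (K * Δ)) * (ε * Δ * (Real.log t / 2)) := by
        field_simp
        ring
    _ ≤ W / (8 * (K * Δ)) * (ε * Δ * Real.log T) := by
        apply mul_le_mul_of_nonneg_left _ (by positivity)
        exact mul_le_mul_of_nonneg_left hlog2 (by positivity)
    _ ≤ M * (ε * Δ * Real.log T) := mul_le_mul_of_nonneg_right hM3 h5
    _ = ∑ i ∈ Finset.range M, ε * Δ * Real.log T := by
        rw [Finset.sum_const, Finset.card_range, nsmul_eq_mul]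
    _ ≤ ∑ i ∈ Finset.range M, ∑ n ∈ SLS κ c' K T (u i), φ (ord n) := by
        refine Finset.sum_le_sum fun i hi => ?_
        rw [Finset.mem_range] at hi
        obtain ⟨h6, h7⟩ := hui i hi
        refine hloc T hTT0 (u i) ?_ ?_
        · rw [hTd]; linarith
        · rw [hTd]; linarith
    _ = ∑ n ∈ (Finset.range M).biUnion (fun i => SLS κ c' K T (u i)), φ (ord n) := by
        rw [Finset.sum_biUnion hdisj]
    _ ≤ _ := Finset.sum_le_sum_of_subset_of_nonneg hsub fun n _ _ => hφ0 _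

/-- **small gaps with an almost periodic weight in all short intervals** -/
theorem small_int (hRH : RiemannHypothesis) : ∃ θ : ℝ, 0 < θ ∧ θ < 1 ∧
    ∀ M0 : ℝ, 0 < M0 → ∃ ε : ℝ, 0 < ε ∧
    ∀ (φ : ℝ → ℝ) (Mφ : ℝ), APm φ Mφ → (∀ t, 0 ≤ φ t) → (∀ t, φ t ≤ 1) → M0 ≤ Mφ →
    ∃ T0 : ℝ, 10 ≤ T0 ∧ ∀ t : ℝ, T0 ≤ t →
      ε * (t ^ θ * Real.log t) ≤ ∑ n ∈ (IS_fin θ (505 / 1000) t).toFinset, φ (ord n) := by
  obtain ⟨P, B0, q, h1, h3, h4, h5⟩ := PARS
  refine ⟨1 - P.κ / 4, by linarith [P.hκ1], by linarith [P.hκ], fun M0 hM0 => ?_⟩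
  obtain ⟨ε, K, hε, hK, hloc⟩ := LOCALsm (Pool.Agent.R482.GB.RHs_of hRH) P B0 h1 1 one_pos
    (fun _ => 1) q h3 (5049 / 10000) (by norm_num) h4 h5 (50495 / 100000) (by norm_num) M0 hM0
  refine ⟨ε / (16 * K), by positivity, fun φ Mφ hφ hφ0 hφ1 hM => ?_⟩
  obtain ⟨T0, hT0, hl⟩ := hloc φ Mφ hφ hφ0 hφ1 hM
  exact int_of_localS P.hκ P.hκ1 (by norm_num) (by norm_num) (by norm_num) hε hK hφ0 hT0 hl

end Pool.Agent.Run7.h195.LB
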