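import Pool.Agent.Run7.h195.LB.SmLow
import Pool.Agent.Run7.h195.LB.Local

/-! Many small gaps near every `t0`, with an almost periodic weight. -/

open Complex Filter Topology Set MeasureTheory

namespace Pool.Agent.Run7.h195.LB

open SG (hh nn dd dl ord NZ)
open SP (RHs ZZ mu wt Mk Par Eb PS chi qq tt)
open LG TH803TW

lemma SS_fin (κ c' K T t0 : ℝ) : {n : ℕ | 1 ≤ n ∧ |ord n - t0| ≤ K * dd κ T ∧
    ord (n + 1) - ord n < 2 * Real.pi * c' / Real.log T}.Finite :=
  (SP.ManyAux.idx_finite t0 (K * dd κ T)).subset (fun _ hn => ⟨hn.1, hn.2.1⟩)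

/-- the indices of the small gaps near `t0` -/
noncomputable def SLS (κ c' K T t0 : ℝ) : Finset ℕ := (SS_fin κ c' K T t0).toFinset

lemma mem_SLS {κ c' K T t0 : ℝ} {n : ℕ} : n ∈ SLS κ c' K T t0 ↔ 1 ≤ n ∧
    |ord n - t0| ≤ K * dd κ T ∧ ord (n + 1) - ord n < 2 * Real.pi * c' / Real.log T := by
  unfold SLS
  rw [Set.Finite.mem_toFinset]
  rfl

/-- the moments of `M₁` -/
lemma Mk_mom4 (hRH : RHs) (κ : ℝ) (hκ : 0 < κ) (hκ1 : κ < 1 / 2) :
    ∃ C T0 : ℝ, 0 < C ∧ 10 ≤ T0 ∧ ∀ T : ℝ, T0 ≤ T → ∀ t0 : ℝ,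
    (∫ t in (T + 2 * Real.log T)..(2 * T - 2 * Real.log T),
      wt t0 (dd κ T) t * Mk T 1 t ^ 2) ≤ C * dd κ T ∧
    (∫ t in (T + 2 * Real.log T)..(2 * T - 2 * Real.log T),
      wt t0 (dd κ T) t * Mk T 1 t ^ 4) ≤ C * dd κ T := by
  obtain ⟨C2, T2, hC2, hT2, h2⟩ := SP.exp_main hRH κ 1 1 hκ hκ1 one_pos one_pos
  refine ⟨24 * C2, max T2 100, by positivity, hT2.trans (le_max_left _ _), ?_⟩
  intro T hT t0
  have hTT2 : T2 ≤ T := (le_max_left _ _).trans hT
  have hT100 : 100 ≤ T := (le_max_right _ _).trans hT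
  obtain ⟨hL4, hLT⟩ := SP.Mom2.log_bounds T hT100
  have hV : T + 2 * Real.log T ≤ 2 * T - 2 * Real.log T := by linarith
  have hm := h2 T hTT2 t0 (T + 2 * Real.log T) (2 * T - 2 * Real.log T) hV (by linarith)
    (by linarith)
  have hk : ∀ k : ℕ, k ≤ 4 → (∫ t in (T + 2 * Real.log T)..(2 * T - 2 * Real.log T),
      wt t0 (dd κ T) t * Mk T 1 t ^ k) ≤ 24 * C2 * dd κ T := by
    intro k hk4
    have hpt : ∀ t ∈ Set.Icc (T + 2 * Real.log T) (2 * T - 2 * Real.log T),
        wt t0 (dd κ T) t * Mk T 1 t ^ k ≤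
        24 * (wt t0 (dd κ T) t * Real.exp (1 * (‖SP.Ya T 1 t‖ + Mk T 1 t))) := by
      intro t ht
      have hM0 : 0 ≤ Mk T 1 t := SP.DpB_Mk_nonneg _ _ _
      have h3 : Mk T 1 t ^ k ≤ 24 * Real.exp (1 * (‖SP.Ya T 1 t‖ + Mk T 1 t)) := by
        have h4 := Real.pow_div_factorial_le_exp (Mk T 1 t) hM0 k
        have h5 : ((k.factorial : ℕ) : ℝ) ≤ 24 := by
          have : k.factorial ≤ (4).factorial := Nat.factorial_le hk4
          have h6 : (4).factorial = 24 := rfl
          rw [h6] at this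
          exact_mod_cast this
        have hf : (0 : ℝ) < (k.factorial : ℕ) := by exact_mod_cast Nat.factorial_pos k
        rw [div_le_iff₀ hf] at h4
        calc Mk T 1 t ^ k ≤ Real.exp (Mk T 1 t) * (k.factorial : ℕ) := h4
          _ ≤ Real.exp (1 * (‖SP.Ya T 1 t‖ + Mk T 1 t)) * 24 := by
              apply mul_le_mul _ h5 hf.le (Real.exp_pos _).le
              apply Real.exp_le_exp.2
              linarith [norm_nonneg (SP.Ya T 1 t)]
          _ = _ := by ring
      have hw := SP.Mom2.wt_nonneg t0 (dd κ T) t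
      calc _ ≤ wt t0 (dd κ T) t * (24 * Real.exp (1 * (‖SP.Ya T 1 t‖ + Mk T 1 t))) :=
            mul_le_mul_of_nonneg_left h3 hw
        _ = _ := by ring
    have hcont : Continuous (fun t => 24 * (wt t0 (dd κ T) t *
        Real.exp (1 * (‖SP.Ya T 1 t‖ + Mk T 1 t)))) :=
      (SP.Mom2.main_cont T κ 1 1 (by linarith) one_pos t0).const_mul _ |>.congr
        (fun t => rfl)
    have hmono := SP.Mom2.int_mono (fun t => wt t0 (dd κ T) t * Mk T 1 t ^ k) _ _ _ hV
      (fun t _ => mul_nonneg (SP.Mom2.wt_nonneg _ _ _)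
        (pow_nonneg (SP.DpB_Mk_nonneg _ _ _) k)) hpt hcont
    refine hmono.trans ?_
    rw [intervalIntegral.integral_const_mul]
    calc _ ≤ 24 * (C2 * dd κ T) := by
          apply mul_le_mul_of_nonneg_left hm (by norm_num)
      _ = _ := by ring
  exact ⟨hk 2 (by norm_num), hk 4 le_rfl⟩

open SP.ManyAux LG.LocAux in
/-- **many small gaps near every `t0`, weighted** -/
theorem LOCALsm (hRH : RHs) (P : Par) (B0 : ℕ) (hB : P.B = 2 * B0) (r : ℝ) (hr : 0 < r)
    (F q : ℕ → ℝ) (hq : IsQ B0 (tm P r) q) (c : ℝ) (hc : 0 < c) (hSF : 0 < SF B0 F q)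
    (hstrict : SF B0 F q < c * SF B0 F q +
      4 * r / Real.pi * ∑ m ∈ Finset.Icc 2 B0, sm0 P c m * SM B0 F q m) (c1 : ℝ) (hcc1 : c < c1)
    (M0 : ℝ) (hM0 : 0 < M0) :
    ∃ ε K : ℝ, 0 < ε ∧ 1 ≤ K ∧ ∀ (φ : ℝ → ℝ) (Mφ : ℝ), APm φ Mφ → (∀ t, 0 ≤ φ t) →
      (∀ t, φ t ≤ 1) → M0 ≤ Mφ → ∃ T0 : ℝ, 10 ≤ T0 ∧ ∀ T : ℝ, T0 ≤ T →
      ∀ t0 : ℝ, 11 / 10 * T ≤ t0 → t0 ≤ 19 / 10 * T →
      ε * dd P.κ T * Real.log T ≤ ∑ n ∈ SLS P.κ c1 K T t0, φ (ord n) := by
  classical
  have hpi := Real.pi_pos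
  obtain ⟨δ, A1, hδ, hA1, hpar⟩ := choose_S P B0 r F q c hstrict
  set S0 := SF B0 F q with hS0
  set ρ0 := S0 * δ with hρ0d
  have hρ00 : 0 < ρ0 := by positivity
  set ρ := M0 * ρ0 / 2 with hρ
  have hρ0 : 0 < ρ := by positivity
  obtain ⟨C4, TF, hC4, hTF, hmom⟩ := MOM' hRH P B0 hB (-r) F
  obtain ⟨C6, TK, hC6, hTK, hMk⟩ := Mk_mom4 hRH P.κ P.hκ P.hκ1
  -- parameters
  set η := (c1 - c) / 2 with hη
  have hη0 : 0 < η := by rw [hη]; linarith
  have hc10 : 0 < c1 := by linarith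
  set e := ρ / (8 * C4) with he
  have he0 : 0 < e := by positivity
  have heC : e * C4 = ρ / 8 := by rw [he]; field_simp
  set e1 := ρ / (8 * (C4 + C6)) with he1
  have he10 : 0 < e1 := by positivity
  have he1C : e1 * (C4 + C6) = ρ / 8 := by rw [he1]; field_simp
  obtain ⟨A0, hA0, hfar⟩ := gK_far hc hη0 he10
  set A := max A0 A1 with hA
  have hApos : 0 < A := lt_of_lt_of_le hA1 (le_max_right _ _)
  have hfar' := hfar A (le_max_left _ _)
  have hst := hpar A (le_max_right _ _)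
  have hg0 : ∀ x, 0 ≤ gK A c x := fun x => (gK_bounds A c x hApos hc).1
  have hg1 : ∀ x, gK A c x ≤ 1 := fun x => (gK_bounds A c x hApos hc).2
  have hgc : Continuous (gK A c) := gK_continuous A c
  have hCOMB1 := COMB1n P B0 hB r hr F q hq
  have hCOMB2 := COMB2n P B0 hB r hr F q hq A c hApos hc
  obtain ⟨TA, hTA, hlow⟩ := mean_lowS P B0 r F q A c δ
    (MEAN hRH P B0 hB (-r) F A c hApos hc) hCOMB1 hCOMB2 hSF hδ hst
  set C9 := 1 + (Real.pi * (c + η)) ^ 2 + e1 with hC9
  have hC90 : 0 < C9 := by positivity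
  set G := C9 ^ 2 / (4 * e) with hG
  have hG0 : 0 < G := by positivity
  set B := 8 * G * C6 / ρ with hBd
  have hB0 : 0 < B := by positivity
  have hBG : G * (C6 / B) = ρ / 8 := by rw [hBd]; field_simp
  obtain ⟨M, hMn, hMe⟩ := exists_M (ρ / (48 * (G * B))) (by positivity)
  set ω : ℝ := ρ / (24 * (G * B)) with hω
  have hω0 : 0 < ω := by positivity
  set R := Real.pi * (c + η) with hR
  have hR0 : 0 < R := by positivity
  obtain ⟨T1, hT1⟩ := (Real.tendsto_log_atTop.eventually_ge_atTop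
    (max 1 R)).exists_forall_of_atTop
  obtain ⟨T2, hT2⟩ := (Real.isLittleO_log_id_atTop.bound
    (by norm_num : (0 : ℝ) < 1 / 4)).exists_forall_of_atTop
  refine ⟨ρ / (8 * (G * B) * R), M + 1, by positivity, by linarith, ?_⟩
  intro φ Mφ hφ hφ0 hφ1 hMφ
  obtain ⟨δ0, hδ0, hunif⟩ := Pool.Agent.R482.GB.unif_tp hφ hω0
  obtain ⟨TP, hTP, hmeanφ⟩ := mean_phi hRH P B0 hB (-r) F A c hApos hc hCOMB1 hCOMB2 hφ
    (M0 * ρ0 / 4) (by positivity)
  have hφc := APm.cont' hφ
  obtain ⟨T3, hT3⟩ := (Real.tendsto_log_atTop.eventually_ge_atTop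
    (R / δ0)).exists_forall_of_atTop
  refine ⟨max (max (max TA TF) (max TK TP)) (max T1 (max T2 T3)),
    hTA.trans (((le_max_left _ _).trans (le_max_left _ _)).trans (le_max_left _ _)), ?_⟩
  intro T hT t0 ht0 ht1
  simp only [max_le_iff] at hT
  obtain ⟨⟨⟨eA, eF⟩, eK, eP⟩, e1', e2', e3'⟩ := hT
  have hT10 : 10 ≤ T := hTA.trans eA
  have hTone : 1 ≤ T := by linarith
  have hTpos : 0 < T := by linarith
  have hLB := hT1 T e1'
  simp only [max_le_iff] at hLB
  obtain ⟨hL1, hLR⟩ := hLB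
  have hlowT := hlow T eA t0 ht0 ht1
  have hmomT := hmom T eF t0
  obtain ⟨hMk2, hMk4⟩ := hMk T eK t0
  obtain ⟨hφa, hφb⟩ := hmeanφ T eP t0 ht0 ht1
  have hLδ := hT3 T e3'
  set L := Real.log T with hL
  have hL0 : 0 < L := by linarith
  have hLT : 4 * L ≤ T := by
    have := hT2 T e2'
    simp only [id, Real.norm_eq_abs] at this
    rw [abs_of_pos hTpos] at this
    have h := le_abs_self (Real.log T)
    rw [← hL] at h this
    linarith
  set Δ := dd P.κ T with hΔ
  have hΔ1 : 1 ≤ Δ := by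
    rw [hΔ]; unfold dd
    exact Real.one_le_rpow hTone (by linarith [P.hκ1])
  have hΔ0 : 0 < Δ := by linarith
  set V1 := T + 2 * L with hV1
  set V2 := 2 * T - 2 * L with hV2
  have hV : V1 ≤ V2 := by rw [hV1, hV2]; linarith
  set w : ℝ → ℝ := wt t0 Δ with hw
  have hw0 : ∀ t, 0 ≤ w t := fun t => wt_nonneg _ _ _
  have hw1 : ∀ t, w t ≤ 1 := fun t => wt_le_one _ _ _
  have hwc : Continuous w := wt_cont _ _
  set En : ℝ → ℝ := fun t => ‖EE P B0 (-r) F T t‖ with hEn
  have hEc : Continuous En := (EE_cont P B0 (-r) F T).norm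
  set Z : ℝ → ℝ := fun t => Zs A c T t with hZ
  have hZc : Continuous Z := Zs_cont A c T hTone hgc
  have hMkc : Continuous (fun t => Mk T 1 t) := Mk_cont T 1 hTone
  have hRL0 : 0 < R / L := by positivity
  have hRL1 : R / L ≤ 1 := by
    rw [div_le_one hL0]
    exact hLR
  have hRLδ : R / L ≤ δ0 := by
    rw [div_le_iff₀ hL0]
    rw [div_le_iff₀ hδ0] at hLδ
    linarith
  -- the index set
  set N := SLS P.κ c1 (M + 1) T t0 with hN
  set S : ℝ → ℝ := fun t => ∑ n ∈ N,
    φ (ord n) * (Set.Icc (ord n - R / L) (ord n + R / L)).indicator (fun _ => (1 : ℝ)) t with hSdef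
  have hSn : ∀ t, 0 ≤ S t := fun t =>
    Finset.sum_nonneg (fun n _ => mul_nonneg (hφ0 (ord n))
      (Set.indicator_nonneg (fun _ _ => zero_le_one) t))
  have hSi : ∀ n ∈ N, IntervalIntegrable (fun t => φ (ord n) * (Set.Icc (ord n - R / L)
      (ord n + R / L)).indicator (fun _ => (1 : ℝ)) t) volume V1 V2 := fun n _ =>
    ((ind_int (ord n - R / L) (ord n + R / L) V1 V2 (by linarith) hV).1).const_mul _
  have iS : IntervalIntegrable S volume V1 V2 := by
    have h1 := IntervalIntegrable.sum N hSi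
    have h2 : (∑ n ∈ N, (fun t => φ (ord n) * (Set.Icc (ord n - R / L)
      (ord n + R / L)).indicator (fun _ => (1 : ℝ)) t)) = S := by
      funext t
      rw [Finset.sum_apply]
    rw [← h2]
    exact h1
  have I4 : ∫ t in V1..V2, S t ≤ (∑ n ∈ N, φ (ord n)) * (2 * (R / L)) := by
    rw [hSdef, intervalIntegral.integral_finsetSum hSi, Finset.sum_mul]
    apply Finset.sum_le_sum
    intro n hn
    rw [intervalIntegral.integral_const_mul]
    apply mul_le_mul_of_nonneg_left _ (hφ0 (ord n))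
    refine ((ind_int (ord n - R / L) (ord n + R / L) V1 V2 (by linarith) hV).2).trans ?_
    linarith
  -- pointwise bound
  have hpt : ∀ t ∈ Set.Icc V1 V2, w t * En t ^ 2 * Z t * φ t - w t * En t ^ 2 * φ t ≤
      (e + e1) * (w t * En t ^ 4) + e1 * (w t * Mk T 1 t ^ 2) + G * B * S t +
      G * B * (ω * w t) + G * B * (Real.exp (-M ^ 2 / 4) * wt t0 (2 * Δ) t) +
      G / B * (w t * Mk T 1 t ^ 4) := by
    intro t ht
    have hMk0 : 0 ≤ Mk T 1 t := SP.ManyAux.Mk_nonneg T 1 t hTone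
    set hyp := (∃ n : ℕ, 1 ≤ n ∧ |ord n - t| ≤ Real.pi * (c + η) / Real.log T ∧
      ord (n + 1) - ord n < 2 * Real.pi * c1 / Real.log T) with hhyp
    set b1 : ℝ := if hyp then 1 else 0 with hb1
    have hb10 : 0 ≤ b1 := by rw [hb1]; split_ifs <;> norm_num
    have hdich : Z t ≤ 1 + e1 * Mk T 1 t ∨ (1 ≤ b1 ∧ Z t ≤ C9 * Mk T 1 t) := by
      by_cases hh : hyp
      · right
        exact ⟨by rw [hb1, if_pos hh], Zs_Mk hTone hg1 he10 hfar'⟩
      · left
        exact Zs_one hTone hL0 hc10 (by rw [hη]; linarith) hg0 hg1 he10 hfar' hh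
    have h1 := pointS (a := En t ^ 2) he0 he10 hC90 hB0 hb10 (by positivity) hMk0 hdich
    have hwφ0 : 0 ≤ w t * φ t := mul_nonneg (hw0 t) (hφ0 t)
    have hwφ : w t * φ t ≤ w t := mul_le_of_le_one_right (hw0 t) (hφ1 t)
    have h2 := mul_le_mul_of_nonneg_left h1 hwφ0
    have h3 : w t * φ t * b1 ≤ S t + ω * w t + Real.exp (-M ^ 2 / 4) * wt t0 (2 * Δ) t := by
      have hE0 : 0 ≤ Real.exp (-M ^ 2 / 4) * wt t0 (2 * Δ) t :=
        mul_nonneg (Real.exp_pos _).le (wt_nonneg _ _ _)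
      have hωw : 0 ≤ ω * w t := mul_nonneg hω0.le (hw0 t)
      by_cases hh : hyp
      · have hb : b1 = 1 := by rw [hb1, if_pos hh]
        rw [hb, mul_one]
        obtain ⟨n, hn, h5, h6⟩ := hh
        rw [← hR, ← hL] at h5
        by_cases hn0 : |ord n - t0| ≤ (M + 1) * Δ
        · have hnN : n ∈ N := by
            rw [hN, mem_SLS]
            exact ⟨hn, hn0, h6⟩
          have h8 : (Set.Icc (ord n - R / L) (ord n + R / L)).indicator
              (fun _ => (1 : ℝ)) t = 1 := by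
            apply Set.indicator_of_mem
            rw [abs_le] at h5
            constructor <;> linarith
          have h9 : φ (ord n) * (Set.Icc (ord n - R / L) (ord n + R / L)).indicator
              (fun _ => (1 : ℝ)) t ≤ S t :=
            Finset.single_le_sum (f := fun n => φ (ord n) * (Set.Icc (ord n - R / L)
              (ord n + R / L)).indicator (fun _ => (1 : ℝ)) t)
              (fun n _ => mul_nonneg (hφ0 (ord n))
                (Set.indicator_nonneg (fun _ _ => zero_le_one) t)) hnN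
          rw [h8, mul_one] at h9
          have h10 : |t - ord n| ≤ δ0 := by
            rw [abs_sub_comm]
            exact h5.trans hRLδ
          have h11 := (abs_le.1 (hunif _ _ h10)).2
          have h12 : w t * φ t ≤ w t * (φ (ord n) + ω) :=
            mul_le_mul_of_nonneg_left (by linarith) (hw0 t)
          have h13 : w t * φ (ord n) ≤ φ (ord n) := mul_le_of_le_one_left (hφ0 _) (hw1 t)
          have h14 : w t * (φ (ord n) + ω) = w t * φ (ord n) + ω * w t := by ring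
          linarith only [h9, h12, h13, h14, hE0]
        · push Not at hn0
          have h7 : M * Δ ≤ |t - t0| := by
            have h8 : |ord n - t0| ≤ |ord n - t| + |t - t0| := by
              have := abs_add_le (ord n - t) (t - t0)
              simpa using this
            have h9 : |ord n - t| ≤ Δ := h5.trans (hRL1.trans hΔ1)
            have h10 : (M + 1) * Δ = M * Δ + Δ := by ring
            linarith only [h8, h9, h10, hn0]
          have h11 := wt_tail t0 Δ t M hΔ0 hMn h7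
          have h12 : w t * φ t ≤ w t := hwφ
          have h13 : w t ≤ Real.exp (-M ^ 2 / 4) * wt t0 (2 * Δ) t := h11
          linarith only [hSn t, h12, h13, hωw]
      · have hb : b1 = 0 := by rw [hb1, if_neg hh]
        rw [hb, mul_zero]
        linarith only [hSn t, hE0, hωw]
    have h4 : G * B * (w t * φ t * b1) ≤
        G * B * (S t + ω * w t + Real.exp (-M ^ 2 / 4) * wt t0 (2 * Δ) t) :=
      mul_le_mul_of_nonneg_left h3 (by positivity)
    have e3 : w t * En t ^ 2 * Z t * φ t - w t * En t ^ 2 * φ t =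
        w t * φ t * (En t ^ 2 * (Z t - 1)) := by
      ring
    rw [e3]
    refine h2.trans ?_
    have e4 : w t * φ t * ((e + e1) * (En t ^ 2) ^ 2 + e1 * Mk T 1 t ^ 2 +
        C9 ^ 2 / (4 * e) * (B * b1 + Mk T 1 t ^ 4 / B)) =
        w t * φ t * ((e + e1) * En t ^ 4) + w t * φ t * (e1 * Mk T 1 t ^ 2) +
        G * B * (w t * φ t * b1) + w t * φ t * (G / B * Mk T 1 t ^ 4) := by
      rw [hG]
      ring
    rw [e4]
    have e5 : w t * φ t * ((e + e1) * En t ^ 4) ≤ (e + e1) * (w t * En t ^ 4) := by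
      have : 0 ≤ (e + e1) * En t ^ 4 := by positivity
      calc w t * φ t * ((e + e1) * En t ^ 4) ≤ w t * ((e + e1) * En t ^ 4) :=
            mul_le_mul_of_nonneg_right hwφ this
        _ = _ := by ring
    have e6 : w t * φ t * (e1 * Mk T 1 t ^ 2) ≤ e1 * (w t * Mk T 1 t ^ 2) := by
      have : 0 ≤ e1 * Mk T 1 t ^ 2 := by positivity
      calc w t * φ t * (e1 * Mk T 1 t ^ 2) ≤ w t * (e1 * Mk T 1 t ^ 2) :=
            mul_le_mul_of_nonneg_right hwφ this
        _ = _ := by ring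
    have e7 : w t * φ t * (G / B * Mk T 1 t ^ 4) ≤ G / B * (w t * Mk T 1 t ^ 4) := by
      have : 0 ≤ G / B * Mk T 1 t ^ 4 := by positivity
      calc w t * φ t * (G / B * Mk T 1 t ^ 4) ≤ w t * (G / B * Mk T 1 t ^ 4) :=
            mul_le_mul_of_nonneg_right hwφ this
        _ = _ := by ring
    linarith only [e5, e6, e7, h4]
  -- integrability
  have i0 : IntervalIntegrable (fun t => w t * En t ^ 2 * φ t) volume V1 V2 :=
    ((hwc.mul (hEc.pow 2)).mul hφc).intervalIntegrable _ _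
  have i0' : IntervalIntegrable (fun t => w t * En t ^ 2 * Z t * φ t) volume V1 V2 :=
    (((hwc.mul (hEc.pow 2)).mul hZc).mul hφc).intervalIntegrable _ _
  have i2 : IntervalIntegrable (fun t => w t * En t ^ 4) volume V1 V2 :=
    (hwc.mul (hEc.pow 4)).intervalIntegrable _ _
  have i3 : IntervalIntegrable (fun t => w t * Mk T 1 t ^ 2) volume V1 V2 :=
    (hwc.mul (hMkc.pow 2)).intervalIntegrable _ _
  have i4 : IntervalIntegrable (fun t => w t * Mk T 1 t ^ 4) volume V1 V2 :=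
    (hwc.mul (hMkc.pow 4)).intervalIntegrable _ _
  have i1 : IntervalIntegrable (fun t => ω * w t) volume V1 V2 :=
    (continuous_const.mul hwc).intervalIntegrable _ _
  have i5 : IntervalIntegrable (fun t => Real.exp (-M ^ 2 / 4) * wt t0 (2 * Δ) t) volume V1 V2 :=
    (continuous_const.mul (wt_cont _ _)).intervalIntegrable _ _
  -- the integrals
  have I1 : ∫ t in V1..V2, ω * w t ≤ ω * (3 * Δ) := by
    rw [intervalIntegral.integral_const_mul]
    exact mul_le_mul_of_nonneg_left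
      ((wt_int t0 Δ V1 V2 hΔ0 hV).trans (mul_le_mul_of_nonneg_right sqrt_two_pi_le hΔ0.le)) hω0.le
  have I5 : ∫ t in V1..V2, Real.exp (-M ^ 2 / 4) * wt t0 (2 * Δ) t ≤
      ρ / (48 * (G * B)) * (6 * Δ) := by
    rw [intervalIntegral.integral_const_mul]
    have h1 := wt_int t0 (2 * Δ) V1 V2 (by positivity) hV
    have h2 : Real.sqrt (2 * Real.pi) * (2 * Δ) ≤ 3 * (2 * Δ) :=
      mul_le_mul_of_nonneg_right sqrt_two_pi_le (by positivity)
    have h3 : 0 ≤ ∫ t in V1..V2, wt t0 (2 * Δ) t :=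
      intervalIntegral.integral_nonneg hV fun t _ => wt_nonneg _ _ _
    calc Real.exp (-M ^ 2 / 4) * ∫ t in V1..V2, wt t0 (2 * Δ) t ≤
        (ρ / (48 * (G * B))) * ∫ t in V1..V2, wt t0 (2 * Δ) t :=
          mul_le_mul_of_nonneg_right hMe h3
      _ ≤ (ρ / (48 * (G * B))) * (6 * Δ) :=
          mul_le_mul_of_nonneg_left (by linarith) (by positivity)
  have hint := intervalIntegral.integral_mono_on hV (i0'.sub i0)
    ((((((i2.const_mul (e + e1)).add (i3.const_mul e1)).add (iS.const_mul (G * B))).add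
      (i1.const_mul (G * B))).add (i5.const_mul (G * B))).add (i4.const_mul (G / B))) hpt
  rw [intervalIntegral.integral_sub i0' i0,
    intervalIntegral.integral_add
    (((((i2.const_mul (e + e1)).add (i3.const_mul e1)).add (iS.const_mul (G * B))).add
      (i1.const_mul (G * B))).add (i5.const_mul (G * B))) (i4.const_mul (G / B)),
    intervalIntegral.integral_add
    ((((i2.const_mul (e + e1)).add (i3.const_mul e1)).add (iS.const_mul (G * B))).add
      (i1.const_mul (G * B))) (i5.const_mul (G * B)),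
    intervalIntegral.integral_add
    (((i2.const_mul (e + e1)).add (i3.const_mul e1)).add (iS.const_mul (G * B)))
      (i1.const_mul (G * B)),
    intervalIntegral.integral_add
    ((i2.const_mul (e + e1)).add (i3.const_mul e1)) (iS.const_mul (G * B)),
    intervalIntegral.integral_add (i2.const_mul (e + e1)) (i3.const_mul e1),
    intervalIntegral.integral_const_mul, intervalIntegral.integral_const_mul,
    intervalIntegral.integral_const_mul, intervalIntegral.integral_const_mul (G * B),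
    intervalIntegral.integral_const_mul (G * B), intervalIntegral.integral_const_mul (G / B)]
    at hint
  have hlow2 : ρ * Δ ≤ (∫ t in V1..V2, w t * En t ^ 2 * Z t * φ t) -
      ∫ t in V1..V2, w t * En t ^ 2 * φ t := by
    have ha := (abs_le.1 hφa).2
    have hb := (abs_le.1 hφb).1
    have h6 : M0 * (ρ0 * Δ) ≤ Mφ * ((∫ t in V1..V2, w t * En t ^ 2 * Z t) -
        ∫ t in V1..V2, w t * En t ^ 2) := by
      apply mul_le_mul hMφ hlowT (by positivity) (by linarith)
    have h7 : ρ * Δ = M0 * (ρ0 * Δ) - 2 * (M0 * ρ0 / 4 * Δ) := by rw [hρ]; ring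
    rw [h7]
    rw [mul_sub] at h6
    linarith
  have J2 := mul_le_mul_of_nonneg_left hmomT (by positivity : 0 ≤ e + e1)
  have J3 := mul_le_mul_of_nonneg_left hMk2 he10.le
  have J4 := mul_le_mul_of_nonneg_left I4 (by positivity : 0 ≤ G * B)
  have J1 := mul_le_mul_of_nonneg_left I1 (by positivity : 0 ≤ G * B)
  have J5 := mul_le_mul_of_nonneg_left I5 (by positivity : 0 ≤ G * B)
  have J6 := mul_le_mul_of_nonneg_left hMk4 (by positivity : 0 ≤ G / B)
  have K1 : G * B * (ω * (3 * Δ)) = ρ / 8 * Δ := by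
    rw [hω]
    field_simp
    ring
  have K5 : G * B * (ρ / (48 * (G * B)) * (6 * Δ)) = ρ / 8 * Δ := by
    field_simp
    ring
  have K6 : G / B * (C6 * Δ) = ρ / 8 * Δ := by
    have : G / B * (C6 * Δ) = G * (C6 / B) * Δ := by ring
    rw [this, hBG]
  have K2 : (e + e1) * (C4 * Δ) + e1 * (C6 * Δ) = ρ / 4 * Δ := by
    have : (e + e1) * (C4 * Δ) + e1 * (C6 * Δ) = (e * C4 + e1 * (C4 + C6)) * Δ := by ring
    rw [this, heC, he1C]
    ring
  rw [K1] at J1
  rw [K5] at J5
  rw [K6] at J6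
  have hρΔ : 0 ≤ ρ * Δ := by positivity
  have K : ρ / 4 * Δ ≤ G * B * ((∑ n ∈ N, φ (ord n)) * (2 * (R / L))) := by
    linarith only [hint, hlow2, J1, J2, J3, J4, J5, J6, K2, hρΔ]
  have e5 : G * B * ((∑ n ∈ N, φ (ord n)) * (2 * (R / L))) =
      (∑ n ∈ N, φ (ord n)) * (2 * (G * B) * R) / L := by
    field_simp
  rw [e5, le_div_iff₀ hL0] at K
  have e6 : ρ / (8 * (G * B) * R) * Δ * L = (ρ / 4 * Δ * L) / (2 * (G * B) * R) := by
    field_simp
    ring
  rw [e6, div_le_iff₀ (by positivity)]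
  exact K

end Pool.Agent.Run7.h195.LB
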