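import Pool.Agent.H297R2.LG.Final

/-! The moments of the two-sided Dirichlet polynomial for coefficients of any sign
(after `Pool/Agent/H297R2/LG/Mom1.lean`). -/

open Complex Filter Topology Set MeasureTheory

namespace Pool.Agent.Run7.h195.LB

open SG (hh nn dd dl ord NZ)
open SP (RHs ZZ mu wt Mk Par Eb PS chi qq tt)
open LG LG.MomA

/-- bound for the power sums over `PS \ C` -/
theorem tt_bound' (hRH : RHs) (P : Par) (B0 : ℕ) (hB : P.B = 2 * B0) (r : ℝ) :
    ∃ K T0 : ℝ, 1 ≤ K ∧ 10 ≤ T0 ∧ ∀ T : ℝ, T0 ≤ T → ∀ t : ℝ,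
    T + 2 * Real.log T ≤ t → t ≤ 2 * T - 2 * Real.log T → ∀ C ∈ fam P B0 T,
    ∀ m, 1 ≤ m → m ≤ P.B →
    ‖tt (PS P T \ C) (Eb P T) (ww P r T t) m‖ ≤ K * (1 + Mk T 1 t) := by
  obtain ⟨C1, T1, hC1, hT1, h1⟩ := SP.Pj_bound hRH P
  obtain ⟨C2, T2, hC2, hT2, h2⟩ := SP.chi_approx P
  obtain ⟨C3, T3, hC3, hT3, h3⟩ := fam_facts P B0 hB r (fun _ => 1)
  refine ⟨1 + P.B * (|r| * C1 + B0) + P.B * (C3 * C2), max (max T1 T2) (max T3 (Real.exp 20)), ?_, ?_, ?_⟩
  · have : (0:ℝ) ≤ P.B * (|r| * C1 + B0) := by positivity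
    have : (0:ℝ) ≤ P.B * (C3 * C2) := by positivity
    linarith
  · exact hT1.trans ((le_max_left _ _).trans (le_max_left _ _))
  intro T hT t ht ht' C hC m hm hmB
  simp only [max_le_iff] at hT
  obtain ⟨⟨hTT1, hTT2⟩, hTT3, hTe⟩ := hT
  have hT10 : 10 ≤ T := hT1.trans hTT1
  have hL20 : 20 ≤ Real.log T := by
    rw [Real.le_log_iff_exp_le (by linarith)]; exact hTe
  obtain ⟨hchi, hsum⟩ := h2 T hTT2
  obtain ⟨hf1, hf2, -, -⟩ := h3 T hTT3
  set M := Mk T 1 t with hM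
  have hM0 : 0 ≤ M := SP.DpB_Mk_nonneg _ _ _
  have hdl0 : 0 ≤ dl P.c T := by
    unfold dl
    have := P.hc
    have := Real.pi_pos
    positivity
  have hdl1 : dl P.c T ≤ 1 := by
    unfold dl
    rw [div_le_one (by linarith)]
    have := P.hc1
    have := P.hc
    have := Real.pi_lt_four
    nlinarith [Real.pi_pos]
  have hP := h1 T hTT1 (t + dl P.c T / 2) (by linarith) (by linarith) m
  have e0 : t + dl P.c T / 2 - dl P.c T / 2 = t := by ring
  rw [e0, ← hM] at hP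
  obtain ⟨hC1', hC2'⟩ := mem_fam.mp hC
  set y : ℕ → ℂ := ww P r T t with hy
  have hmem : ∀ p ∈ PS P T, 1 ≤ p ∧ p.Prime ∧ 2 ≤ Eb P T p := by
    intro p hp
    have := prime_of_mem hp
    exact ⟨this.1.one_lt.le, this.1, this.2⟩
  have hy1 : ∀ p ∈ PS P T, ‖y p‖ ≤ 1 := by
    intro p hp
    rw [hy, norm_ww]
    exact (hf2 p hp).1
  have hy2 : ∀ p ∈ PS P T, ‖y p‖ ^ 2 ≤ C3 * (1 / p) := by
    intro p hp
    rw [hy, norm_ww, sq_abs]
    have := (hf2 p hp).2.1
    rwa [mul_one_div]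
  have hsplit : tt (PS P T \ C) (Eb P T) y m =
      (∑ p ∈ (PS P T \ C).filter (fun p => Eb P T p = m), (m : ℂ) * y p) +
      ∑ p ∈ (PS P T \ C).filter (fun p => ¬ Eb P T p = m),
        if Eb P T p ∣ m then (-1 : ℂ) ^ (m / Eb P T p - 1) * (Eb P T p : ℂ) *
          y p ^ (m / Eb P T p) else 0 := by
    unfold tt
    rw [← Finset.sum_filter_add_sum_filter_not (PS P T \ C) (fun p => Eb P T p = m)]
    congr 1
    apply Finset.sum_congr rfl
    intro p hp
    rw [Finset.mem_filter] at hp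
    rw [hp.2]
    simp [Nat.div_self hm]
  rw [hsplit]
  have hA : ‖∑ p ∈ (PS P T \ C).filter (fun p => Eb P T p = m), (m : ℂ) * y p‖ ≤
      P.B * (|r| * C1 + B0) * (1 + M) := by
    rw [← Finset.mul_sum, norm_mul, Complex.norm_natCast]
    have h5 : ‖∑ p ∈ (PS P T).filter (fun p => Eb P T p = m), y p‖ ≤ |r| * (C1 * (1 + M)) := by
      have h6 : (starRingEnd ℂ) (∑ p ∈ (PS P T).filter (fun p => Eb P T p = m), y p) =
          (r : ℂ) * ∑ p ∈ (PS P T).filter (fun p => Eb P T p = m), (chi P T p : ℂ) *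
            (p : ℂ) ^ (hh (dl P.c T) - (⟨1 / 2, t + dl P.c T / 2⟩ : ℂ)) := by
        rw [map_sum, Finset.mul_sum]
        apply Finset.sum_congr rfl
        intro p hp
        rw [Finset.mem_filter] at hp
        exact ww_conj P r T t p (hmem p hp.1).1
      rw [← RCLike.norm_conj, h6, norm_mul, Complex.norm_real, Real.norm_eq_abs]
      exact mul_le_mul_of_nonneg_left hP (abs_nonneg r)
    have h7 : ∑ p ∈ (PS P T \ C).filter (fun p => Eb P T p = m), y p =
        ∑ p ∈ (PS P T).filter (fun p => Eb P T p = m), y p -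
          ∑ p ∈ C.filter (fun p => Eb P T p = m), y p := by
      rw [eq_sub_iff_add_eq, ← Finset.sum_union]
      · apply Finset.sum_congr _ (fun _ _ => rfl)
        rw [← Finset.filter_union, Finset.sdiff_union_of_subset hC1']
      · apply Finset.disjoint_filter_filter
        exact Finset.sdiff_disjoint
    have h8 : ‖∑ p ∈ C.filter (fun p => Eb P T p = m), y p‖ ≤ B0 := by
      calc _ ≤ ∑ p ∈ C.filter (fun p => Eb P T p = m), ‖y p‖ := norm_sum_le _ _
        _ ≤ ∑ p ∈ C.filter (fun p => Eb P T p = m), 1 := by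
            apply Finset.sum_le_sum
            intro p hp
            rw [Finset.mem_filter] at hp
            exact hy1 p (hC1' hp.1)
        _ = ((C.filter (fun p => Eb P T p = m)).card : ℝ) := by simp
        _ ≤ B0 := by
            have := (hf1 C hC).2.2.2
            exact_mod_cast (Finset.card_filter_le _ _).trans this
    rw [h7]
    have h9 := (norm_sub_le (∑ p ∈ (PS P T).filter (fun p => Eb P T p = m), y p)
          (∑ p ∈ C.filter (fun p => Eb P T p = m), y p)).trans (add_le_add h5 h8)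
    calc (m : ℝ) * _ ≤ P.B * (|r| * (C1 * (1 + M)) + B0) := by
          apply mul_le_mul (by exact_mod_cast hmB) h9 (norm_nonneg _) (by positivity)
      _ ≤ P.B * (|r| * C1 + B0) * (1 + M) := by
          have e1 : (0 : ℝ) ≤ P.B * B0 * M := by positivity
          nlinarith
  have hBd : ‖∑ p ∈ (PS P T \ C).filter (fun p => ¬ Eb P T p = m),
        if Eb P T p ∣ m then (-1 : ℂ) ^ (m / Eb P T p - 1) * (Eb P T p : ℂ) *
          y p ^ (m / Eb P T p) else 0‖ ≤ P.B * (C3 * C2) := by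
    calc _ ≤ ∑ p ∈ (PS P T \ C).filter (fun p => ¬ Eb P T p = m),
          ‖if Eb P T p ∣ m then (-1 : ℂ) ^ (m / Eb P T p - 1) * (Eb P T p : ℂ) *
            y p ^ (m / Eb P T p) else 0‖ := norm_sum_le _ _
      _ ≤ ∑ p ∈ (PS P T \ C).filter (fun p => ¬ Eb P T p = m), P.B * (C3 * (1 / p : ℝ)) := by
        apply Finset.sum_le_sum
        intro p hp
        rw [Finset.mem_filter, Finset.mem_sdiff] at hp
        obtain ⟨hp1, hpp, hE2⟩ := hmem p hp.1.1
        have hpB : (0:ℝ) ≤ P.B * (C3 * (1 / p : ℝ)) := by positivity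
        split_ifs with hd
        · obtain ⟨j, hj⟩ := hd
          have hEpos : 0 < Eb P T p := by omega
          have hdiv : m / Eb P T p = j := by rw [hj]; exact Nat.mul_div_cancel_left j hEpos
          have hj2 : 2 ≤ j := by
            by_contra hlt
            have : j = 0 ∨ j = 1 := by omega
            rcases this with h | h
            · rw [h] at hj; omega
            · rw [h, mul_one] at hj; exact hp.2 hj.symm
          rw [hdiv, norm_mul, norm_mul, norm_pow, norm_neg, norm_one, one_pow, one_mul,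
            Complex.norm_natCast, norm_pow]
          have hyr : ‖y p‖ ^ j ≤ C3 * (1 / p : ℝ) :=
            (pow_le_pow_of_le_one (norm_nonneg _) (hy1 p hp.1.1) hj2).trans (hy2 p hp.1.1)
          apply mul_le_mul _ hyr (by positivity) (by positivity)
          exact_mod_cast (hchi p hp.1.1).1
        · rw [norm_zero]; exact hpB
      _ ≤ ∑ p ∈ PS P T, P.B * (C3 * (1 / p : ℝ)) := by
        apply Finset.sum_le_sum_of_subset_of_nonneg
          ((Finset.filter_subset _ _).trans Finset.sdiff_subset)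
        intro p _ _
        positivity
      _ = P.B * (C3 * ∑ p ∈ PS P T, (1 / p : ℝ)) := by rw [Finset.mul_sum, Finset.mul_sum]
      _ ≤ P.B * (C3 * C2) := by gcongr
  calc _ ≤ P.B * (|r| * C1 + B0) * (1 + M) + P.B * (C3 * C2) :=
        le_trans (norm_add_le _ _) (add_le_add hA hBd)
    _ ≤ _ := by
      have e1 : 0 ≤ (P.B : ℝ) * (C3 * C2) := by positivity
      have e2 := mul_nonneg e1 hM0
      nlinarith

theorem EE_bound' (hRH : RHs) (P : Par) (B0 : ℕ) (hB : P.B = 2 * B0) (r : ℝ)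
    (F : ℕ → ℝ) : ∃ C T0 : ℝ, 0 < C ∧ 10 ≤ T0 ∧ ∀ T : ℝ, T0 ≤ T → ∀ t : ℝ,
    T + 2 * Real.log T ≤ t → t ≤ 2 * T - 2 * Real.log T →
    ‖EE P B0 r F T t‖ ≤ C * (1 + Mk T 1 t) ^ (2 * B0) := by
  obtain ⟨K, T1, hK, hT1, h1⟩ := tt_bound' hRH P B0 hB r
  obtain ⟨C3, T3, hC3, hT3, h3⟩ := fam_facts P B0 hB r (fun _ => 1)
  obtain ⟨KF, hKF, hF⟩ := F_bound F B0
  refine ⟨C3 * ((B0 + 1) * KF * K ^ B0) ^ 2, max T1 T3, by positivity,
    hT1.trans (le_max_left _ _), ?_⟩
  intro T hT t ht ht'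
  simp only [max_le_iff] at hT
  obtain ⟨hTT1, hTT3⟩ := hT
  obtain ⟨-, -, -, hX⟩ := h3 T hTT3
  set M := Mk T 1 t with hM
  have hM0 : 0 ≤ M := SP.DpB_Mk_nonneg _ _ _
  have hKM : 1 ≤ K * (1 + M) := by nlinarith
  have hD : ∀ C ∈ fam P B0 T, ‖DC P B0 r F T t C‖ ≤
      (∏ p ∈ C, |yp P r T p|) * ((B0 + 1) * KF * (K * (1 + M)) ^ B0) := by
    intro C hC
    obtain ⟨hC1, hC2⟩ := mem_fam.mp hC
    rw [DC_eq P B0 r F T t C hC, norm_mul, norm_prod]
    have e1 : ∏ p ∈ C, ‖ww P r T t p‖ = ∏ p ∈ C, |yp P r T p| :=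
      Finset.prod_congr rfl (fun p _ => norm_ww P r T t p)
    rw [e1]
    apply mul_le_mul_of_nonneg_left _ (Finset.prod_nonneg (fun p _ => abs_nonneg _))
    have hE : ∀ p ∈ PS P T \ C, 1 ≤ Eb P T p := by
      intro p hp
      rw [Finset.mem_sdiff] at hp
      have := (prime_of_mem hp.1).2
      omega
    obtain ⟨hq0, hq⟩ := SP.newton (PS P T \ C) (Eb P T) hE (ww P r T t)
    have hqn := SP.DpB.newton_growth (qq (PS P T \ C) (Eb P T) (ww P r T t))
      (tt (PS P T \ C) (Eb P T) (ww P r T t)) (K * (1 + M)) hKM B0 hq0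
      (fun m hm hmB => h1 T hTT1 t ht ht' C hC m hm (by omega)) hq
    calc _ ≤ ∑ n ∈ Finset.range (B0 - en P T C + 1), ‖(F (en P T C + n) : ℂ) *
          qq (PS P T \ C) (Eb P T) (ww P r T t) n‖ := norm_sum_le _ _
      _ ≤ ∑ n ∈ Finset.range (B0 - en P T C + 1), KF * (K * (1 + M)) ^ B0 := by
          apply Finset.sum_le_sum
          intro n hn
          rw [Finset.mem_range] at hn
          rw [norm_mul, Complex.norm_real, Real.norm_eq_abs]
          apply mul_le_mul (hF _ (by omega)) _ (norm_nonneg _) hKF.le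
          exact (hqn n (by omega)).trans (pow_le_pow_right₀ hKM (by omega))
      _ = (B0 - en P T C + 1 : ℕ) * (KF * (K * (1 + M)) ^ B0) := by
          rw [Finset.sum_const, Finset.card_range, nsmul_eq_mul]
      _ ≤ ((B0 : ℝ) + 1) * (KF * (K * (1 + M)) ^ B0) := by
          apply mul_le_mul_of_nonneg_right _ (by positivity)
          push_cast
          have : ((B0 - en P T C : ℕ) : ℝ) ≤ B0 := by exact_mod_cast Nat.sub_le _ _
          linarith
      _ = _ := by ring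
  rw [EE_eq]
  calc _ ≤ ∑ C ∈ fam P B0 T, ‖(-1 : ℂ) ^ C.card *
      (DC P B0 r F T t C * (starRingEnd ℂ) (DC P B0 r F T t C))‖ := norm_sum_le _ _
    _ ≤ ∑ C ∈ fam P B0 T, (∏ p ∈ C, yp P r T p ^ 2) *
        ((B0 + 1) * KF * (K * (1 + M)) ^ B0) ^ 2 := by
        apply Finset.sum_le_sum
        intro C hC
        rw [norm_mul, norm_pow, norm_neg, norm_one, one_pow, one_mul, norm_mul, RCLike.norm_conj,
          ← sq]
        have e1 : (∏ p ∈ C, yp P r T p ^ 2) = (∏ p ∈ C, |yp P r T p|) ^ 2 := by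
          rw [← Finset.prod_pow]
          exact Finset.prod_congr rfl (fun p _ => (sq_abs _).symm)
        rw [e1, ← mul_pow]
        exact pow_le_pow_left₀ (norm_nonneg _) (hD C hC) 2
    _ = (∑ C ∈ fam P B0 T, ∏ p ∈ C, yp P r T p ^ 2) *
        ((B0 + 1) * KF * (K * (1 + M)) ^ B0) ^ 2 := by rw [Finset.sum_mul]
    _ ≤ C3 * ((B0 + 1) * KF * (K * (1 + M)) ^ B0) ^ 2 := by gcongr
    _ = C3 * ((B0 + 1) * KF * K ^ B0) ^ 2 * (1 + M) ^ (2 * B0) := by
        rw [mul_pow K, mul_comm 2 B0, pow_mul]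
        ring

theorem MOM' (hRH : RHs) (P : Par) (B0 : ℕ) (hB : P.B = 2 * B0) (r : ℝ)
    (F : ℕ → ℝ) : ∃ C T0 : ℝ, 0 < C ∧ 10 ≤ T0 ∧ ∀ T : ℝ, T0 ≤ T → ∀ t0 : ℝ,
    ∫ t in (T + 2 * Real.log T)..(2 * T - 2 * Real.log T),
      wt t0 (dd P.κ T) t * ‖EE P B0 r F T t‖ ^ 4 ≤ C * dd P.κ T := by
  obtain ⟨C1, T1, hC1, hT1, h1⟩ := EE_bound' hRH P B0 hB r F
  obtain ⟨C2, T2, hC2, hT2, h2⟩ := SP.exp_main hRH P.κ 1 (8 * B0 + 1) P.hκ P.hκ1 one_pos
    (by positivity)
  refine ⟨C1 ^ 4 * C2, max (max T1 T2) 100, by positivity,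
    hT1.trans ((le_max_left _ _).trans (le_max_left _ _)), ?_⟩
  intro T hT t0
  simp only [max_le_iff] at hT
  obtain ⟨⟨hTT1, hTT2⟩, hT100⟩ := hT
  obtain ⟨hL4, hLT⟩ := SP.Mom2.log_bounds T hT100
  have hV : T + 2 * Real.log T ≤ 2 * T - 2 * Real.log T := by linarith
  have hm := h2 T hTT2 t0 (T + 2 * Real.log T) (2 * T - 2 * Real.log T) hV (by linarith)
    (by linarith)
  have hpt : ∀ t ∈ Set.Icc (T + 2 * Real.log T) (2 * T - 2 * Real.log T),
      wt t0 (dd P.κ T) t * ‖EE P B0 r F T t‖ ^ 4 ≤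
      C1 ^ 4 * (wt t0 (dd P.κ T) t * Real.exp ((8 * B0 + 1) * (‖SP.Ya T 1 t‖ + Mk T 1 t))) := by
    intro t ht
    have hM0 : 0 ≤ Mk T 1 t := SP.DpB_Mk_nonneg _ _ _
    have h3 := h1 T hTT1 t ht.1 ht.2
    have h4 : ‖EE P B0 r F T t‖ ^ 4 ≤ C1 ^ 4 * Real.exp ((8 * B0 + 1) * (‖SP.Ya T 1 t‖ + Mk T 1 t)) := by
      calc ‖EE P B0 r F T t‖ ^ 4 ≤ (C1 * (1 + Mk T 1 t) ^ (2 * B0)) ^ 4 :=
            pow_le_pow_left₀ (norm_nonneg _) h3 4
        _ = C1 ^ 4 * (1 + Mk T 1 t) ^ (8 * B0) := by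
            rw [mul_pow, ← pow_mul]
            congr 2
            ring
        _ ≤ C1 ^ 4 * (Real.exp (Mk T 1 t)) ^ (8 * B0) := by
            gcongr
            linarith [Real.add_one_le_exp (Mk T 1 t)]
        _ = C1 ^ 4 * Real.exp ((8 * B0 : ℕ) * Mk T 1 t) := by rw [← Real.exp_nat_mul]
        _ ≤ C1 ^ 4 * Real.exp ((8 * B0 + 1) * (‖SP.Ya T 1 t‖ + Mk T 1 t)) := by
            apply mul_le_mul_of_nonneg_left _ (by positivity)
            apply Real.exp_le_exp.2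
            push_cast
            have e1 := norm_nonneg (SP.Ya T 1 t)
            have e2 : (0 : ℝ) ≤ (8 * B0 + 1) * ‖SP.Ya T 1 t‖ := by positivity
            nlinarith
    have hw := SP.Mom2.wt_nonneg t0 (dd P.κ T) t
    calc _ ≤ wt t0 (dd P.κ T) t * (C1 ^ 4 *
          Real.exp ((8 * B0 + 1) * (‖SP.Ya T 1 t‖ + Mk T 1 t))) :=
          mul_le_mul_of_nonneg_left h4 hw
      _ = _ := by ring
  have hcont : Continuous (fun t => C1 ^ 4 * (wt t0 (dd P.κ T) t *
      Real.exp ((8 * B0 + 1) * (‖SP.Ya T 1 t‖ + Mk T 1 t)))) :=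
    (SP.Mom2.main_cont T P.κ 1 (8 * B0 + 1) (by linarith) one_pos t0).const_mul _ |>.congr
      (fun t => rfl)
  have hmono := SP.Mom2.int_mono (fun t => wt t0 (dd P.κ T) t * ‖EE P B0 r F T t‖ ^ 4) _ _ _ hV
    (fun t _ => mul_nonneg (SP.Mom2.wt_nonneg _ _ _) (by positivity)) hpt hcont
  refine hmono.trans ?_
  rw [intervalIntegral.integral_const_mul]
  calc _ ≤ C1 ^ 4 * (C2 * dd P.κ T) := by
        apply mul_le_mul_of_nonneg_left hm (by positivity)
    _ = _ := by ring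

end Pool.Agent.Run7.h195.LB
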