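import Pool.Agent.Run7.h195.LB.SmSign
import Pool.Agent.Run7.h195.LB.SmMom

/-! Small gaps: the choice of the parameters, bounds of the smoothed number of zeros. -/

open Complex Filter Topology Set MeasureTheory

namespace Pool.Agent.Run7.h195.LB

open SG (hh nn dd dl ord NZ)
open SP (RHs ZZ mu wt Mk Par Eb PS chi qq tt)
open LG LG.LocAux SP.ManyAux

/-- decay of the kernel outside a larger window -/
lemma gK_far {c η e1 : ℝ} (hc : 0 < c) (hη : 0 < η) (he : 0 < e1) : ∃ A0 : ℝ, 1 ≤ A0 ∧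
    ∀ A : ℝ, A0 ≤ A → ∀ x : ℝ, Real.pi * (c + η) ≤ |x| → gK A c x ≤ e1 / (1 + x ^ 2) := by
  have hpi := Real.pi_pos
  have hpi3 := Real.pi_gt_three
  set a := Real.pi * η with ha
  have ha0 : 0 < a := by positivity
  set K := 1 / a ^ 2 + (1 + c / η) ^ 2 with hK
  have hK0 : 0 < K := by positivity
  refine ⟨max 1 (96 * Real.pi * c * K / (e1 * a ^ 4)), le_max_left _ _, fun A hA x hx => ?_⟩
  have hA1 : 1 ≤ A := (le_max_left _ _).trans hA
  have hA2 : 96 * Real.pi * c * K / (e1 * a ^ 4) ≤ A := (le_max_right _ _).trans hA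
  have hA0 : 0 < A := by linarith
  rw [div_le_iff₀ (by positivity)] at hA2
  set s := |x| - Real.pi * c with hs
  have hsa : a ≤ s := by rw [hs, ha]; linarith
  have hs0 : 0 < s := by linarith
  -- the kernel
  have h1 : gK A c x ≤ 2 * (Real.pi * c) * (A * Real.exp (-((A * s) ^ 2 / 2))) := by
    unfold gK
    have hle : -(Real.pi * c) ≤ Real.pi * c := by
      have : 0 < Real.pi * c := by positivity
      linarith
    calc _ ≤ ∫ y in (-(Real.pi * c))..(Real.pi * c), A * Real.exp (-((A * s) ^ 2 / 2)) := by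
          apply intervalIntegral.integral_mono_on hle
          · apply Continuous.intervalIntegrable
            fun_prop
          · exact _root_.intervalIntegrable_const
          · intro y hy
            have h2 : s ≤ |x - y| := by
              have h3 : |y| ≤ Real.pi * c := abs_le.2 ⟨hy.1, hy.2⟩
              have h4 := abs_sub_abs_le_abs_sub x y
              rw [hs]
              linarith
            have h3 : A / Real.sqrt (2 * Real.pi) ≤ A := by
              apply div_le_self hA0.le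
              apply Real.le_sqrt_of_sq_le
              linarith
            apply mul_le_mul h3 _ (Real.exp_pos _).le hA0.le
            apply Real.exp_le_exp.2
            have h5 : (A * s) ^ 2 ≤ (A * (x - y)) ^ 2 := by
              rw [mul_pow, mul_pow, ← sq_abs (x - y)]
              gcongr
            linarith
      _ = _ := by
          rw [intervalIntegral.integral_const, smul_eq_mul]
          ring
  have h2 : Real.exp (-((A * s) ^ 2 / 2)) ≤ 48 / (A ^ 6 * s ^ 6) := by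
    have h3 := Real.pow_div_factorial_le_exp ((A * s) ^ 2 / 2) (by positivity) 3
    have h4 : ((3 : ℕ).factorial : ℝ) = 6 := by norm_num [Nat.factorial]
    rw [h4] at h3
    rw [Real.exp_neg, inv_eq_one_div, div_le_div_iff₀ (Real.exp_pos _) (by positivity)]
    have h5 : ((A * s) ^ 2 / 2) ^ 3 / 6 = A ^ 6 * s ^ 6 / 48 := by ring
    rw [h5] at h3
    linarith
  have h3 : 1 + x ^ 2 ≤ s ^ 2 * K := by
    have h4 : |x| ≤ s * (1 + c / η) := by
      have h5 : Real.pi * c ≤ s * (c / η) := by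
        have h6 : Real.pi * c = a * (c / η) := by rw [ha]; field_simp
        rw [h6]
        gcongr
      have h7 : |x| = s + Real.pi * c := by rw [hs]; ring
      rw [h7, mul_add, mul_one]
      linarith
    have h5 : x ^ 2 ≤ (s * (1 + c / η)) ^ 2 := by
      rw [← sq_abs x]
      exact pow_le_pow_left₀ (abs_nonneg _) h4 2
    have h6 : 1 ≤ s ^ 2 * (1 / a ^ 2) := by
      rw [mul_one_div, le_div_iff₀ (by positivity), one_mul]
      exact pow_le_pow_left₀ ha0.le hsa 2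
    rw [hK, mul_add]
    rw [mul_pow] at h5
    linarith
  rw [le_div_iff₀ (by positivity)]
  have h4 : 2 * (Real.pi * c) * (A * Real.exp (-((A * s) ^ 2 / 2))) ≤
      96 * Real.pi * c / (A ^ 5 * s ^ 6) := by
    calc 2 * (Real.pi * c) * (A * Real.exp (-((A * s) ^ 2 / 2))) ≤
        2 * (Real.pi * c) * (A * (48 / (A ^ 6 * s ^ 6))) := by gcongr
      _ = _ := by field_simp; ring
  calc gK A c x * (1 + x ^ 2) ≤ 96 * Real.pi * c / (A ^ 5 * s ^ 6) * (s ^ 2 * K) := by
        apply mul_le_mul (h1.trans h4) h3 (by positivity) (by positivity)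
    _ = (96 * Real.pi * c * K) / (A ^ 5 * s ^ 4) := by field_simp
    _ ≤ e1 := by
        rw [div_le_iff₀ (by positivity)]
        calc 96 * Real.pi * c * K ≤ A * (e1 * a ^ 4) := hA2
          _ ≤ A ^ 5 * (e1 * s ^ 4) := by
              have h5 : A ≤ A ^ 5 := le_self_pow₀ hA1 (by norm_num)
              have h6 : a ^ 4 ≤ s ^ 4 := pow_le_pow_left₀ ha0.le hsa 4
              gcongr
          _ = _ := by ring

/-- the smoothed number of zeros is at most `1 + e₁ M₁(t)` if there is no small gap near `t` -/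
lemma Zs_one {A c η e1 c1 T t : ℝ} (hT : 1 ≤ T) (hL : 0 < Real.log T) (hc1 : 0 < c1)
    (hcc : c + η < c1)
    (hg : ∀ x, 0 ≤ gK A c x) (hg1 : ∀ x, gK A c x ≤ 1) (he1 : 0 < e1)
    (hfar : ∀ x : ℝ, Real.pi * (c + η) ≤ |x| → gK A c x ≤ e1 / (1 + x ^ 2))
    (hno : ¬ ∃ n : ℕ, 1 ≤ n ∧ |ord n - t| ≤ Real.pi * (c + η) / Real.log T ∧
      ord (n + 1) - ord n < 2 * Real.pi * c1 / Real.log T) :
    Zs A c T t ≤ 1 + e1 * Mk T 1 t := by
  classical
  have hpi := Real.pi_pos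
  set R := Real.pi * (c + η) with hR
  have hsep : (∀ s ∈ ZZ T, |s.im - t| ≤ R / Real.log T → mu s = 1) ∧
      (∀ s ∈ ZZ T, ∀ s' ∈ ZZ T, |s.im - t| ≤ R / Real.log T → |s'.im - t| ≤ R / Real.log T →
      s ≠ s' → 2 * Real.pi * c1 / Real.log T ≤ |s.im - s'.im|) := by
    by_contra hcon
    exact hno (small_near hT hL hc1 hcon)
  rw [Zs_eq A c T t hT, SP.ManyAux.Mk_eq T 1 t hT]
  set Z := (ZZ_finite T hT).toFinset with hZ
  have hZm : ∀ s, s ∈ Z ↔ s ∈ ZZ T := fun s => by rw [hZ, Set.Finite.mem_toFinset]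
  have hcard : (Z.filter (fun s => |s.im - t| ≤ R / Real.log T)).card ≤ 1 := by
    rw [Finset.card_le_one]
    intro s hs s' hs'
    rw [Finset.mem_filter, hZm] at hs hs'
    by_contra hne
    have h1 := hsep.2 s hs.1 s' hs'.1 hs.2 hs'.2 hne
    have h2 : |s.im - s'.im| ≤ 2 * (R / Real.log T) := by
      have := abs_sub_le s.im t s'.im
      rw [abs_sub_comm t s'.im] at this
      linarith [hs.2, hs'.2]
    have h3 : 2 * (R / Real.log T) < 2 * Real.pi * c1 / Real.log T := by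
      rw [mul_div_assoc', div_lt_div_iff_of_pos_right hL, hR]
      nlinarith
    linarith
  have hterm : ∀ s ∈ Z, (mu s : ℝ) * Real.exp (-(s.im - t) ^ 2 / 2) *
      gK A c (Real.log T * (s.im - t)) ≤
      (if |s.im - t| ≤ R / Real.log T then 1 else 0) +
      e1 * ((mu s : ℝ) * Real.exp (-(s.im - t) ^ 2 / 2) /
        (1 + (Real.log T * (s.im - t) / 1) ^ 2)) := by
    intro s hs
    rw [hZm] at hs
    have hE : Real.exp (-(s.im - t) ^ 2 / 2) ≤ 1 := by
      rw [Real.exp_le_one_iff]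
      nlinarith [sq_nonneg (s.im - t)]
    have hE0 := Real.exp_pos (-(s.im - t) ^ 2 / 2)
    have h0 := hg (Real.log T * (s.im - t))
    have h1 := hg1 (Real.log T * (s.im - t))
    split_ifs with hn
    · have hm := hsep.1 s hs hn
      rw [hm]
      have h2 : 0 ≤ e1 * (((1 : ℕ) : ℝ) * Real.exp (-(s.im - t) ^ 2 / 2) /
        (1 + (Real.log T * (s.im - t) / 1) ^ 2)) := by positivity
      have h3 : ((1 : ℕ) : ℝ) * Real.exp (-(s.im - t) ^ 2 / 2) *
          gK A c (Real.log T * (s.im - t)) ≤ 1 := by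
        rw [Nat.cast_one, one_mul]
        exact mul_le_one₀ hE h0 h1
      linarith
    · push Not at hn
      have hx : R ≤ |Real.log T * (s.im - t)| := by
        rw [abs_mul, abs_of_pos hL]
        rw [div_lt_iff₀ hL] at hn
        linarith
      have h2 := hfar _ hx
      rw [zero_add, div_one]
      calc (mu s : ℝ) * Real.exp (-(s.im - t) ^ 2 / 2) * gK A c (Real.log T * (s.im - t)) ≤
          (mu s : ℝ) * Real.exp (-(s.im - t) ^ 2 / 2) *
            (e1 / (1 + (Real.log T * (s.im - t)) ^ 2)) := by gcongr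
        _ = _ := by ring
  refine (Finset.sum_le_sum hterm).trans ?_
  rw [Finset.sum_add_distrib, ← Finset.mul_sum, ← Finset.sum_filter, Finset.sum_const,
    nsmul_eq_mul, mul_one]
  have : ((Z.filter (fun s => |s.im - t| ≤ R / Real.log T)).card : ℝ) ≤ 1 := by
    exact_mod_cast hcard
  linarith

/-- the smoothed number of zeros is bounded by `M₁(t)` -/
lemma Zs_Mk {A c η e1 T t : ℝ} (hT : 1 ≤ T) (hg1 : ∀ x, gK A c x ≤ 1) (he1 : 0 < e1)
    (hfar : ∀ x : ℝ, Real.pi * (c + η) ≤ |x| → gK A c x ≤ e1 / (1 + x ^ 2)) :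
    Zs A c T t ≤ (1 + (Real.pi * (c + η)) ^ 2 + e1) * Mk T 1 t := by
  rw [Zs_eq A c T t hT, SP.ManyAux.Mk_eq T 1 t hT, Finset.mul_sum]
  refine Finset.sum_le_sum fun s _ => ?_
  have hE0 := Real.exp_pos (-(s.im - t) ^ 2 / 2)
  have key : gK A c (Real.log T * (s.im - t)) ≤ (1 + (Real.pi * (c + η)) ^ 2 + e1) /
      (1 + (Real.log T * (s.im - t)) ^ 2) := by
    rcases le_total (Real.pi * (c + η)) |Real.log T * (s.im - t)| with h | h
    · refine (hfar _ h).trans ?_
      apply div_le_div_of_nonneg_right _ (by positivity)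
      nlinarith [sq_nonneg (Real.pi * (c + η))]
    · refine (hg1 _).trans ?_
      rw [one_le_div (by positivity)]
      have : (Real.log T * (s.im - t)) ^ 2 ≤ (Real.pi * (c + η)) ^ 2 := by
        rw [← sq_abs (Real.log T * (s.im - t))]
        exact pow_le_pow_left₀ (abs_nonneg _) h 2
      linarith
  rw [div_one]
  calc (mu s : ℝ) * Real.exp (-(s.im - t) ^ 2 / 2) * gK A c (Real.log T * (s.im - t)) ≤
      (mu s : ℝ) * Real.exp (-(s.im - t) ^ 2 / 2) * ((1 + (Real.pi * (c + η)) ^ 2 + e1) /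
      (1 + (Real.log T * (s.im - t)) ^ 2)) := by gcongr
    _ = _ := by ring

/-- the pointwise inequality -/
lemma pointS {a Z M e e1 C9 B b : ℝ} (he : 0 < e) (he1 : 0 < e1) (hC : 0 < C9) (hB : 0 < B)
    (hb : 0 ≤ b) (ha : 0 ≤ a) (hM : 0 ≤ M)
    (h : Z ≤ 1 + e1 * M ∨ (1 ≤ b ∧ Z ≤ C9 * M)) :
    a * (Z - 1) ≤ (e + e1) * a ^ 2 + e1 * M ^ 2 + C9 ^ 2 / (4 * e) * (B * b + M ^ 4 / B) := by
  have h0 : 0 ≤ C9 ^ 2 / (4 * e) * (B * b + M ^ 4 / B) := by positivity
  rcases h with h | ⟨h1, h2⟩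
  · have h3 : a * (Z - 1) ≤ a * (e1 * M) := mul_le_mul_of_nonneg_left (by linarith) ha
    have h4 : a * M ≤ a ^ 2 + M ^ 2 := by nlinarith [sq_nonneg (a - M), sq_nonneg a, sq_nonneg M]
    have h5 : e1 * (a * M) ≤ e1 * (a ^ 2 + M ^ 2) := mul_le_mul_of_nonneg_left h4 he1.le
    have h6 : 0 ≤ e * a ^ 2 := by positivity
    nlinarith
  · have h3 : a * (Z - 1) ≤ a * (C9 * M) := mul_le_mul_of_nonneg_left (by linarith) ha
    have h4 : a * (C9 * M) ≤ e * a ^ 2 + C9 ^ 2 / (4 * e) * M ^ 2 := by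
      have h5 : 0 ≤ e * (a - C9 * M / (2 * e)) ^ 2 := by positivity
      have h6 : e * (a - C9 * M / (2 * e)) ^ 2 = e * a ^ 2 - a * (C9 * M) +
          C9 ^ 2 / (4 * e) * M ^ 2 := by
        field_simp
        ring
      linarith
    have h5 : M ^ 2 ≤ B * b + M ^ 4 / B := by
      have h6 : 2 * M ^ 2 ≤ B + M ^ 4 / B := by
        have h7 : 0 ≤ (B - M ^ 2) ^ 2 / B := by positivity
        have h8 : (B - M ^ 2) ^ 2 / B = B - 2 * M ^ 2 + M ^ 4 / B := by
          field_simp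
          ring
        linarith
      have h9 : B ≤ B * b := le_mul_of_one_le_right hB.le h1
      nlinarith [sq_nonneg M]
    have h6 : C9 ^ 2 / (4 * e) * M ^ 2 ≤ C9 ^ 2 / (4 * e) * (B * b + M ^ 4 / B) :=
      mul_le_mul_of_nonneg_left h5 (by positivity)
    have h7 : 0 ≤ e1 * a ^ 2 := by positivity
    have h8 : 0 ≤ e1 * M ^ 2 := by positivity
    nlinarith

/-- choice of the smoothing -/
theorem choose_S (P : Par) (B0 : ℕ) (r : ℝ) (F q : ℕ → ℝ) (c : ℝ)
    (hstrict : SF B0 F q < c * SF B0 F q +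
      4 * r / Real.pi * ∑ m ∈ Finset.Icc 2 B0, sm0 P c m * SM B0 F q m) :
    ∃ δ A1 : ℝ, 0 < δ ∧ 0 < A1 ∧ ∀ A : ℝ, A1 ≤ A →
      SF B0 F q + 3 * δ ≤ c * SF B0 F q +
        4 * r / Real.pi * ∑ m ∈ Finset.Icc 2 B0, sm P A c m * SM B0 F q m := by
  set Ψ : ℝ × ℝ → ℝ := fun x => x.1 * SF B0 F q + 4 * r / Real.pi * ∑ m ∈ Finset.Icc 2 B0,
    (∫ u in (0 : ℝ)..1, P.b m u * Real.sin (Real.pi * x.1 * u) *
      Real.exp (-(u * x.2) ^ 2 / 2)) * SM B0 F q m - SF B0 F q with hΨ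
  have hc : Continuous Ψ := by
    rw [hΨ]
    apply Continuous.sub
    · apply Continuous.add (by fun_prop)
      apply Continuous.mul continuous_const
      apply continuous_finsetSum
      intro m _
      exact (param_cont P m).mul continuous_const
    · fun_prop
  have h0 : 0 < Ψ (c, 0) := by
    have : Ψ (c, 0) = c * SF B0 F q + 4 * r / Real.pi * ∑ m ∈ Finset.Icc 2 B0,
      sm0 P c m * SM B0 F q m - SF B0 F q := by
      simp only [hΨ, sm0_eq]
    rw [this]
    linarith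
  have hev : ∀ᶠ x in 𝓝 ((c, 0) : ℝ × ℝ), Ψ (c, 0) / 2 < Ψ x :=
    hc.continuousAt.eventually (lt_mem_nhds (by linarith))
  rw [Metric.eventually_nhds_iff] at hev
  obtain ⟨ρ, hρ, hev⟩ := hev
  refine ⟨Ψ (c, 0) / 6, 4 / ρ, by positivity, by positivity, fun A hA => ?_⟩
  have hA0 : 0 < A := lt_of_lt_of_le (by positivity) hA
  have h1 : dist ((c, 1 / A) : ℝ × ℝ) (c, 0) < ρ := by
    rw [Prod.dist_eq, Real.dist_eq, Real.dist_eq]
    simp only
    apply max_lt
    · rw [sub_self, abs_zero]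
      exact hρ
    · rw [sub_zero, abs_of_pos (by positivity)]
      rw [div_le_iff₀ hρ] at hA
      rw [div_lt_iff₀ hA0]
      linarith
  have h2 := hev h1
  have h3 : Ψ (c, 1 / A) = c * SF B0 F q + 4 * r / Real.pi * ∑ m ∈ Finset.Icc 2 B0,
      sm P A c m * SM B0 F q m - SF B0 F q := by
    simp only [hΨ, sm_eq]
  rw [h3] at h2
  linarith

/-- the mean of the number of zeros exceeds one -/
theorem mean_lowS (P : Par) (B0 : ℕ) (r : ℝ) (F q : ℕ → ℝ) (A c δ : ℝ)
    (hMEAN : ∃ C T0 : ℝ, 0 < C ∧ 10 ≤ T0 ∧ ∀ T : ℝ, T0 ≤ T →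
      ∀ t0 : ℝ, 11 / 10 * T ≤ t0 → t0 ≤ 19 / 10 * T →
      |(∫ t in (T + 2 * Real.log T)..(2 * T - 2 * Real.log T),
          wt t0 (dd P.κ T) t * ‖EE P B0 (-r) F T t‖ ^ 2) -
        Real.sqrt (2 * Real.pi) * dd P.κ T * Cn P B0 (-r) F T 1| ≤
        C * dd P.κ T / Real.log T * (1 + |Cn P B0 (-r) F T 1|) ∧
      |(∫ t in (T + 2 * Real.log T)..(2 * T - 2 * Real.log T),
          wt t0 (dd P.κ T) t * ‖EE P B0 (-r) F T t‖ ^ 2 * Zs A c T t) -
        Real.sqrt (2 * Real.pi) * dd P.κ T * (c * Cn P B0 (-r) F T 1 -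
          (2 / Real.log T) * ∑' n : ℕ, lk A c T n * Cn P B0 (-r) F T n)| ≤
        C * dd P.κ T / Real.log T * (1 + |Cn P B0 (-r) F T 1|))
    (hCOMB1 : Tendsto (fun T : ℝ => Cn P B0 (-r) F T 1) atTop (𝓝 (SF B0 F q ^ 2)))
    (hCOMB2 : Tendsto (fun T : ℝ => (2 / Real.log T) * ∑' n : ℕ, lk A c T n * Cn P B0 (-r) F T n)
      atTop (𝓝 (4 * (-r) / Real.pi *
        (SF B0 F q * ∑ m ∈ Finset.Icc 2 B0, sm P A c m * SM B0 F q m))))
    (hSF : 0 < SF B0 F q) (hδ : 0 < δ)
    (hst : SF B0 F q + 3 * δ ≤ c * SF B0 F q +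
        4 * r / Real.pi * ∑ m ∈ Finset.Icc 2 B0, sm P A c m * SM B0 F q m) :
    ∃ T0 : ℝ, 10 ≤ T0 ∧ ∀ T : ℝ, T0 ≤ T → ∀ t0 : ℝ, 11 / 10 * T ≤ t0 → t0 ≤ 19 / 10 * T →
      SF B0 F q * δ * dd P.κ T ≤
      (∫ t in (T + 2 * Real.log T)..(2 * T - 2 * Real.log T),
        wt t0 (dd P.κ T) t * ‖EE P B0 (-r) F T t‖ ^ 2 * Zs A c T t) -
      ∫ t in (T + 2 * Real.log T)..(2 * T - 2 * Real.log T),
        wt t0 (dd P.κ T) t * ‖EE P B0 (-r) F T t‖ ^ 2 := by
  obtain ⟨C, TM, hC, hTM, hM⟩ := hMEAN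
  have l1 := hCOMB1
  have l2 := hCOMB2
  set S := SF B0 F q with hS
  set U1 := ∑ m ∈ Finset.Icc 2 B0, sm P A c m * SM B0 F q m with hU1
  set s := Real.sqrt (2 * Real.pi) with hs
  have hs2 : 2 ≤ s := two_le_sqrt_two_pi
  have l3 : Tendsto (fun T : ℝ => 1 / Real.log T) atTop (𝓝 0) := by
    refine Real.tendsto_log_atTop.inv_tendsto_atTop.congr (fun T => ?_)
    simp [one_div]
  set X : ℝ → ℝ := fun T => (2 / Real.log T) * ∑' n : ℕ, lk A c T n * Cn P B0 (-r) F T n with hX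
  have l4 : Tendsto (fun T : ℝ => s * ((c * Cn P B0 (-r) F T 1 - X T) - Cn P B0 (-r) F T 1) -
      2 * C * (1 / Real.log T) * (1 + |Cn P B0 (-r) F T 1|)) atTop
      (𝓝 (s * ((c * S ^ 2 - 4 * (-r) / Real.pi * (S * U1)) - S ^ 2) -
      2 * C * 0 * (1 + |S ^ 2|))) := by
    apply Tendsto.sub
    · exact (((l1.const_mul c).sub l2).sub l1).const_mul s
    · exact (l3.const_mul (2 * C)).mul (l1.abs.const_add 1)
  have hlim : S * δ < s * ((c * S ^ 2 - 4 * (-r) / Real.pi * (S * U1)) - S ^ 2) -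
      2 * C * 0 * (1 + |S ^ 2|) := by
    have e0 : s * ((c * S ^ 2 - 4 * (-r) / Real.pi * (S * U1)) - S ^ 2) -
      2 * C * 0 * (1 + |S ^ 2|) = s * (S * (c * S + 4 * r / Real.pi * U1 - S)) := by
      ring
    rw [e0]
    have e2 : 3 * δ ≤ c * S + 4 * r / Real.pi * U1 - S := by linarith
    have e8 : S * (3 * δ) ≤ S * (c * S + 4 * r / Real.pi * U1 - S) :=
      mul_le_mul_of_nonneg_left e2 hSF.le
    have e9 : 2 * (S * (3 * δ)) ≤ s * (S * (c * S + 4 * r / Real.pi * U1 - S)) :=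
      mul_le_mul hs2 e8 (by positivity) (by linarith)
    have e10 : 0 < S * δ := by positivity
    linarith
  obtain ⟨T1, hT1⟩ := (l4.eventually (lt_mem_nhds hlim)).exists_forall_of_atTop
  refine ⟨max TM T1, hTM.trans (le_max_left _ _), fun T hT t0 ht0 ht1 => ?_⟩
  have hTM' : TM ≤ T := (le_max_left _ _).trans hT
  have h1 := hT1 T ((le_max_right _ _).trans hT)
  obtain ⟨h2, h3⟩ := hM T hTM' t0 ht0 ht1
  have hT10 : 10 ≤ T := hTM.trans hTM'
  have hL0 : 0 < Real.log T := Real.log_pos (by linarith)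
  have hd0 : 0 < dd P.κ T := by
    unfold dd
    have : 0 < T := by linarith
    positivity
  have h2' := (abs_le.1 h2).2
  have h3' := (abs_le.1 h3).1
  have e1 : C * dd P.κ T / Real.log T * (1 + |Cn P B0 (-r) F T 1|) =
      dd P.κ T * (C * (1 / Real.log T) * (1 + |Cn P B0 (-r) F T 1|)) := by
    field_simp
  rw [e1] at h2' h3'
  have h4 := mul_lt_mul_of_pos_left h1 hd0
  have e5 : dd P.κ T * (s * ((c * Cn P B0 (-r) F T 1 - X T) - Cn P B0 (-r) F T 1) -
      2 * C * (1 / Real.log T) * (1 + |Cn P B0 (-r) F T 1|)) =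
      s * dd P.κ T * (c * Cn P B0 (-r) F T 1 - X T) - s * dd P.κ T * Cn P B0 (-r) F T 1 -
      2 * (dd P.κ T * (C * (1 / Real.log T) * (1 + |Cn P B0 (-r) F T 1|))) := by ring
  rw [e5] at h4
  linarith

end Pool.Agent.Run7.h195.LB
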