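import Pool.Agent.H297R2.LG.Final

/-! Small gaps: choice of the parameters. -/

open Complex Filter Topology Set MeasureTheory

namespace Pool.Agent.Run7.h195.LB

open SG (hh nn dd dl ord NZ)
open SP (RHs ZZ mu wt Mk Par Eb PS chi qq tt)
open LG LG.ParAux

/-- from the ideal inequality to parameters with smooth weights -/
theorem PARS_of (B0 : ℕ) (hB0 : 1 ≤ B0) (r : ℝ) (F : ℕ → ℝ) (c : ℝ)
    (hI : ∀ q : ℕ → ℝ, IsQ B0 (fun m => if 2 ≤ m then r ^ 2 else 0) q → 0 < SF B0 F q ∧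
      SF B0 F q < c * SF B0 F q + 4 * r / Real.pi *
        ∑ m ∈ Finset.Icc 2 B0,
          (∫ u in ((m : ℝ) * (999 / 1000 / (2 * (B0 : ℝ))) * Real.exp (-1 / (m : ℝ)))..
            ((m : ℝ) * (999 / 1000 / (2 * (B0 : ℝ)))), Real.sin (Real.pi * c * u) / u) *
            SM B0 F q m) :
    ∃ (P : Par) (q : ℕ → ℝ), P.B = 2 * B0 ∧
      IsQ B0 (tm P r) q ∧ 0 < SF B0 F q ∧
      SF B0 F q < c * SF B0 F q +
        4 * r / Real.pi * ∑ m ∈ Finset.Icc 2 B0, sm0 P c m * SM B0 F q m := by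
  obtain ⟨h1, h2⟩ := hI (qr (fun m => if 2 ≤ m then r ^ 2 else 0)) (isQ_qr _ _)
  set q0 := qr (fun m => if 2 ≤ m then r ^ 2 else 0) with hq0
  have hq : ∀ n, n ≤ B0 → Tendsto (fun ε : ℝ => qr (tP hB0 r ε) n) (𝓝[>] 0) (𝓝 (q0 n)) := by
    rw [hq0]
    apply qr_tendsto
    intro m hm hm'
    exact tP_tendsto hB0 r hm (by omega)
  have hSF : Tendsto (fun ε : ℝ => SF B0 F (qr (tP hB0 r ε))) (𝓝[>] 0) (𝓝 (SF B0 F q0)) := by
    unfold SF
    apply tendsto_finsetSum
    intro n hn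
    rw [Finset.mem_range] at hn
    exact (hq n (by omega)).const_mul _
  have hSM : ∀ m, Tendsto (fun ε : ℝ => SM B0 F (qr (tP hB0 r ε)) m) (𝓝[>] 0)
      (𝓝 (SM B0 F q0 m)) := by
    intro m
    unfold SM
    apply tendsto_finsetSum
    intro n hn
    rw [Finset.mem_range] at hn
    exact (hq n (by omega)).const_mul _
  have hR : Tendsto (fun ε : ℝ => c * SF B0 F (qr (tP hB0 r ε)) +
      4 * r / Real.pi * ∑ m ∈ Finset.Icc 2 B0, sP hB0 c ε m * SM B0 F (qr (tP hB0 r ε)) m)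
      (𝓝[>] 0) (𝓝 (c * SF B0 F q0 + 4 * r / Real.pi * ∑ m ∈ Finset.Icc 2 B0,
        (∫ u in (lB B0 m)..(rB B0 m), Real.sin (Real.pi * c * u) / u) * SM B0 F q0 m)) := by
    apply (hSF.const_mul c).add
    apply Tendsto.const_mul
    apply tendsto_finsetSum
    intro m hm
    rw [Finset.mem_Icc] at hm
    exact (sP_tendsto hB0 c hm.1 (by omega)).mul (hSM m)
  have e1 := hSF.eventually (lt_mem_nhds h1)
  have e2 := hSF.eventually_lt hR h2
  obtain ⟨ε, hε1, hε2, hε3⟩ := (e1.and (e2.and self_mem_nhdsWithin)).exists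
  have hε : 0 < ε := hε3
  refine ⟨PP hB0 ε hε, qr (tP hB0 r ε), rfl, ?_, hε1, ?_⟩
  · have : tm (PP hB0 ε hε) r = tP hB0 r ε := by
      funext m
      rw [tP, dif_pos hε]
    rw [this]
    exact isQ_qr _ _
  · have h3 : ∀ m, sm0 (PP hB0 ε hε) c m = sP hB0 c ε m := by
      intro m
      rw [sP, dif_pos hε]
    simp only [h3]
    exact hε2

/-! ### the recursion with `t_m = 1` for `m ≥ 2` -/

section rec

variable {N : ℕ} {q : ℕ → ℝ}

/-- the sums -/
def Qs (q : ℕ → ℝ) (n : ℕ) : ℝ := ∑ k ∈ Finset.range (n + 1), q k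

lemma rec_Q (hq : IsQ N (fun m => if 2 ≤ m then (1 : ℝ) ^ 2 else 0) q) {n : ℕ} (hn : 2 ≤ n)
    (hnN : n ≤ N) : (n : ℝ) * q n = Qs q (n - 2) := by
  rw [hq.2 n (by omega) hnN]
  unfold Qs
  have h1 : ∑ m ∈ Finset.Icc 1 n, (if 2 ≤ m then (1 : ℝ) ^ 2 else 0) * q (n - m) =
      ∑ m ∈ Finset.Icc 2 n, q (n - m) := by
    have h2 : Finset.Icc 1 n = insert 1 (Finset.Icc 2 n) := by
      ext x
      simp only [Finset.mem_insert, Finset.mem_Icc]
      omega
    rw [h2, Finset.sum_insert (by simp)]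
    simp only [show ¬ (2 ≤ 1) by norm_num, if_false, zero_mul, zero_add]
    refine Finset.sum_congr rfl fun m hm => ?_
    rw [if_pos (Finset.mem_Icc.1 hm).1]
    ring
  rw [h1]
  have h3 : n - 2 + 1 = n - 1 := by omega
  rw [h3]
  refine Finset.sum_bij' (fun m _ => n - m) (fun k _ => n - k) ?_ ?_ ?_ ?_ ?_
  · intro m hm
    rw [Finset.mem_Icc] at hm
    rw [Finset.mem_range]
    omega
  · intro k hk
    rw [Finset.mem_range] at hk
    rw [Finset.mem_Icc]
    omega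
  · intro m hm
    rw [Finset.mem_Icc] at hm
    omega
  · intro k hk
    rw [Finset.mem_range] at hk
    omega
  · intro m _
    rfl

lemma q_zero (hq : IsQ N (fun m => if 2 ≤ m then (1 : ℝ) ^ 2 else 0) q) : q 0 = 1 := hq.1

lemma q_one (hq : IsQ N (fun m => if 2 ≤ m then (1 : ℝ) ^ 2 else 0) q) (hN : 1 ≤ N) :
    q 1 = 0 := by
  have := hq.2 1 le_rfl hN
  simpa using this

lemma q_two (hq : IsQ N (fun m => if 2 ≤ m then (1 : ℝ) ^ 2 else 0) q) (hN : 2 ≤ N) :
    q 2 = 1 / 2 := by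
  have := rec_Q hq le_rfl hN
  unfold Qs at this
  rw [show 2 - 2 + 1 = 1 by norm_num, Finset.sum_range_one, q_zero hq] at this
  push_cast at this
  linarith

lemma step_rel (hq : IsQ N (fun m => if 2 ≤ m then (1 : ℝ) ^ 2 else 0) q) {n : ℕ} (hn : 2 ≤ n)
    (hnN : n + 1 ≤ N) : ((n : ℝ) + 1) * (q (n + 1) - q n) = -(q n - q (n - 1)) := by
  have h1 := rec_Q hq (n := n + 1) (by omega) hnN
  have h2 := rec_Q hq hn (by omega)
  have h3 : Qs q (n + 1 - 2) = Qs q (n - 2) + q (n - 1) := by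
    unfold Qs
    have : n + 1 - 2 + 1 = (n - 2 + 1) + 1 := by omega
    rw [this, Finset.sum_range_succ]
    congr 2
    omega
  rw [h3] at h1
  push_cast at h1
  linarith

lemma step_le (hq : IsQ N (fun m => if 2 ≤ m then (1 : ℝ) ^ 2 else 0) q) :
    ∀ n : ℕ, 1 ≤ n → n + 1 ≤ N → |q (n + 1) - q n| ≤ (1 / 2) ^ n := by
  intro n hn
  induction n, hn using Nat.le_induction with
  | base =>
    intro hN
    rw [q_two hq (by omega), q_one hq (by omega)]
    norm_num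
  | succ n hn ih =>
    intro hN
    have h1 := ih (by omega)
    have h2 := step_rel hq (n := n + 1) (by omega) hN
    rw [show n + 1 - 1 = n by omega] at h2
    have h3 : |((n + 1 : ℕ) : ℝ) + 1| * |q (n + 1 + 1) - q (n + 1)| = |q (n + 1) - q n| := by
      rw [← abs_mul, h2, abs_neg]
    have h4 : (2 : ℝ) ≤ |((n + 1 : ℕ) : ℝ) + 1| := by
      rw [abs_of_nonneg (by positivity)]
      push_cast
      have : (1 : ℝ) ≤ n := by exact_mod_cast hn
      linarith
    have h5 := abs_nonneg (q (n + 1 + 1) - q (n + 1))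
    have h6 : 2 * |q (n + 1 + 1) - q (n + 1)| ≤ (1 / 2) ^ n := by
      nlinarith
    rw [pow_succ]
    linarith

/-- all values are close to the last one -/
lemma close_le (hq : IsQ N (fun m => if 2 ≤ m then (1 : ℝ) ^ 2 else 0) q) {n : ℕ} (hn : 1 ≤ n) :
    ∀ k : ℕ, n + k ≤ N → |q (n + k) - q n| ≤ 2 * (1 / 2) ^ n - 2 * (1 / 2) ^ (n + k) := by
  intro k
  induction k with
  | zero => intro _; simp
  | succ k ih =>
    intro hk
    have h1 := ih (by omega)
    have h2 := step_le hq (n + k) (by omega) (by omega)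
    have h3 : q (n + (k + 1)) - q n = (q (n + k + 1) - q (n + k)) + (q (n + k) - q n) := by
      rw [← add_assoc]; ring
    rw [h3]
    refine (abs_add_le _ _).trans ?_
    have h4 : (1 / 2 : ℝ) ^ (n + (k + 1)) = (1 / 2) ^ (n + k) * (1 / 2) := by
      rw [← add_assoc, pow_succ]
    rw [h4]
    linarith

lemma q_ge (hq : IsQ N (fun m => if 2 ≤ m then (1 : ℝ) ^ 2 else 0) q) {n : ℕ} (hn : 1 ≤ n)
    (hnN : n ≤ N) : q N - 2 * (1 / 2) ^ n ≤ q n := by
  have h := close_le hq hn (N - n) (by omega)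
  rw [show n + (N - n) = N by omega] at h
  have h2 := (abs_le.1 h).2
  have h3 : (0 : ℝ) ≤ 2 * (1 / 2) ^ N := by positivity
  linarith

lemma q_three (hq : IsQ N (fun m => if 2 ≤ m then (1 : ℝ) ^ 2 else 0) q) (hN : 4 ≤ N) :
    q 3 = 1 / 3 ∧ q 4 = 3 / 8 := by
  have h2 := q_two hq (by omega)
  have h1 := q_one hq (by omega)
  have h3 := step_rel hq (n := 2) le_rfl (by omega)
  rw [show 2 - 1 = 1 by norm_num, h1, h2] at h3
  have e3 : q 3 = 1 / 3 := by
    push_cast at h3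
    norm_num at h3
    linarith
  have h4 := step_rel hq (n := 3) (by norm_num) (by omega)
  rw [show 3 - 1 = 2 by norm_num, e3, h2] at h4
  refine ⟨e3, ?_⟩
  push_cast at h4
  norm_num at h4
  linarith

/-- `q_N ≥ 1/4` -/
lemma q_last (hq : IsQ N (fun m => if 2 ≤ m then (1 : ℝ) ^ 2 else 0) q) (hN : 5 ≤ N) :
    1 / 4 ≤ q N := by
  have h := close_le hq (n := 4) (by norm_num) (N - 4) (by omega)
  rw [show 4 + (N - 4) = N by omega] at h
  have h2 := (abs_le.1 h).1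
  rw [(q_three hq (by omega)).2] at h2
  have h3 : (0 : ℝ) ≤ 2 * (1 / 2) ^ N := by positivity
  norm_num at h2
  linarith

lemma Q_eq (hq : IsQ N (fun m => if 2 ≤ m then (1 : ℝ) ^ 2 else 0) q) {m : ℕ} (hm : 2 ≤ m)
    (hmN : m ≤ N) : Qs q (N - m) = ((N : ℝ) + 2 - m) * q (N + 2 - m) := by
  have h1 := rec_Q hq (n := N + 2 - m) (by omega) (by omega)
  rw [show N + 2 - m - 2 = N - m by omega] at h1
  rw [← h1]
  congr 1
  rw [Nat.cast_sub (by omega)]
  push_cast
  ring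

/-- the sum of all -/
lemma Q_le (hq : IsQ N (fun m => if 2 ≤ m then (1 : ℝ) ^ 2 else 0) q) (hN : 5 ≤ N) :
    Qs q N ≤ ((N : ℝ) + 2) * q N + 1 := by
  have h1 := rec_Q hq (n := N) (by omega) le_rfl
  have h2 : Qs q N = Qs q (N - 2) + q (N - 1) + q N := by
    unfold Qs
    have e1 : N + 1 = (N - 2 + 1) + 1 + 1 := by omega
    rw [e1, Finset.sum_range_succ, Finset.sum_range_succ]
    congr 2
    · congr 1
      omega
    · omega
  have h3 := step_le hq (N - 1) (by omega) (by omega)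
  rw [show N - 1 + 1 = N by omega] at h3
  have h4 := (abs_le.1 h3).1
  have h5 : (1 / 2 : ℝ) ^ (N - 1) ≤ 1 := pow_le_one₀ (by norm_num) (by norm_num)
  rw [h2, ← h1]
  linarith

end rec

end Pool.Agent.Run7.h195.LB
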