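import Pool.Agent.H297R2.LG.Final

/-! The two-sided Dirichlet polynomial with the sign of Liouville's function. -/

open Complex Filter Topology Set MeasureTheory

namespace Pool.Agent.Run7.h195.LB

open SG (hh nn dd dl ord NZ)
open SP (RHs ZZ mu wt Mk Par Eb PS chi qq tt)
open LG LG.CombAux

lemma nA_ne {A : Finset ℕ} (hA : ∀ p ∈ A, p.Prime) : nA A ≠ 0 := by
  unfold nA
  exact Finset.prod_ne_zero_iff.2 fun p hp => (hA p hp).ne_zero

lemma omega_nA {A : Finset ℕ} (hA : ∀ p ∈ A, p.Prime) :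
    ArithmeticFunction.cardFactors (nA A) = A.card := by
  classical
  induction A using Finset.induction_on with
  | empty => simp [nA]
  | insert a A ha ih =>
    have h1 : nA (insert a A) = a * nA A := by
      unfold nA
      rw [Finset.prod_insert ha]
    have h2 : ∀ p ∈ A, p.Prime := fun p hp => hA p (Finset.mem_insert_of_mem hp)
    have h3 := hA a (Finset.mem_insert_self a A)
    rw [h1, ArithmeticFunction.cardFactors_mul h3.ne_zero (nA_ne h2), ih h2,
      ArithmeticFunction.cardFactors_apply_prime h3, Finset.card_insert_of_notMem ha]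
    ring

lemma ae_neg (P : Par) (r : ℝ) (F : ℕ → ℝ) (T : ℝ) (A : Finset ℕ) :
    LG.ae P (-r) F T A = (-1) ^ A.card * LG.ae P r F T A := by
  unfold LG.ae
  have h : ∏ p ∈ A, yp P (-r) T p = (-1) ^ A.card * ∏ p ∈ A, yp P r T p := by
    rw [← Finset.prod_const, ← Finset.prod_mul_distrib]
    refine Finset.prod_congr rfl fun p _ => ?_
    unfold yp
    ring
  rw [h]
  ring

lemma prs_prime {P : Par} {B0 : ℕ} {T : ℝ} {q : Finset ℕ × Finset ℕ} (hq : q ∈ prs P B0 T) :
    (∀ p ∈ q.1, p.Prime) ∧ ∀ p ∈ q.2, p.Prime := by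
  unfold prs fam at hq
  rw [Finset.mem_filter, Finset.mem_product, Finset.mem_filter, Finset.mem_filter,
    Finset.mem_powerset, Finset.mem_powerset] at hq
  exact ⟨fun p hp => PS_prime P T p (hq.1.1.1 hp), fun p hp => PS_prime P T p (hq.1.2.1 hp)⟩

theorem Cn_neg (P : Par) (B0 : ℕ) (r : ℝ) (F : ℕ → ℝ) (T : ℝ) {n : ℕ} (hn : n ≠ 0) :
    Cn P B0 (-r) F T n = (-1) ^ (ArithmeticFunction.cardFactors n) * Cn P B0 r F T n := by
  unfold Cn
  rw [Finset.mul_sum]
  refine Finset.sum_congr rfl fun q hq => ?_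
  rw [Finset.mul_sum]
  refine Finset.sum_congr rfl fun q' hq' => ?_
  split_ifs with h
  · obtain ⟨a1, a2⟩ := prs_prime hq
    obtain ⟨b1, b2⟩ := prs_prime hq'
    have h1 := congrArg ArithmeticFunction.cardFactors h
    rw [ArithmeticFunction.cardFactors_mul (nA_ne a2) (nA_ne b1),
      ArithmeticFunction.cardFactors_mul hn (mul_ne_zero (nA_ne a1) (nA_ne b2)),
      ArithmeticFunction.cardFactors_mul (nA_ne a1) (nA_ne b2), omega_nA a1, omega_nA a2,
      omega_nA b1, omega_nA b2] at h1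
    rw [ae_neg, ae_neg, ae_neg, ae_neg]
    have h2 : ((-1 : ℝ) ^ q.1.card * LG.ae P r F T q.1 * ((-1) ^ q.2.card * LG.ae P r F T q.2)) *
        ((-1) ^ q'.1.card * LG.ae P r F T q'.1 * ((-1) ^ q'.2.card * LG.ae P r F T q'.2)) =
        (((-1) ^ q.1.card * (-1) ^ q'.2.card) * (-1) ^ (q.2.card + q'.1.card)) *
        ((LG.ae P r F T q.1 * LG.ae P r F T q.2) * (LG.ae P r F T q'.1 * LG.ae P r F T q'.2)) := by
      rw [pow_add]; ring
    rw [h2, h1, pow_add, pow_add]
    have h3 : ∀ k : ℕ, ((-1 : ℝ) ^ k) * (-1) ^ k = 1 := by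
      intro k
      rw [← mul_pow]; norm_num
    have h4 : (((-1 : ℝ) ^ q.1.card * (-1) ^ q'.2.card) *
        ((-1) ^ (ArithmeticFunction.cardFactors n) * ((-1) ^ q.1.card * (-1) ^ q'.2.card))) =
        (-1) ^ (ArithmeticFunction.cardFactors n) *
        (((-1) ^ q.1.card * (-1) ^ q.1.card) * ((-1) ^ q'.2.card * (-1) ^ q'.2.card)) := by ring
    rw [h4, h3, h3, mul_one, mul_one]
  · rw [mul_zero]

lemma tm_neg (P : Par) (r : ℝ) (m : ℕ) : tm P (-r) m = tm P r m := by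
  unfold tm
  ring

lemma IsQ_neg {P : Par} {B0 : ℕ} {r : ℝ} {q : ℕ → ℝ} (h : IsQ B0 (tm P r) q) :
    IsQ B0 (tm P (-r)) q := by
  have : tm P (-r) = tm P r := funext fun m => tm_neg P r m
  rwa [this]

theorem COMB1n (P : Par) (B0 : ℕ) (hB : P.B = 2 * B0) (r : ℝ) (hr : 0 < r) (F q : ℕ → ℝ)
    (hq : IsQ B0 (tm P r) q) :
    Tendsto (fun T : ℝ => Cn P B0 (-r) F T 1) atTop (𝓝 (SF B0 F q ^ 2)) := by
  have e : (fun T : ℝ => Cn P B0 (-r) F T 1) = fun T : ℝ => Cn P B0 r F T 1 := by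
    funext T
    rw [Cn_neg P B0 r F T one_ne_zero]
    simp
  rw [e]
  exact COMB1 P B0 hB r hr F q hq

theorem COMB2n (P : Par) (B0 : ℕ) (hB : P.B = 2 * B0) (r : ℝ) (hr : 0 < r) (F q : ℕ → ℝ)
    (hq : IsQ B0 (tm P r) q) (A c : ℝ) (hA : 0 < A) (hc : 0 < c) :
    Tendsto (fun T : ℝ => (2 / Real.log T) * ∑' n : ℕ, lk A c T n * Cn P B0 (-r) F T n) atTop
      (𝓝 (4 * (-r) / Real.pi * (SF B0 F q * ∑ m ∈ Finset.Icc 2 B0, sm P A c m * SM B0 F q m))) := by
  have hmain := (COMB2_of P B0 hB r hr F q hq A c (PSUM P A c hA hc) (PSUM_abs P A c hA hc)).neg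
  obtain ⟨C, η, T0, hC, hη, hT0, h⟩ := DIS P B0 hB r hr F
  obtain ⟨C1, T1, hC1, hT1, h1⟩ := PSUM_abs P A c hA hc
  have hsq : Tendsto (fun T : ℝ => (4 / Real.log T) *
      ∑ p ∈ PS P T, lk A c T (p ^ 2 : ℕ) * Cn P B0 r F T (p ^ 2)) atTop (𝓝 0) := by
    apply squeeze_zero_norm' (a := fun T : ℝ => 4 * C * C1 * (Real.log T)⁻¹)
    · filter_upwards [eventually_ge_atTop T0, eventually_ge_atTop T1,
        eventually_ge_atTop (10 : ℝ)] with T hT hTT1 hT10
      obtain ⟨_, hp1, hp2, hp3⟩ := h T hT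
      obtain ⟨ha1, ha2⟩ := h1 T hTT1
      have hL : 0 < Real.log T := Real.log_pos (by linarith)
      rw [Finset.mul_sum]
      refine (norm_sum_le _ _).trans ?_
      calc _ ≤ ∑ p ∈ PS P T, 4 * C * (Real.log T)⁻¹ *
            |Real.log p * bk A c T ((p ^ 2 : ℕ) : ℝ) / (p : ℝ) ^ 2| := by
            apply Finset.sum_le_sum
            intro p hp
            have hpr := PS_prime P T p hp
            have hp0 : (0 : ℝ) < p := by exact_mod_cast hpr.pos
            rw [lk_prime_sq A c T p hpr]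
            have e1 : 4 / Real.log T * (Real.log p * (1 / p) * bk A c T ((p ^ 2 : ℕ) : ℝ) *
                Cn P B0 r F T (p ^ 2)) = 4 * (Real.log T)⁻¹ * ((Real.log p *
                  bk A c T ((p ^ 2 : ℕ) : ℝ) / (p : ℝ) ^ 2) * (p * Cn P B0 r F T (p ^ 2))) := by
              field_simp
            rw [e1, Real.norm_eq_abs, abs_mul (4 * (Real.log T)⁻¹), abs_mul (Real.log p *
                  bk A c T ((p ^ 2 : ℕ) : ℝ) / (p : ℝ) ^ 2),
              abs_of_pos (show (0 : ℝ) < 4 * (Real.log T)⁻¹ by positivity)]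
            have e5 : |p * Cn P B0 r F T (p ^ 2)| ≤ C := by
              rw [abs_mul, abs_of_pos hp0]
              have := hp3 p hp
              rw [le_div_iff₀ hp0] at this
              linarith
            calc 4 * (Real.log T)⁻¹ * (|Real.log p * bk A c T ((p ^ 2 : ℕ) : ℝ) / (p : ℝ) ^ 2| *
                  |p * Cn P B0 r F T (p ^ 2)|) ≤
                  4 * (Real.log T)⁻¹ * (|Real.log p * bk A c T ((p ^ 2 : ℕ) : ℝ) /
                    (p : ℝ) ^ 2| * C) := by gcongr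
              _ = _ := by ring
        _ = 4 * C * (Real.log T)⁻¹ * ∑ p ∈ PS P T,
            |Real.log p * bk A c T ((p ^ 2 : ℕ) : ℝ) / (p : ℝ) ^ 2| := by rw [Finset.mul_sum]
        _ ≤ 4 * C * (Real.log T)⁻¹ * C1 := by gcongr
        _ = _ := by ring
    · have h4 := (Real.tendsto_log_atTop.inv_tendsto_atTop).const_mul (4 * C * C1)
      simpa using h4
  have hsum := hmain.add hsq
  rw [add_zero] at hsum
  have e0 : -(4 * r / Real.pi * (SF B0 F q * ∑ m ∈ Finset.Icc 2 B0, sm P A c m * SM B0 F q m)) =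
      4 * (-r) / Real.pi * (SF B0 F q * ∑ m ∈ Finset.Icc 2 B0, sm P A c m * SM B0 F q m) := by ring
  rw [e0] at hsum
  refine hsum.congr' ?_
  filter_upwards [eventually_ge_atTop (10 : ℝ)] with T hT10
  rw [tsum_split P B0 r F T A c hT10, tsum_split P B0 (-r) F T A c hT10]
  have s1 : ∑ p ∈ PS P T, lk A c T p * Cn P B0 (-r) F T p =
      -∑ p ∈ PS P T, lk A c T p * Cn P B0 r F T p := by
    rw [← Finset.sum_neg_distrib]
    refine Finset.sum_congr rfl fun p hp => ?_
    have hpr := PS_prime P T p hp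
    rw [Cn_neg P B0 r F T hpr.ne_zero, ArithmeticFunction.cardFactors_apply_prime hpr]
    ring
  have s2 : ∑ p ∈ PS P T, lk A c T (p ^ 2 : ℕ) * Cn P B0 (-r) F T (p ^ 2) =
      ∑ p ∈ PS P T, lk A c T (p ^ 2 : ℕ) * Cn P B0 r F T (p ^ 2) := by
    refine Finset.sum_congr rfl fun p hp => ?_
    have hpr := PS_prime P T p hp
    rw [Cn_neg P B0 r F T (pow_ne_zero 2 hpr.ne_zero), ArithmeticFunction.cardFactors_apply_prime_pow hpr]
    norm_num
  rw [s1, s2]
  ring

end Pool.Agent.Run7.h195.LB
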