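import Pool.Agent.Run7.h195.LB.Inst
import Pool.Agent.H503R2.LG.Ker
import Pool.Agent.TH803.TW.Far

/-! The twisted sums over the pairs of disjoint sets of primes are small. -/

open Complex Filter Topology Set MeasureTheory

namespace Pool.Agent.Run7.h195.LB

open SG (hh nn dd dl ord NZ)
open SP (RHs ZZ mu wt Mk Par Eb PS chi qq tt)
open LG LG.Cls

lemma ev_log4 (k s : ℝ) (hk : 0 < k) (hs : 0 < s) :
    ∀ᶠ T : ℝ in atTop, k * (Real.log T) ^ 4 ≤ T ^ s := by
  have h := isLittleO_log_rpow_atTop (show 0 < s / 4 by linarith)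
  rw [Asymptotics.isLittleO_iff] at h
  set c : ℝ := 1 / (k + 1) with hc
  have hc0 : 0 < c := by positivity
  filter_upwards [h (show (0 : ℝ) < c by positivity), eventually_ge_atTop 1] with T hT h1
  rw [Real.norm_of_nonneg (Real.log_nonneg h1),
    Real.norm_of_nonneg (Real.rpow_nonneg (by linarith) _)] at hT
  have h2 := pow_le_pow_left₀ (Real.log_nonneg h1) hT 4
  rw [mul_pow, ← Real.rpow_natCast (T ^ (s / 4)), ← Real.rpow_mul (by linarith)] at h2
  have e : s / 4 * ((4 : ℕ) : ℝ) = s := by push_cast; ring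
  rw [e] at h2
  have h3 : 0 ≤ T ^ s := Real.rpow_nonneg (by linarith) _
  have hc1 : k * c ^ 4 ≤ 1 := by
    have h5 : c ≤ 1 := by
      rw [hc, div_le_one (by positivity)]; linarith
    have h4 : c ^ 4 ≤ c := by
      calc c ^ 4 = c * c ^ 3 := by ring
        _ ≤ c * 1 := by
            apply mul_le_mul_of_nonneg_left _ hc0.le
            exact pow_le_one₀ hc0.le h5
        _ = c := mul_one c
    calc k * c ^ 4 ≤ k * c := by gcongr
      _ = k / (k + 1) := by rw [hc]; ring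
      _ ≤ 1 := by rw [div_le_one (by positivity)]; linarith
  calc k * Real.log T ^ 4 ≤ k * (c ^ 4 * T ^ s) := by gcongr
    _ = k * c ^ 4 * T ^ s := by ring
    _ ≤ 1 * T ^ s := by gcongr
    _ = T ^ s := one_mul _

lemma ev_log2 (k s : ℝ) (hk : 0 < k) (hs : 0 < s) :
    ∀ᶠ T : ℝ in atTop, k * (1 + Real.log T) ^ 2 * T ^ (-s) ≤ 1 := by
  filter_upwards [ev_log4 (4 * k) s (by positivity) hs, eventually_ge_atTop 1,
    Real.tendsto_log_atTop.eventually_ge_atTop 1] with T h1 h2 h3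
  have hT : 0 < T := by linarith
  have hTs : 0 < T ^ s := Real.rpow_pos_of_pos hT _
  rw [Real.rpow_neg hT.le, ← div_eq_mul_inv, div_le_one hTs]
  refine le_trans ?_ h1
  have h4 : (1 + Real.log T) ^ 2 ≤ 4 * Real.log T ^ 2 := by nlinarith
  have h5 : Real.log T ^ 2 ≤ Real.log T ^ 4 := pow_le_pow_right₀ h3 (by norm_num)
  nlinarith

/-- the Gaussian factor -/
noncomputable def gx (κ T τ : ℝ) (z : Quad) (x : ℝ) : ℝ :=
  Real.exp (-((dd κ T) ^ 2 * (Real.log (M1 z) - Real.log (M2 z) - (x - τ)) ^ 2 / 2))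

lemma gx_le_one (κ T τ : ℝ) (z : Quad) (x : ℝ) : gx κ T τ z x ≤ 1 := by
  unfold gx
  rw [Real.exp_le_one_iff]
  have : 0 ≤ (dd κ T) ^ 2 * (Real.log (M1 z) - Real.log (M2 z) - (x - τ)) ^ 2 / 2 := by positivity
  linarith

lemma gx_pos (κ T τ : ℝ) (z : Quad) (x : ℝ) : 0 < gx κ T τ z x := Real.exp_pos _

/-- the far terms -/
lemma gx_far {κ T τ r' : ℝ} (hκ : 0 < κ) (hκ1 : κ < 1 / 2) (hT : 1 ≤ T) (hr' : r' = Real.exp τ + 1)
    {z : Quad} (h1 : 1 ≤ M1 z) (h2 : 1 ≤ M2 z) (hX : (M1 z : ℝ) ≤ T ^ (1 - κ)) {n : ℕ} (hn : 1 ≤ n)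
    (hfar : T ^ (-(κ / 4)) ≤ |((n * M2 z : ℕ) : ℝ) - M1 z * Real.exp τ|) :
    gx κ T τ z (Real.log n) ≤ Real.exp (-(T ^ (κ / 2) / (8 * r' ^ 2))) := by
  unfold gx
  apply Real.exp_le_exp.2
  have hT0 : 0 < T := by linarith
  have m1 : (0 : ℝ) < M1 z := by exact_mod_cast h1
  have m2 : (0 : ℝ) < M2 z := by exact_mod_cast h2
  have hn0 : (0 : ℝ) < n := by exact_mod_cast hn
  set r := Real.exp τ with hr
  have hr0 : 0 < r := Real.exp_pos _
  have hr'1 : 1 ≤ r' := by rw [hr']; linarith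
  set x : ℝ := ((n * M2 z : ℕ) : ℝ) with hx
  have hx0 : 0 < x := by rw [hx]; push_cast; positivity
  set y : ℝ := M1 z * r with hy
  have hy0 : 0 < y := by positivity
  have hlog : Real.log (M1 z) - Real.log (M2 z) - (Real.log n - τ) =
      -(Real.log x - Real.log y) := by
    rw [hx, hy]
    push_cast
    rw [Real.log_mul hn0.ne' m2.ne', Real.log_mul m1.ne' hr0.ne', hr, Real.log_exp]
    ring
  rw [hlog]
  have hlow := TH803TW.log_lower hx0 hy0
  set X : ℝ := T ^ (1 - κ) with hXdef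
  have hX0 : 0 < X := by positivity
  have hD : (dd κ T) ^ 2 = T ^ (2 - κ) := by
    unfold dd
    rw [← Real.rpow_natCast, ← Real.rpow_mul hT0.le]
    congr 1
    push_cast
    ring
  have hyX : y ≤ r' * X := by
    rw [hy, hr']
    nlinarith
  have hTk : 0 < T ^ (κ / 2) := by positivity
  have hkey : T ^ (κ / 2) / (8 * r' ^ 2) ≤ (dd κ T) ^ 2 * (Real.log x - Real.log y) ^ 2 / 2 := by
    rcases le_or_gt (max x y) (2 * r' * X) with hle | hgt
    · have hmax : 0 < max x y := lt_max_of_lt_left hx0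
      have h3 : T ^ (-(κ / 4)) / (2 * r' * X) ≤ |Real.log x - Real.log y| := by
        refine le_trans ?_ hlow
        apply div_le_div₀ (abs_nonneg _) hfar hmax hle
      have h4 : (T ^ (-(κ / 4)) / (2 * r' * X)) ^ 2 ≤ (Real.log x - Real.log y) ^ 2 := by
        rw [← sq_abs (Real.log x - Real.log y)]
        exact pow_le_pow_left₀ (by positivity) h3 2
      calc T ^ (κ / 2) / (8 * r' ^ 2) = (dd κ T) ^ 2 * (T ^ (-(κ / 4)) / (2 * r' * X)) ^ 2 / 2 := by
            rw [hD, hXdef]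
            have e1 : (T ^ (-(κ / 4))) ^ 2 = T ^ (-(κ / 2)) := by
              rw [← Real.rpow_natCast, ← Real.rpow_mul hT0.le]
              congr 1
              push_cast
              ring
            have e2 : (T ^ (1 - κ)) ^ 2 = T ^ (2 - 2 * κ) := by
              rw [← Real.rpow_natCast, ← Real.rpow_mul hT0.le]
              congr 1
              push_cast
              ring
            rw [div_pow, mul_pow, e1, e2]
            have e3 : T ^ (2 - κ) * T ^ (-(κ / 2)) = T ^ (κ / 2) * T ^ (2 - 2 * κ) := by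
              rw [← Real.rpow_add hT0, ← Real.rpow_add hT0]
              congr 1
              ring
            have e4 : T ^ (2 - κ) * (T ^ (-(κ / 2)) / ((2 * r') ^ 2 * T ^ (2 - 2 * κ))) / 2 =
                (T ^ (2 - κ) * T ^ (-(κ / 2))) / ((2 * r') ^ 2 * T ^ (2 - 2 * κ)) / 2 := by ring
            rw [e4, e3]
            have : T ^ (2 - 2 * κ) ≠ 0 := (Real.rpow_pos_of_pos hT0 _).ne'
            field_simp
            ring
        _ ≤ _ := by gcongr
    · have hxX : 2 * r' * X < x := by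
        rcases lt_max_iff.1 hgt with h | h
        · exact h
        · exfalso
          have : r' * X ≤ 2 * r' * X := by nlinarith [mul_pos (by linarith : 0 < r') hX0]
          linarith
      have h3 : (1 : ℝ) / 2 ≤ |Real.log x - Real.log y| := by
        refine le_trans ?_ hlow
        have hmx : max x y = x := max_eq_left (by nlinarith)
        rw [hmx, abs_of_nonneg (by nlinarith), le_div_iff₀ hx0]
        nlinarith
      have h4 : (1 / 2 : ℝ) ^ 2 ≤ (Real.log x - Real.log y) ^ 2 := by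
        rw [← sq_abs (Real.log x - Real.log y)]
        exact pow_le_pow_left₀ (by positivity) h3 2
      calc T ^ (κ / 2) / (8 * r' ^ 2) ≤ T ^ (κ / 2) / 8 := by
            apply div_le_div_of_nonneg_left hTk.le (by norm_num)
            nlinarith
        _ ≤ T ^ (2 - κ) / 8 := by
            apply div_le_div_of_nonneg_right _ (by norm_num)
            exact Real.rpow_le_rpow_of_exponent_le hT (by linarith)
        _ = (dd κ T) ^ 2 * (1 / 2) ^ 2 / 2 := by rw [hD]; ring
        _ ≤ _ := by gcongr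
  have e5 : (-(Real.log x - Real.log y)) ^ 2 = (Real.log x - Real.log y) ^ 2 := by ring
  rw [e5]
  linarith

lemma lk_bound (A c T : ℝ) (hc : 0 < c) (n : ℕ) : |lk A c T n| ≤ c * th n / Real.sqrt n := by
  have h1 := bk_le A c T n hc
  have h2 : 0 ≤ ArithmeticFunction.vonMangoldt n := ArithmeticFunction.vonMangoldt_nonneg
  have h3 : ArithmeticFunction.vonMangoldt n ≤ th n := by
    unfold th
    split_ifs <;> linarith
  unfold lk
  rw [abs_mul, abs_mul, abs_of_nonneg h2, abs_of_nonneg (Real.rpow_nonneg (Nat.cast_nonneg n) _),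
    Real.rpow_neg (Nat.cast_nonneg n), ← Real.sqrt_eq_rpow]
  have h5 := th_nonneg n
  have h6 : 0 ≤ th n * (Real.sqrt n)⁻¹ := by positivity
  calc ArithmeticFunction.vonMangoldt n * (Real.sqrt n)⁻¹ * |bk A c T n| ≤
      th n * (Real.sqrt n)⁻¹ * c := by gcongr
    _ = _ := by ring

/-- everything which holds for large `T` -/
lemma ev_par (κ τ : ℝ) (hκ : 0 < κ) (hκ1 : κ < 1 / 2) (hτ : τ ≠ 0) (B0 : ℕ) (hB0 : 0 < B0)
    (W E C2 η : ℝ) (hW : 0 < W) (hE : 0 ≤ E) (hC2 : 0 < C2) (hη : 0 < η) :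
    ∃ T0 : ℝ, 10 ≤ T0 ∧ ∀ T : ℝ, T0 ≤ T →
      T ^ (-(κ / 4)) ≤ 1 / 4 ∧ (∀ a : ℤ, |Real.exp τ - a| < 2 * T ^ (-(κ / 4)) → Real.exp τ = a) ∧
      Real.exp τ < T ^ (1 / (4 * (B0 : ℝ))) ∧ 2 ≤ T ^ (1 / (4 * (B0 : ℝ))) ∧
      (Real.exp τ + 1) * T ^ (1 - κ) + 1 ≤ T ∧ 1 ≤ Real.log T ∧
      W * ((Real.log T + 1) * ((16 * T ^ (-(κ / 4)) + 1 / T ^ (1 / (4 * (B0 : ℝ)))) *
        (1 + Real.log T))) ≤ η / 4 ∧ E ≤ η / 4 * Real.log T ∧
      (1 + C2 * Real.exp (Real.log T ^ 4)) * T ^ 4 *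
        Real.exp (-(T ^ (κ / 2) / (8 * (Real.exp τ + 1) ^ 2))) ≤ η / 4 := by
  set r := Real.exp τ with hr
  have hr0 : 0 < r := Real.exp_pos _
  have hB0' : (0 : ℝ) < B0 := by exact_mod_cast hB0
  set e : ℝ := 1 / (4 * (B0 : ℝ)) with he
  have he0 : 0 < e := by positivity
  have hδ : Tendsto (fun T : ℝ => T ^ (-(κ / 4))) atTop (𝓝 0) :=
    tendsto_rpow_neg_atTop (by linarith)
  -- distance to the integers
  obtain ⟨d0, hd0, hd⟩ : ∃ d0 : ℝ, 0 < d0 ∧ ∀ a : ℤ, |r - a| < d0 → r = a := by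
    by_cases hz : Int.fract r = 0
    · refine ⟨1, one_pos, fun a ha => ?_⟩
      have h1 : r = ⌊r⌋ := by
        have := Int.floor_add_fract r
        linarith
      rw [h1] at ha ⊢
      have h2 : |((⌊r⌋ - a : ℤ) : ℝ)| < 1 := by push_cast; exact ha
      have h3 : |(⌊r⌋ - a : ℤ)| < 1 := by exact_mod_cast h2
      have h4 : ⌊r⌋ - a = 0 := Int.abs_lt_one_iff.1 h3
      have h5 : ⌊r⌋ = a := by omega
      rw [h5]
    · have hf0 : 0 < Int.fract r := lt_of_le_of_ne (Int.fract_nonneg r) (Ne.symm hz)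
      have hf1 := Int.fract_lt_one r
      refine ⟨min (Int.fract r) (1 - Int.fract r), lt_min hf0 (by linarith), fun a ha => ?_⟩
      exfalso
      obtain ⟨g1, g2⟩ := lt_min_iff.1 ha
      have h1 : r = ⌊r⌋ + Int.fract r := (Int.floor_add_fract r).symm
      obtain ⟨p1, p2⟩ := abs_lt.1 g1
      obtain ⟨p3, p4⟩ := abs_lt.1 g2
      have h2 : (⌊r⌋ : ℝ) < a := by linarith
      have h3 : (a : ℝ) < ⌊r⌋ + 1 := by linarith
      have h4 : ⌊r⌋ < a := by exact_mod_cast h2
      have h5 : a < ⌊r⌋ + 1 := by exact_mod_cast h3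
      omega
  have ev1 : ∀ᶠ T : ℝ in atTop, T ^ (-(κ / 4)) < min (1 / 4) (d0 / 2) :=
    hδ.eventually_lt_const (lt_min (by norm_num) (by positivity))
  have ev2 : ∀ᶠ T : ℝ in atTop, r + 2 ≤ T ^ e := (tendsto_rpow_atTop he0).eventually_ge_atTop _
  have ev3 : ∀ᶠ T : ℝ in atTop, r + 2 ≤ T ^ κ := (tendsto_rpow_atTop hκ).eventually_ge_atTop _
  have ev4 : ∀ᶠ T : ℝ in atTop, max 1 (4 * E / η) ≤ Real.log T :=
    Real.tendsto_log_atTop.eventually_ge_atTop _
  have ev5 := ev_log2 (W * 128 / η) (κ / 4) (by positivity) (by positivity)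
  have ev6 := ev_log2 (W * 8 / η) e (by positivity) he0
  have ev7 := ev_log4 (8 * (r + 1) ^ 2 * 6) (κ / 2) (by positivity) (by positivity)
  have ev8 : ∀ᶠ T : ℝ in atTop, (1 + C2) * 4 / η ≤ T := eventually_ge_atTop _
  obtain ⟨T0, hT0⟩ := (ev1.and (ev2.and (ev3.and (ev4.and (ev5.and (ev6.and
    (ev7.and ev8))))))).exists_forall_of_atTop
  refine ⟨max T0 10, le_max_right _ _, fun T hT => ?_⟩
  obtain ⟨g1, g2, g3, g4, g5, g6, g7, g8⟩ := hT0 T ((le_max_left _ _).trans hT)
  have hT10 : 10 ≤ T := (le_max_right _ _).trans hT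
  have hTp : 0 < T := by linarith
  obtain ⟨g11, g12⟩ := lt_min_iff.1 g1
  obtain ⟨g41, g42⟩ := max_le_iff.1 g4
  set L := Real.log T with hL
  have hTe : 0 < T ^ e := by positivity
  refine ⟨g11.le, fun a ha => hd a (ha.trans (by linarith)), by linarith, by linarith, ?_, g41,
    ?_, ?_, ?_⟩
  · have h1 : T ^ κ * T ^ (1 - κ) = T := by
      rw [← Real.rpow_add hTp]
      have : κ + (1 - κ) = 1 := by ring
      rw [this, Real.rpow_one]
    have h2 : 1 ≤ T ^ (1 - κ) := Real.one_le_rpow (by linarith) (by linarith)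
    calc (r + 1) * T ^ (1 - κ) + 1 ≤ (r + 2) * T ^ (1 - κ) := by linarith
      _ ≤ T ^ κ * T ^ (1 - κ) := by gcongr
      _ = T := h1
  · have h1 : W * 128 * ((1 + L) ^ 2 * T ^ (-(κ / 4))) ≤ η := by
      have : W * 128 / η * (1 + L) ^ 2 * T ^ (-(κ / 4)) =
          (W * 128 * ((1 + L) ^ 2 * T ^ (-(κ / 4)))) / η := by ring
      rw [this, div_le_one hη] at g5
      exact g5
    have h2 : W * 8 * ((1 + L) ^ 2 * T ^ (-e)) ≤ η := by
      have : W * 8 / η * (1 + L) ^ 2 * T ^ (-e) =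
          (W * 8 * ((1 + L) ^ 2 * T ^ (-e))) / η := by ring
      rw [this, div_le_one hη] at g6
      exact g6
    have h3 : 1 / T ^ e = T ^ (-e) := by rw [Real.rpow_neg hTp.le, one_div]
    rw [h3]
    have h4 : W * ((L + 1) * ((16 * T ^ (-(κ / 4)) + T ^ (-e)) * (1 + L))) =
        (W * 128 * ((1 + L) ^ 2 * T ^ (-(κ / 4)))) / 8 + (W * 8 * ((1 + L) ^ 2 * T ^ (-e))) / 8 := by
      ring
    rw [h4]
    linarith
  · rw [div_le_iff₀ hη] at g42
    linarith
  · have hL4 : 1 ≤ L ^ 4 := one_le_pow₀ g41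
    have hexp1 : 1 ≤ Real.exp (L ^ 4) := Real.one_le_exp (by positivity)
    have h1 : 1 + C2 * Real.exp (L ^ 4) ≤ (1 + C2) * Real.exp (L ^ 4) := by nlinarith
    have h2 : T ^ 4 = Real.exp (4 * L) := by
      rw [hL, show (4 : ℝ) * Real.log T = ((4 : ℕ) : ℝ) * Real.log T by norm_num,
        Real.exp_nat_mul, Real.exp_log hTp]
    have h3 : 6 * L ^ 4 ≤ T ^ (κ / 2) / (8 * (r + 1) ^ 2) := by
      rw [le_div_iff₀ (by positivity)]
      linarith
    have hLL : L ≤ L ^ 4 := le_self_pow₀ g41 (by norm_num)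
    calc (1 + C2 * Real.exp (L ^ 4)) * T ^ 4 * Real.exp (-(T ^ (κ / 2) / (8 * (r + 1) ^ 2))) ≤
        ((1 + C2) * Real.exp (L ^ 4)) * Real.exp (4 * L) * Real.exp (-(6 * L ^ 4)) := by
          rw [h2]
          gcongr
      _ = (1 + C2) * Real.exp (L ^ 4 + 4 * L + -(6 * L ^ 4)) := by
          rw [Real.exp_add, Real.exp_add]
          ring
      _ ≤ (1 + C2) * Real.exp (-L) := by
          gcongr
          linarith
      _ = (1 + C2) / T := by
          rw [Real.exp_neg, hL, Real.exp_log hTp, div_eq_mul_inv]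
      _ ≤ η / 4 := by
          rw [div_le_iff₀ hTp]
          rw [div_le_iff₀ hη] at g8
          linarith

/-- **the twisted sums are small** -/
theorem tw_sum (P : Par) (B0 : ℕ) (hB : P.B = 2 * B0) (rr : ℝ) (F : ℕ → ℝ) (A c : ℝ)
    (hc : 0 < c) (τ : ℝ) (hτ : τ ≠ 0) (η : ℝ) (hη : 0 < η) :
    ∃ T0 : ℝ, 10 ≤ T0 ∧ ∀ T : ℝ, T0 ≤ T →
      ∑ z ∈ QQd P B0 T, gz P rr F T z * gx P.κ T τ z 0 ≤ η ∧
      ∑' n : ℕ, |lk A c T n| * ∑ z ∈ QQd P B0 T, gz P rr F T z * gx P.κ T τ z (Real.log n) ≤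
        η * Real.log T := by
  classical
  obtain ⟨K, T1, hK, hT1, hinst⟩ := fam_inst P B0 hB rr F
  obtain ⟨C2, hC2, hlks⟩ := lk_summable A c hc
  obtain ⟨C3, T3, hC3, hT3, hfam⟩ := fam_facts P B0 hB rr F
  have hB2 := P.hB
  have hB0 : 0 < B0 := by omega
  set r := Real.exp τ with hr
  have hr0 : 0 < r := Real.exp_pos _
  have hr1 : r ≠ 1 := by
    rw [hr]
    intro h
    exact hτ (Real.exp_eq_one_iff τ |>.1 h)
  set W : ℝ := (c + 1) * K * 16 ^ B0 * (2 / Real.sqrt r) with hW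
  have hsr : 0 < Real.sqrt r := Real.sqrt_pos.2 hr0
  have hW0 : 0 < W := by positivity
  obtain ⟨T4, hT4, hev⟩ := ev_par P.κ τ P.hκ P.hκ1 hτ B0 hB0 W (c * |τ| * K) C2 η hW0
    (by positivity) hC2 hη
  refine ⟨max T1 (max T3 T4), hT1.trans (le_max_left _ _), fun T hT => ?_⟩
  have hTT1 : T1 ≤ T := (le_max_left _ _).trans hT
  have hTT3 : T3 ≤ T := ((le_max_left _ _).trans (le_max_right _ _)).trans hT
  have hTT4 : T4 ≤ T := ((le_max_right _ _).trans (le_max_right _ _)).trans hT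
  have hT10 : 10 ≤ T := hT1.trans hTT1
  have hTp : 0 < T := by linarith
  obtain ⟨hF, hX, hdiag⟩ := hinst T hTT1
  obtain ⟨v1, v2, v3, v4, v5, v6, v7, v8, v9⟩ := hev T hTT4
  obtain ⟨-, -, hsum2, -⟩ := hfam T hTT3
  obtain ⟨hs1, hs2⟩ := hlks T hT10
  set L := Real.log T with hL
  set δ := T ^ (-(P.κ / 4)) with hδ
  have hδ0 : 0 < δ := Real.rpow_pos_of_pos hTp _
  set R := T ^ (1 / (4 * (B0 : ℝ))) with hR
  set Xn := ⌈(r + 1) * T ^ (1 - P.κ)⌉₊ with hXn
  have hXnT : (Xn : ℝ) ≤ T := by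
    have := Nat.ceil_lt_add_one (show 0 ≤ (r + 1) * T ^ (1 - P.κ) by positivity)
    linarith
  have hXn1 : (r + 1) * T ^ (1 - P.κ) ≤ Xn := Nat.le_ceil _
  have hXnpos : 0 < (Xn : ℝ) := lt_of_lt_of_le (by positivity) hXn1
  have hlogXn : Real.log Xn ≤ L := Real.log_le_log hXnpos hXnT
  have hlogXn0 : 0 ≤ Real.log Xn := Real.log_natCast_nonneg _
  have hXX : ∀ z ∈ QQd P B0 T, (r + 1) * (M1 z : ℝ) ≤ Xn := by
    intro z hz
    refine le_trans ?_ hXn1
    exact mul_le_mul_of_nonneg_left (hX z hz).1 (by positivity)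
  set S := QQd P B0 T with hS
  set g := gz P rr F T with hg
  have hg0 : ∀ z, 0 ≤ g z := fun z => by rw [hg]; unfold gz; positivity
  have hgsum : ∑ z ∈ S, g z ≤ T ^ 4 := by
    have e1 : ∑ z ∈ S, g z = (∑ q ∈ prs P B0 T, |ae P rr F T q.1 * ae P rr F T q.2|) ^ 2 := by
      rw [hS, hg]
      unfold QQd gz
      rw [Finset.sum_product, sq, Finset.sum_mul_sum]
    rw [e1]
    calc _ ≤ (T ^ 2) ^ 2 := pow_le_pow_left₀ (Finset.sum_nonneg fun _ _ => abs_nonneg _) hsum2 2
      _ = T ^ 4 := by ring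
  set ef := Real.exp (-(T ^ (P.κ / 2) / (8 * (r + 1) ^ 2))) with hef
  have hef0 : 0 < ef := Real.exp_pos _
  -- pointwise bound of the inner sums
  have hin : ∀ n : ℕ, 1 ≤ n → ∑ z ∈ S, g z * gx P.κ T τ z (Real.log n) ≤
      ∑ z ∈ S.filter (fun z => |((n * M2 z : ℕ) : ℝ) - M1 z * r| < δ), g z + T ^ 4 * ef := by
    intro n hn
    rw [← Finset.sum_filter_add_sum_filter_not S (fun z => |((n * M2 z : ℕ) : ℝ) - M1 z * r| < δ)]
    apply add_le_add
    · refine Finset.sum_le_sum fun z _ => ?_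
      exact mul_le_of_le_one_right (hg0 z) (gx_le_one _ _ _ _ _)
    · calc _ ≤ ∑ z ∈ S.filter (fun z => ¬ |((n * M2 z : ℕ) : ℝ) - M1 z * r| < δ), g z * ef := by
            refine Finset.sum_le_sum fun z hz => ?_
            obtain ⟨hz1, hz2⟩ := Finset.mem_filter.1 hz
            apply mul_le_mul_of_nonneg_left _ (hg0 z)
            exact gx_far P.hκ P.hκ1 (by linarith) rfl (hF.p1 z hz1) (hF.p2 z hz1) (hX z hz1).1 hn
              (not_lt.1 hz2)
        _ = (∑ z ∈ S.filter (fun z => ¬ |((n * M2 z : ℕ) : ℝ) - M1 z * r| < δ), g z) * ef := by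
            rw [Finset.sum_mul]
        _ ≤ (∑ z ∈ S, g z) * ef := by
            apply mul_le_mul_of_nonneg_right _ hef0.le
            exact Finset.sum_le_sum_of_subset_of_nonneg (Finset.filter_subset _ _)
              fun z _ _ => hg0 z
        _ ≤ _ := by gcongr
  -- the near sum
  have hnear : ∀ (lam : ℕ → ℝ) (Cl E0 : ℝ), 0 ≤ Cl → Cl ≤ c + 1 → 0 ≤ E0 →
      (∀ n, 1 ≤ n → 0 ≤ lam n ∧ lam n ≤ Cl * th n / Real.sqrt n) →
      (∀ a : ℕ, 2 ≤ a → (a : ℝ) = r →
        lam a * ∑ z ∈ S.filter (fun z => M1 z = M2 z), g z ≤ E0) →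
      ∑ n ∈ Finset.Icc 1 Xn, lam n *
        ∑ z ∈ S.filter (fun z => |((n * M2 z : ℕ) : ℝ) - M1 z * r| < δ), g z ≤ η / 4 + E0 := by
    intro lam Cl E0 hCl hCl1 hE0 hlam hE
    have h1 := near_sum hF hK.le hCl hlam hr0 hr1 v3 v4 hδ0 v1 v2 (Y := Xn) hXX hE0 hE
    have e1 : ∑ n ∈ Finset.Icc 1 Xn, lam n *
        ∑ z ∈ S.filter (fun z => |((n * M2 z : ℕ) : ℝ) - M1 z * r| < δ), g z =
        ∑ x ∈ (S ×ˢ Finset.Icc 1 Xn).filter
          (fun x => |((x.2 * M2 x.1 : ℕ) : ℝ) - M1 x.1 * r| < δ), lam x.2 * g x.1 := by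
      rw [Finset.sum_filter, Finset.sum_product_right]
      refine Finset.sum_congr rfl fun n _ => ?_
      rw [Finset.sum_filter, Finset.mul_sum]
      refine Finset.sum_congr rfl fun z _ => ?_
      split_ifs
      · rfl
      · rw [mul_zero]
    rw [e1]
    refine h1.trans ?_
    apply add_le_add_left
    calc Cl * K * 16 ^ B0 * (Real.log Xn + 1) * (2 / Real.sqrt r) *
          ((16 * δ + 1 / R) * (1 + Real.log Xn)) ≤
        (c + 1) * K * 16 ^ B0 * (L + 1) * (2 / Real.sqrt r) * ((16 * δ + 1 / R) * (1 + L)) := by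
          gcongr
      _ = W * ((L + 1) * ((16 * δ + 1 / R) * (1 + L))) := by rw [hW]; ring
      _ ≤ η / 4 := v7
  have hef4 : T ^ 4 * ef ≤ η / 4 := by
    refine le_trans ?_ v9
    have h1 : 1 ≤ 1 + C2 * Real.exp (L ^ 4) := by
      have : 0 ≤ C2 * Real.exp (L ^ 4) := by positivity
      linarith
    calc T ^ 4 * ef = 1 * T ^ 4 * ef := by ring
      _ ≤ (1 + C2 * Real.exp (L ^ 4)) * T ^ 4 * ef := by gcongr
  have hXn1' : 1 ≤ Xn := by
    have : 0 < Xn := by exact_mod_cast hXnpos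
    omega
  constructor
  · have h1 := hin 1 le_rfl
    rw [Nat.cast_one, Real.log_one] at h1
    refine h1.trans ?_
    have h2 := hnear (fun n => if n = 1 then 1 else 0) 1 0 zero_le_one (by linarith) le_rfl
      (fun n hn => by
        have h5 := th_nonneg n
        by_cases hn1 : n = 1
        · subst hn1
          simp only [if_true]
          refine ⟨zero_le_one, ?_⟩
          unfold th
          simp
        · rw [if_neg hn1]
          exact ⟨le_rfl, by positivity⟩)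
      (fun a ha _ => by rw [if_neg (by omega)]; simp)
    have h3 : ∑ z ∈ S.filter (fun z => |((1 * M2 z : ℕ) : ℝ) - M1 z * r| < δ), g z ≤
        ∑ n ∈ Finset.Icc 1 Xn, (if n = 1 then (1 : ℝ) else 0) *
        ∑ z ∈ S.filter (fun z => |((n * M2 z : ℕ) : ℝ) - M1 z * r| < δ), g z := by
      have h4 := Finset.single_le_sum (f := fun n : ℕ => (if n = 1 then (1 : ℝ) else 0) *
        ∑ z ∈ S.filter (fun z => |((n * M2 z : ℕ) : ℝ) - M1 z * r| < δ), g z)
        (s := Finset.Icc 1 Xn) (fun n _ => by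
          have : 0 ≤ ∑ z ∈ S.filter (fun z => |((n * M2 z : ℕ) : ℝ) - M1 z * r| < δ), g z :=
            Finset.sum_nonneg fun z _ => hg0 z
          split_ifs
          · rw [one_mul]; exact this
          · rw [zero_mul]) (Finset.mem_Icc.2 ⟨le_rfl, hXn1'⟩)
      simpa using h4
    linarith
  · have hlk0 : lk A c T 0 = 0 := by
      unfold lk
      simp
    set N : ℕ → ℝ := fun n =>
      ∑ z ∈ S.filter (fun z => |((n * M2 z : ℕ) : ℝ) - M1 z * r| < δ), g z with hN
    have hN0 : ∀ n, 0 ≤ N n := fun n => Finset.sum_nonneg fun z _ => hg0 z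
    have hNz : ∀ n, n ∉ Finset.Icc 1 Xn → |lk A c T n| * N n = 0 := by
      intro n hn
      rw [Finset.mem_Icc, not_and_or, not_le, not_le] at hn
      rcases hn with hn | hn
      · have : n = 0 := by omega
        rw [this, hlk0, abs_zero, zero_mul]
      · have : N n = 0 := by
          rw [hN]
          simp only
          rw [Finset.sum_eq_zero]
          intro z hz
          exfalso
          obtain ⟨hz1, hz2⟩ := Finset.mem_filter.1 hz
          have h1 := (abs_lt.1 hz2).2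
          have h2 : 1 ≤ M2 z := hF.p2 z hz1
          have h3 : n ≤ n * M2 z := Nat.le_mul_of_pos_right n h2
          have h4 : (Xn : ℝ) < ((n * M2 z : ℕ) : ℝ) := by
            exact_mod_cast lt_of_lt_of_le hn h3
          have h5 := hXX z hz1
          have h6 : (1 : ℝ) ≤ M1 z := by exact_mod_cast hF.p1 z hz1
          nlinarith
        rw [this, mul_zero]
    have hsumN : Summable fun n => |lk A c T n| * N n :=
      summable_of_ne_finset_zero (s := Finset.Icc 1 Xn) hNz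
    have hsumC : Summable fun n => |lk A c T n| * (T ^ 4 * ef) := hs1.mul_right _
    have hle : ∀ n : ℕ, |lk A c T n| * ∑ z ∈ S, g z * gx P.κ T τ z (Real.log n) ≤
        |lk A c T n| * N n + |lk A c T n| * (T ^ 4 * ef) := by
      intro n
      rcases Nat.eq_zero_or_pos n with h0 | h0
      · rw [h0, hlk0, abs_zero]
        simp
      · rw [← mul_add]
        exact mul_le_mul_of_nonneg_left (hin n h0) (abs_nonneg _)
    have hsumL : Summable fun n : ℕ => |lk A c T n| *
        ∑ z ∈ S, g z * gx P.κ T τ z (Real.log n) := by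
      refine Summable.of_nonneg_of_le (fun n => ?_) hle (hsumN.add hsumC)
      exact mul_nonneg (abs_nonneg _) (Finset.sum_nonneg fun z _ =>
        mul_nonneg (hg0 z) (gx_pos _ _ _ _ _).le)
    calc _ ≤ ∑' n : ℕ, (|lk A c T n| * N n + |lk A c T n| * (T ^ 4 * ef)) :=
          hsumL.tsum_le_tsum hle (hsumN.add hsumC)
      _ = ∑' n : ℕ, |lk A c T n| * N n + ∑' n : ℕ, |lk A c T n| * (T ^ 4 * ef) :=
          hsumN.tsum_add hsumC
      _ = ∑ n ∈ Finset.Icc 1 Xn, |lk A c T n| * N n + (∑' n : ℕ, |lk A c T n|) * (T ^ 4 * ef) := by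
          rw [tsum_eq_sum hNz, tsum_mul_right]
      _ ≤ (η / 4 + c * |τ| * K) + (C2 * Real.exp (L ^ 4)) * (T ^ 4 * ef) := by
          apply add_le_add
          · apply hnear (fun n => |lk A c T n|) c (c * |τ| * K) hc.le (by linarith) (by positivity)
              (fun n _ => ⟨abs_nonneg _, lk_bound A c T hc n⟩)
            intro a ha har
            have h1 : |lk A c T a| ≤ c * |τ| := by
              refine (lk_bound A c T hc a).trans ?_
              have ha1 : (1 : ℝ) ≤ a := by exact_mod_cast (by omega : 1 ≤ a)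
              have h2 : th a ≤ |τ| := by
                unfold th
                rw [if_neg (by omega), add_zero]
                refine (ArithmeticFunction.vonMangoldt_le_log).trans ?_
                rw [har, hr, Real.log_exp]
                exact le_abs_self τ
              have h3 : 1 ≤ Real.sqrt a := Real.one_le_sqrt.2 ha1
              rw [div_le_iff₀ (by linarith)]
              calc c * th a ≤ c * |τ| := by gcongr
                _ = c * |τ| * 1 := by ring
                _ ≤ c * |τ| * Real.sqrt a := by gcongr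
            calc |lk A c T a| * ∑ z ∈ S.filter (fun z => M1 z = M2 z), g z ≤ c * |τ| * K := by
                  apply mul_le_mul h1 hdiag (Finset.sum_nonneg fun z _ => hg0 z) (by positivity)
              _ = _ := rfl
          · exact mul_le_mul_of_nonneg_right hs2 (by positivity)
      _ ≤ (η / 4 + η / 4 * L) + η / 4 := by
          apply add_le_add (add_le_add_right v8 _)
          refine le_trans ?_ v9
          have h1 : C2 * Real.exp (L ^ 4) ≤ 1 + C2 * Real.exp (L ^ 4) := by linarith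
          calc C2 * Real.exp (L ^ 4) * (T ^ 4 * ef) ≤
              (1 + C2 * Real.exp (L ^ 4)) * (T ^ 4 * ef) := by gcongr
            _ = _ := by ring
      _ ≤ η * L := by nlinarith

end Pool.Agent.Run7.h195.LB
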